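import Pool.Agent.Helper13.PL.L3
import Pool.Agent.Helper13.TW.Push
import Pool.Agent.Helper37.PC.Basic
import Pool.Agent.Helper37.UL.LevEq

/-!
# Project PLANE, block L: the constants attached to a Galois section of a plane curve, final form
-/

universe u v

set_option linter.unusedSectionVars false

namespace Pool.Agent.PL

open Polynomial Pool.Agent.PC Pool.Agent.Helper91.Sect Pool.Agent.LT Pool.Agent.GC Pool.Agent.SC
  Pool.Agent.Helper37.UL

section conv

variable {k : Type u} [Field k]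

/-- the polynomial with coefficients `c` -/
noncomputable def polU {M : ℕ} (c : Fin (M + 1) → k) : k[X] := ∑ i, C (c i) * X ^ (i : ℕ)

theorem polU_coeff {M : ℕ} (c : Fin (M + 1) → k) (i : Fin (M + 1)) : (polU c).coeff i = c i := by
  unfold polU
  rw [finsetSum_coeff, Finset.sum_eq_single i]
  · rw [coeff_C_mul_X_pow, if_pos rfl]
  · intro j _ hj
    rw [coeff_C_mul_X_pow, if_neg]
    intro h
    exact hj (Fin.ext h.symm)
  · intro h
    exact absurd (Finset.mem_univ _) h

theorem polU_coeff_mem {A : Type v} [Semiring A] (φ : k →+* A) (S : Subsemiring A) {M : ℕ}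
    {c : Fin (M + 1) → k} (h : ∀ i, φ (c i) ∈ S) (i : ℕ) : φ ((polU c).coeff i) ∈ S := by
  unfold polU
  rw [finsetSum_coeff, map_sum]
  refine S.sum_mem fun j _ => ?_
  rw [coeff_C_mul_X_pow]
  split_ifs
  · exact h j
  · rw [map_zero]
    exact S.zero_mem

theorem polU_natDegree_le {M : ℕ} (c : Fin (M + 1) → k) : (polU c).natDegree ≤ M := by
  unfold polU
  refine natDegree_sum_le_of_forall_le _ _ fun i _ => ?_
  exact (natDegree_C_mul_X_pow_le _ _).trans (Nat.lt_succ_iff.1 i.2)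

theorem polU_natDegree {M : ℕ} {c : Fin (M + 1) → k} (h : c (Fin.last M) ≠ 0) :
    (polU c).natDegree = M := by
  refine le_antisymm (polU_natDegree_le c) (le_natDegree_of_ne_zero ?_)
  have h1 := polU_coeff c (Fin.last M)
  rw [Fin.val_last] at h1
  rw [h1]
  exact h

theorem polU_leadingCoeff {M : ℕ} {c : Fin (M + 1) → k} (h : c (Fin.last M) ≠ 0) :
    (polU c).leadingCoeff = c (Fin.last M) := by
  rw [leadingCoeff, polU_natDegree h]
  exact polU_coeff c (Fin.last M)

theorem polX_eq {M : ℕ} (c : Fin (M + 1) → k) :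
    polX c = aeval (MvPolynomial.X 0 : MvPolynomial (Fin 2) k) (polU c) := by
  unfold polX polU
  rw [map_sum]
  refine Finset.sum_congr rfl fun i _ => ?_
  rw [map_mul, map_pow, aeval_X, aeval_C]
  rfl

/-- the restriction to the line `y = 0` -/
noncomputable def toX (k : Type u) [Field k] : MvPolynomial (Fin 2) k →ₐ[k] k[X] :=
  MvPolynomial.aeval ![X, 0]

theorem toX_polX {M : ℕ} (c : Fin (M + 1) → k) : toX k (polX c) = polU c := by
  rw [polX_eq, ← aeval_algHom_apply]
  have h1 : toX k (MvPolynomial.X 0) = X := by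
    unfold toX
    rw [MvPolynomial.aeval_X]
    rfl
  rw [h1, aeval_X_left_apply]

theorem toX_pderiv_polX {M : ℕ} (c : Fin (M + 1) → k) :
    toX k (MvPolynomial.pderiv 0 (polX c)) = derivative (polU c) := by
  have h1 : toX k (MvPolynomial.X 0) = X := by
    unfold toX
    rw [MvPolynomial.aeval_X]
    rfl
  unfold polX polU
  rw [map_sum, map_sum, derivative_sum]
  refine Finset.sum_congr rfl fun i _ => ?_
  have h2 : toX k (MvPolynomial.C (c i)) = C (c i) := by
    unfold toX
    rw [MvPolynomial.aeval_C]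
    rfl
  rw [MvPolynomial.pderiv_C_mul, map_mul, h2, derivative_C_mul, Derivation.leibniz_pow,
    MvPolynomial.pderiv_X_self, derivative_X_pow]
  congr 1
  rw [smul_eq_mul, mul_one, nsmul_eq_mul, map_mul, map_pow, h1, map_natCast]
  rfl

/-- from the certificate with vectors -/
theorem discCert_of_vec {d M e M₁ : ℕ} {f : Mon d → k} {A B : Mon M₁ → k} {R U U' : Fin (M + 1) → k}
    (hlead : f (topY d) ≠ 0) (hM : 1 ≤ M) (hR : R (Fin.last M) ≠ 0)
    (hsep : polX U * polX R + polX U' * MvPolynomial.pderiv 0 (polX R) = 1)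
    (heq : pol A * pol f + pol B * MvPolynomial.pderiv 1 (pol f) = polX R ^ e) :
    DiscCert f (pol A) (pol B) (polU R) (polU U) (polU U') e := by
  refine ⟨hlead, ?_, ?_, ?_⟩
  · rw [polU_natDegree hR]
    exact hM
  · have h1 := congrArg (toX k) hsep
    rwa [map_add, map_mul, map_mul, toX_polX, toX_polX, toX_polX, toX_pderiv_polX, map_one] at h1
  · rw [← polX_eq]
    exact heq

theorem pol_coeff_mem {A : Type v} [Semiring A] (φ : k →+* A) (S : Subsemiring A) {n : ℕ}
    {g : Mon n → k} (h : ∀ q, φ (g q) ∈ S) (s : Fin 2 →₀ ℕ) : φ ((pol g).coeff s) ∈ S := by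
  classical
  rw [pol_eq, MvPolynomial.coeff_sum, map_sum]
  refine S.sum_mem fun q _ => ?_
  rw [MvPolynomial.coeff_monomial]
  split_ifs
  · exact h q
  · rw [map_zero]
    exact S.zero_mem

theorem discGood_of_vec {C : Type u} [Field C] [Algebra k C] {V : ValuationSubring C}
    {d M M₁ : ℕ} {f : Mon d → k} {B : Mon M₁ → k} {R U U' : Fin (M + 1) → k}
    (hR0 : R (Fin.last M) ≠ 0)
    (hf : ∀ q, algebraMap k C (f q) ∈ V) (hlead : (algebraMap k C (f (topY d)))⁻¹ ∈ V)
    (hB : ∀ q, algebraMap k C (B q) ∈ V) (hR : ∀ i, algebraMap k C (R i) ∈ V)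
    (hRl : (algebraMap k C (R (Fin.last M)))⁻¹ ∈ V) (hU : ∀ i, algebraMap k C (U i) ∈ V)
    (hU' : ∀ i, algebraMap k C (U' i) ∈ V) :
    DiscGood V f (pol B) (polU R) (polU U) (polU U') := by
  refine ⟨hf, hlead, pol_coeff_mem _ V.toSubring.toSubsemiring hB,
    polU_coeff_mem _ V.toSubring.toSubsemiring hR, ?_,
    polU_coeff_mem _ V.toSubring.toSubsemiring hU, polU_coeff_mem _ V.toSubring.toSubsemiring hU'⟩
  rw [polU_leadingCoeff hR0]
  exact hRl

theorem unitGood_of_vec {C : Type u} [Field C] {V : ValuationSubring C} {n M M' : ℕ}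
    {G : Mon n → C} {D : Mon M → C} {c : Fin (M' + 1) → C} (hG : ∀ q, G q ∈ V)
    (hD : ∀ q, D q ∈ V) (hc : ∃ l, c l ≠ 0 ∧ (c l)⁻¹ ∈ V) : UnitGood V G (pol D) (polU c) := by
  refine ⟨hG, fun s => ?_, ?_⟩
  · exact pol_coeff_mem (RingHom.id C) V.toSubring.toSubsemiring hD s
  · obtain ⟨l, h1, h2⟩ := hc
    refine ⟨l, ?_, ?_⟩
    · rw [polU_coeff]; exact h1
    · rw [polU_coeff]; exact h2

end conv

/-- transport of membership -/
theorem map_mem_adjoin {k A B : Type u} [Field k] [Field A] [Field B] [Algebra k A] [Algebra k B]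
    (e : A →ₐ[k] B) {S : Set A} {S' : Set B} (h : ∀ a ∈ S, e a ∈ S') {z : A}
    (hz : z ∈ IntermediateField.adjoin k S) : e z ∈ IntermediateField.adjoin k S' := by
  have h1 : IntermediateField.adjoin k S ≤ (IntermediateField.adjoin k S').comap e := by
    rw [IntermediateField.adjoin_le_iff]
    intro a ha
    exact IntermediateField.subset_adjoin k S' (h a ha)
  exact h1 hz

theorem comap_val_lt' {A B : Type u} [Field A] [Field B] (e : A ≃+* B) (V : ValuationSubring B)
    (w : A) : (V.comap (e : A →+* B)).valuation w < 1 ↔ V.valuation (e w) < 1 := by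
  rw [← ValuationSubring.mem_nonunits_iff, ← ValuationSubring.mem_nonunits_iff,
    ValuationSubring.mem_nonunits_iff_or, ValuationSubring.mem_nonunits_iff_or,
    ValuationSubring.mem_comap, map_inv₀]
  have h1 : ((e : A →+* B) w = 0) ↔ w = 0 := map_eq_zero _
  change (w = 0 ∨ (e w)⁻¹ ∉ V) ↔ (e w = 0 ∨ (e w)⁻¹ ∉ V)
  rw [map_eq_zero]

private theorem exists_lev_plane_aux {k₁ k : Type u} [Field k₁] [CharZero k₁] [Field k] [Algebra k₁ k]
    (hF₁ : ∃ S : Finset k₁, Subfield.closure (S : Set k₁) = ⊤)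
    (t : k) (hfin : FiniteDimensional (IntermediateField.adjoin k₁ {t}) k)
    {p d r n M : ℕ} (hp : p ≠ 0) (hd : d = p * r) (hnM : n ≤ M)
    {K' : Type u} [Field K'] [Algebra k K'] [Algebra k₁ K'] [IsScalarTower k₁ k K'] {x' y' : K'}
    (hx' : Transcendental k x') (hgen : IntermediateField.adjoin k {x', y'} = ⊤)
    {f : Mon d → k} (hxy' : MvPolynomial.aeval ![x', y'] (pol f) = 0)
    (s' : GaloisSection k K')
    {C : Type u} [Field C] [Algebra k C] [IsAlgClosure k C]
    {G : Fin d → Mon n → C} {W : Mon (r * n) → C} {nH : ℕ} {H : Mon nH → C} {T : k} (hT : T ≠ 0)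
    (hprod : ∏ i, pol (G i) = MvPolynomial.C (algebraMap k C T) * pol W ^ p +
      pol H * pol (fun q => algebraMap k C (f q)))
    (hcop : ∀ i j, i ≠ j → Cop (G i) (G j) (fun q => algebraMap k C (f q)) M)
    {M₂ M₃ : ℕ} {D D' : Fin d → Mon M₂ → C} {c : Fin d → Fin (M₃ + 1) → C} (hc0 : ∀ i, c i ≠ 0)
    (hnrm : ∀ i, pol (D i) * pol (G i) + pol (D' i) * pol (fun q => algebraMap k C (f q)) =
      polX (c i)) :
    ∃ z : Fin d → Fin d → C,
      (∀ i j, i ≠ j → z i j ≠ 0) ∧
      (∀ i j, i ≠ j → z i j ^ p ∈ IntermediateField.adjoin k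
        (mu C p ∪ (Set.range (G i) ∪ Set.range (G j)))) ∧
      (∀ (σ : C ≃ₐ[k] C) (i j i' j' : Fin d), i ≠ j → i' ≠ j' → (∀ q, σ (G i q) = G i' q) →
        (∀ q, σ (G j q) = G j' q) → σ (z i j) / z i' j' ∈ IntermediateField.adjoin k
          (mu C p ∪ (Set.range (G i') ∪ Set.range (G j')))) ∧
      (∀ i j l, i ≠ j → j ≠ l → i ≠ l → z i j * z j l / z i l ∈ IntermediateField.adjoin k
        (mu C p ∪ (Set.range (G i) ∪ Set.range (G j) ∪ Set.range (G l)))) ∧
      (∀ α : C, α ^ p = algebraMap k C T → ∀ i, α / ∏ j ∈ Finset.univ.erase i, z j i ∈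
        IntermediateField.adjoin k (mu C p ∪ ((⋃ j, Set.range (G j)) ∪ Set.range W))) ∧
      ∀ {M₁ e N : ℕ} {A B : Mon M₁ → k} {R U U' : Fin (N + 1) → k}, f (topY d) ≠ 0 → 1 ≤ N →
        R (Fin.last N) ≠ 0 → polX U * polX R + polX U' * MvPolynomial.pderiv 0 (polX R) = 1 →
        pol A * pol f + pol B * MvPolynomial.pderiv 1 (pol f) = polX R ^ e →
        ∀ V : ValuationSubring C, V ≠ ⊤ → (∀ a : k₁, algebraMap k C (algebraMap k₁ k a) ∈ V) →
        (∀ q, algebraMap k C (f q) ∈ V) → (algebraMap k C (f (topY d)))⁻¹ ∈ V →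
        (∀ q, algebraMap k C (B q) ∈ V) → (∀ i, algebraMap k C (R i) ∈ V) →
        (algebraMap k C (R (Fin.last N)))⁻¹ ∈ V → (∀ i, algebraMap k C (U i) ∈ V) →
        (∀ i, algebraMap k C (U' i) ∈ V) →
        ∀ i j, i ≠ j → (∀ q, G i q ∈ V) → (∀ q, G j q ∈ V) → (∀ q, D i q ∈ V) → (∀ q, D j q ∈ V) →
        (∃ l, c i l ≠ 0 ∧ (c i l)⁻¹ ∈ V) → (∃ l, c j l ≠ 0 ∧ (c j l)⁻¹ ∈ V) →
        ∀ σ : C ≃+* C, Inert (algebraMap k C).fieldRange V σ → (∀ q, σ (G i q) = G i q) →
          (∀ q, σ (G j q) = G j q) → σ (z i j) = z i j := by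
  classical
  have hk0 : CharZero k := charZero_of_injective_algebraMap (algebraMap k₁ k).injective
  -- the transport
  have hC1 : IsAlgClosed C := IsAlgClosure.isAlgClosed k
  have hC3 : CharZero C := charZero_of_injective_algebraMap (algebraMap k C).injective
  have hK1 : IsAlgClosure k (kbar k K') := ⟨inferInstance, inferInstance⟩
  let e : kbar k K' ≃ₐ[k] C := IsAlgClosure.equiv k (kbar k K') C
  let e' : C ≃ₐ[k] kbar k K' := e.symm
  have hee' : ∀ w, e (e' w) = w := fun w => e.apply_symm_apply w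
  have he'e : ∀ w, e' (e w) = w := fun w => e.symm_apply_apply w
  let G' : Fin d → Mon n → kbar k K' := fun i q => e' (G i q)
  let W' : Mon (r * n) → kbar k K' := fun q => e' (W q)
  let H' : Mon nH → kbar k K' := fun q => e' (H q)
  let D1 : Fin d → Mon M₂ → kbar k K' := fun i q => e' (D i q)
  let D1' : Fin d → Mon M₂ → kbar k K' := fun i q => e' (D' i q)
  let c' : Fin d → Fin (M₃ + 1) → kbar k K' := fun i q => e' (c i q)
  let T' : kbar k K' := algebraMap k (kbar k K') T
  let f' : Mon d → kbar k K' := fun q => algebraMap k (kbar k K') (f q)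
  have hf' : (fun q => e' (algebraMap k C (f q))) = f' := by
    funext q
    exact e'.commutes (f q)
  let φ : C →+* kbar k K' := (e' : C →+* kbar k K')
  have hφ : ∀ w, φ w = e' w := fun _ => rfl
  have hprod' : ∏ i, pol (G' i) = MvPolynomial.C T' * pol W' ^ p + pol H' * pol f' := by
    have h1 := congrArg (MvPolynomial.map φ) hprod
    rw [map_prod, map_add, map_mul, map_mul, map_pow, MvPolynomial.map_C, map_pol, map_pol,
      map_pol] at h1
    simp only [map_pol, hφ] at h1
    rw [e'.commutes, hf'] at h1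
    exact h1
  have hcop' : ∀ i j, i ≠ j → Cop (G' i) (G' j) f' M := by
    intro i j hij q
    obtain ⟨A, B, D, h⟩ := hcop i j hij q
    refine ⟨fun q => e' (A q), fun q => e' (B q), fun q => e' (D q), ?_⟩
    have h1 := congrArg (MvPolynomial.map φ) h
    rw [map_add, map_add, map_mul, map_mul, map_mul, map_mono] at h1
    simp only [map_pol, hφ] at h1
    rw [hf'] at h1
    exact h1
  have hnrm' : ∀ i, pol (D1 i) * pol (G' i) + pol (D1' i) * pol f' =
      aeval (MvPolynomial.X 0 : MvPolynomial (Fin 2) (kbar k K')) (polU (c' i)) := by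
    intro i
    have h1 := congrArg (MvPolynomial.map φ) (hnrm i)
    rw [map_add, map_mul, map_mul] at h1
    simp only [map_pol, hφ] at h1
    rw [hf'] at h1
    rw [h1, ← polX_eq]
    unfold polX
    rw [map_sum]
    refine Finset.sum_congr rfl fun j _ => ?_
    rw [map_mul, map_pow, MvPolynomial.map_C, MvPolynomial.map_X]
    rfl
  have hfev : evP x' y' (pol f') = 0 := by
    unfold evP
    rw [aeval_pol]
    have h1 := congrArg (algebraMap K' (AlgebraicClosure K')) hxy'
    rw [aeval_pol, map_sum, map_zero] at h1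
    rw [← h1]
    refine Finset.sum_congr rfl fun q _ => ?_
    rw [map_mul, map_mul, map_pow, map_pow, ← IsScalarTower.algebraMap_apply k K']
    rfl
  -- `G (x, y) ≠ 0`
  have hG0 : ∀ i, evP x' y' (pol (G' i)) ≠ 0 := by
    intro i h0
    have h1 := congrArg (evP x' y') (hnrm' i)
    rw [map_add, map_mul, map_mul, h0, hfev, mul_zero, mul_zero, add_zero] at h1
    have h2 : evP x' y' (aeval (MvPolynomial.X 0 : MvPolynomial (Fin 2) (kbar k K')) (polU (c' i))) =
        aeval (algebraMap K' (AlgebraicClosure K') x') (polU (c' i)) := by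
      rw [← aeval_algHom_apply]
      unfold evP
      rw [MvPolynomial.aeval_X]
      rfl
    rw [h2] at h1
    have h3 : Transcendental (kbar k K') (algebraMap K' (AlgebraicClosure K') x') := by
      intro h
      have h4 : IsAlgebraic k (algebraMap K' (AlgebraicClosure K') x') := h.restrictScalars k
      exact hx' ((isAlgebraic_algebraMap_iff (algebraMap K' (AlgebraicClosure K')).injective).1 h4)
    have h4 := (transcendental_iff.1 h3) (polU (c' i)) h1.symm
    apply hc0 i
    funext l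
    have h5 := congrArg (fun q => Polynomial.coeff q l) h4
    simp only [polU_coeff, coeff_zero] at h5
    have h6 : e' (c i l) = 0 := h5
    exact (map_eq_zero e').1 h6
  -- the roots
  have hexu : ∀ i, ∃ u : AlgebraicClosure K', u ^ p = evP x' y' (pol (G' i)) := fun i =>
    IsAlgClosed.exists_pow_nat_eq _ (Nat.pos_of_ne_zero hp)
  choose u hu using hexu
  have hu0 : ∀ i, u i ≠ 0 := by
    intro i h
    apply hG0 i
    rw [← hu, h, zero_pow hp]
  have hT' : T' ≠ 0 := (_root_.map_ne_zero _).2 hT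
  have hKur : ∀ i j, i ≠ j → u i / u j ∈ Kur k K' := by
    intro i j hij
    refine root_mem_Kur (Nat.pos_of_ne_zero hp) hd hnM hfev hT' hprod' hcop' hG0 hij ?_
    change (u i / u j) ^ p * evP x' y' (pol (G' j)) = evP x' y' (pol (G' i))
    rw [div_pow, hu, hu, div_mul_cancel₀ _ (hG0 j)]
  obtain ⟨z, hz⟩ := exists_z s' hp hu hu0 hKur
  -- images of the generators
  have himG : ∀ i q, e (G' i q) = G i q := fun i q => hee' _
  have himμ : ∀ ξ ∈ mu (kbar k K') p, e ξ ∈ mu C p := by
    intro ξ hξ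
    change e ξ ^ p = 1
    rw [← map_pow, hξ, map_one]
  -- automorphisms
  have haut : ∀ σ : C ≃ₐ[k] C, ∃ τ : Gk k K', ∀ w, e (τ w) = σ (e w) := by
    intro σ
    refine ⟨(e.trans σ).trans e.symm, fun w => ?_⟩
    change e (e.symm (σ (e w))) = _
    rw [AlgEquiv.apply_symm_apply]
  refine ⟨fun i j => e (z i j), ?_, ?_, ?_, ?_, ?_, ?_⟩
  · intro i j hij h0
    exact (hz i j hij).1 ((map_eq_zero e).1 h0)
  · intro i j hij
    change e (z i j) ^ p ∈ _
    rw [← map_pow]
    refine map_mem_adjoin (e : kbar k K' →ₐ[k] C) ?_ (z_pow s' hu hu0 hz hij)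
    rintro a (ha | ⟨q, rfl⟩ | ⟨q, rfl⟩)
    · exact Or.inl (himμ a ha)
    · exact Or.inr (Or.inl ⟨q, (himG i q).symm⟩)
    · exact Or.inr (Or.inr ⟨q, (himG j q).symm⟩)
  · intro σ i j i' j' hij hij' hi hj
    obtain ⟨τ, hτ⟩ := haut σ
    change σ (e (z i j)) / e (z i' j') ∈ _
    rw [← hτ, ← map_div₀]
    refine map_mem_adjoin (e : kbar k K' →ₐ[k] C) ?_ (z_equi s' hp hu hu0 hz hij hij'
      (τ := τ) ?_ ?_)
    · rintro a (ha | ⟨q, rfl⟩ | ⟨q, rfl⟩)
      · exact Or.inl (himμ a ha)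
      · exact Or.inr (Or.inl ⟨q, (himG i' q).symm⟩)
      · exact Or.inr (Or.inr ⟨q, (himG j' q).symm⟩)
    · intro q
      apply e.injective
      rw [hτ, himG, himG, hi]
    · intro q
      apply e.injective
      rw [hτ, himG, himG, hj]
  · intro i j l hij hjl hil
    change e (z i j) * e (z j l) / e (z i l) ∈ _
    rw [← map_mul, ← map_div₀]
    refine map_mem_adjoin (e : kbar k K' →ₐ[k] C) ?_ (z_coc s' hu0 hz hij hjl hil)
    rintro a (ha | (⟨q, rfl⟩ | ⟨q, rfl⟩) | ⟨q, rfl⟩)
    · exact Or.inl (himμ a ha)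
    · exact Or.inr (Or.inl (Or.inl ⟨q, (himG i q).symm⟩))
    · exact Or.inr (Or.inl (Or.inr ⟨q, (himG j q).symm⟩))
    · exact Or.inr (Or.inr ⟨q, (himG l q).symm⟩)
  · intro α hα i
    have h1 : e' α ^ p = T' := by
      rw [← map_pow, hα]
      exact e'.commutes T
    have h2 := z_prod s' hp hd hu hu0 hz hfev hprod' h1 i
    have h3 : α / ∏ j ∈ Finset.univ.erase i, e (z j i) =
        (e : kbar k K' →ₐ[k] C) (e' α / ∏ j ∈ Finset.univ.erase i, z j i) := by
      change _ = e (e' α / ∏ j ∈ Finset.univ.erase i, z j i)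
      rw [map_div₀, map_prod, hee']
    change α / ∏ j ∈ Finset.univ.erase i, e (z j i) ∈ _
    rw [h3]
    refine map_mem_adjoin (e : kbar k K' →ₐ[k] C) ?_ h2
    rintro a (ha | ha | ⟨q, rfl⟩)
    · exact Or.inl (himμ a ha)
    · obtain ⟨j, q, rfl⟩ := Set.mem_iUnion.1 ha
      exact Or.inr (Or.inl (Set.mem_iUnion.2 ⟨j, q, (himG j q).symm⟩))
    · exact Or.inr (Or.inr ⟨q, (hee' _).symm⟩)
  · intro M₁ e₀ N A B R U U' hlead hN hR0 hsep heq V hV hk₁V hfV hleadV hBV hRV hRlV hUV hU'V i j hij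
      hGi hGj hDi hDj hci hcj σ hσ hσi hσj
    let σ' : C ≃ₐ[k] C := AlgEquiv.ofRingEquiv (f := σ) (fun a => hσ.fix _ ⟨a, rfl⟩)
    obtain ⟨τ, hτ⟩ := haut σ'
    replace hτ : ∀ w, e (τ w) = σ (e w) := hτ
    set V' : ValuationSubring (kbar k K') := V.comap ((e : kbar k K' ≃+* C) : kbar k K' →+* C)
      with hV'
    have hmem : ∀ w : kbar k K', w ∈ V' ↔ e w ∈ V := fun w => Iff.rfl
    have hlt : ∀ w : kbar k K', V'.valuation w < 1 ↔ V.valuation (e w) < 1 := fun w =>
      comap_val_lt' (e : kbar k K' ≃+* C) V w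
    have hVtop : V' ≠ ⊤ := by
      intro h
      apply hV
      rw [eq_top_iff]
      intro w _
      have h1 : e' w ∈ V' := by rw [h]; trivial
      rwa [hmem, hee'] at h1
    have hcert := discCert_of_vec (A := A) (B := B) hlead hN hR0 hsep heq
    have hgood : DiscGood V' f (pol B) (polU R) (polU U) (polU U') := by
      have hcom : ∀ a : k, algebraMap k (kbar k K') a ∈ V' ↔ algebraMap k C a ∈ V := by
        intro a
        rw [hmem, e.commutes]
      have hcomi : ∀ a : k, (algebraMap k (kbar k K') a)⁻¹ ∈ V' ↔ (algebraMap k C a)⁻¹ ∈ V := by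
        intro a
        rw [hmem, map_inv₀, e.commutes]
      exact discGood_of_vec hR0 (fun q => (hcom _).2 (hfV q)) ((hcomi _).2 hleadV)
        (fun q => (hcom _).2 (hBV q)) (fun i => (hcom _).2 (hRV i)) ((hcomi _).2 hRlV)
        (fun i => (hcom _).2 (hUV i)) (fun i => (hcom _).2 (hU'V i))
    have hug : ∀ i, (∀ q, G i q ∈ V) → (∀ q, D i q ∈ V) → (∃ l, c i l ≠ 0 ∧ (c i l)⁻¹ ∈ V) →
        UnitGood V' (G' i) (pol (D1 i)) (polU (c' i)) := by
      intro i h1 h2 h3
      refine unitGood_of_vec (fun q => ?_) (fun q => ?_) ?_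
      · rw [hmem, himG]; exact h1 q
      · change e' (D i q) ∈ V'
        rw [hmem, hee']; exact h2 q
      · obtain ⟨l, h4, h5⟩ := h3
        refine ⟨l, ?_, ?_⟩
        · intro h6
          exact h4 ((map_eq_zero e').1 h6)
        · change (e' (c i l))⁻¹ ∈ V'
          rw [hmem, map_inv₀, hee']
          exact h5
    have hk₁V' : ∀ a : k₁, algebraMap k₁ (kbar k K') a ∈ V' := by
      intro a
      rw [hmem]
      have h1 : algebraMap k₁ (kbar k K') a = algebraMap k (kbar k K') (algebraMap k₁ k a) :=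
        IsScalarTower.algebraMap_apply k₁ k (kbar k K') a
      rw [h1, e.commutes]
      exact hk₁V a
    have hin : InInert V' τ := by
      refine ⟨fun w => ?_, fun w hw => ?_⟩
      · rw [hmem, hmem, hτ, hσ.dec]
      · rw [ValuationSubring.mem_nonunits_iff, hlt, map_sub, hτ]
        exact hσ.res _ hw
    have h1 := z_inert hF₁ t hfin hx' hgen hxy' hcert s' hp hu hu0 hKur hz hVtop hk₁V' hgood
      (D := fun i => pol (D1 i)) (D' := fun i => pol (D1' i)) (c := fun i => polU (c' i)) hnrm' hij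
      (hug i hGi hDi hci) (hug j hGj hDj hcj) hin (fun q => by
        apply e.injective
        rw [hτ, himG, hσi]) (fun q => by
        apply e.injective
        rw [hτ, himG, hσj])
    change σ (e (z i j)) = e (z i j)
    rw [← hτ, h1]


/-- **The constants attached to a Galois section of a plane curve.** -/
theorem exists_lev_plane {k₁ k : Type u} [Field k₁] [CharZero k₁] [Field k] [Algebra k₁ k]
    (hF₁ : ∃ S : Finset k₁, Subfield.closure (S : Set k₁) = ⊤)
    (t : k) (hfin : FiniteDimensional (IntermediateField.adjoin k₁ {t}) k)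
    {p d r n M : ℕ} (hp : p ≠ 0) (hd : d = p * r) (hnM : n ≤ M)
    {K : Type u} [Field K] [Algebra k K] {x y : K} (hx : Transcendental k x)
    {f : Mon d → k} (hxy : MvPolynomial.aeval ![x, y] (pol f) = 0)
    (s : GaloisSection k K)
    {C : Type u} [Field C] [Algebra k C] [IsAlgClosure k C]
    {G : Fin d → Mon n → C} {W : Mon (r * n) → C} {nH : ℕ} {H : Mon nH → C} {T : k} (hT : T ≠ 0)
    (hprod : ∏ i, pol (G i) = MvPolynomial.C (algebraMap k C T) * pol W ^ p +
      pol H * pol (fun q => algebraMap k C (f q)))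
    (hcop : ∀ i j, i ≠ j → Cop (G i) (G j) (fun q => algebraMap k C (f q)) M)
    {M₂ M₃ : ℕ} {D D' : Fin d → Mon M₂ → C} {c : Fin d → Fin (M₃ + 1) → C} (hc0 : ∀ i, c i ≠ 0)
    (hnrm : ∀ i, pol (D i) * pol (G i) + pol (D' i) * pol (fun q => algebraMap k C (f q)) =
      polX (c i)) :
    ∃ z : Fin d → Fin d → C,
      (∀ i j, i ≠ j → z i j ≠ 0) ∧
      (∀ i j, i ≠ j → z i j ^ p ∈ IntermediateField.adjoin k
        (mu C p ∪ (Set.range (G i) ∪ Set.range (G j)))) ∧
      (∀ (σ : C ≃ₐ[k] C) (i j i' j' : Fin d), i ≠ j → i' ≠ j' → (∀ q, σ (G i q) = G i' q) →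
        (∀ q, σ (G j q) = G j' q) → σ (z i j) / z i' j' ∈ IntermediateField.adjoin k
          (mu C p ∪ (Set.range (G i') ∪ Set.range (G j')))) ∧
      (∀ i j l, i ≠ j → j ≠ l → i ≠ l → z i j * z j l / z i l ∈ IntermediateField.adjoin k
        (mu C p ∪ (Set.range (G i) ∪ Set.range (G j) ∪ Set.range (G l)))) ∧
      (∀ α : C, α ^ p = algebraMap k C T → ∀ i, α / ∏ j ∈ Finset.univ.erase i, z j i ∈
        IntermediateField.adjoin k (mu C p ∪ ((⋃ j, Set.range (G j)) ∪ Set.range W))) ∧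
      ∀ {M₁ e N : ℕ} {A B : Mon M₁ → k} {R U U' : Fin (N + 1) → k}, f (topY d) ≠ 0 → 1 ≤ N →
        R (Fin.last N) ≠ 0 → polX U * polX R + polX U' * MvPolynomial.pderiv 0 (polX R) = 1 →
        pol A * pol f + pol B * MvPolynomial.pderiv 1 (pol f) = polX R ^ e →
        ∀ V : ValuationSubring C, V ≠ ⊤ → (∀ a : k₁, algebraMap k C (algebraMap k₁ k a) ∈ V) →
        (∀ q, algebraMap k C (f q) ∈ V) → (algebraMap k C (f (topY d)))⁻¹ ∈ V →
        (∀ q, algebraMap k C (B q) ∈ V) → (∀ i, algebraMap k C (R i) ∈ V) →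
        (algebraMap k C (R (Fin.last N)))⁻¹ ∈ V → (∀ i, algebraMap k C (U i) ∈ V) →
        (∀ i, algebraMap k C (U' i) ∈ V) →
        ∀ i j, i ≠ j → (∀ q, G i q ∈ V) → (∀ q, G j q ∈ V) → (∀ q, D i q ∈ V) → (∀ q, D j q ∈ V) →
        (∃ l, c i l ≠ 0 ∧ (c i l)⁻¹ ∈ V) → (∃ l, c j l ≠ 0 ∧ (c j l)⁻¹ ∈ V) →
        ∀ σ : C ≃+* C, Inert (algebraMap k C).fieldRange V σ → (∀ q, σ (G i q) = G i q) →
          (∀ q, σ (G j q) = G j q) → σ (z i j) = z i j := by
  classical
  have hk0 : CharZero k := charZero_of_injective_algebraMap (algebraMap k₁ k).injective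
  -- reduction to `K = k(x, y)`
  let K' : IntermediateField k K := IntermediateField.adjoin k {x, y}
  let x' : K' := ⟨x, IntermediateField.subset_adjoin k _ (Or.inl rfl)⟩
  let y' : K' := ⟨y, IntermediateField.subset_adjoin k _ (Or.inr rfl)⟩
  obtain ⟨s'⟩ : Nonempty (GaloisSection k K') := Pool.Agent.TW.push (K₁ := K') s
  have hx' : Transcendental k x' := by
    intro h
    exact hx (IsAlgebraic.algebraMap (A := K) h)
  have hxy' : MvPolynomial.aeval ![x', y'] (pol f) = 0 := by
    apply Subtype.ext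
    have h1 : ((MvPolynomial.aeval ![x', y'] (pol f) : K') : K) =
        MvPolynomial.aeval ![x, y] (pol f) := by
      rw [aeval_pol, aeval_pol]
      change K'.val _ = _
      rw [map_sum]
      rfl
    rw [h1, hxy]
    rfl
  have hgen : IntermediateField.adjoin k {x', y'} = ⊤ := by
    apply IntermediateField.map_injective K'.val
    rw [IntermediateField.adjoin_map, Set.image_pair, ← AlgHom.fieldRange_eq_map,
      IntermediateField.fieldRange_val]
    rfl
  let i1 : Algebra k₁ K' := ((algebraMap k K').comp (algebraMap k₁ k)).toAlgebra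
  have i2 : IsScalarTower k₁ k K' := IsScalarTower.of_algebraMap_eq fun _ => rfl
  exact exists_lev_plane_aux hF₁ t hfin hp hd hnM hx' hgen hxy' s' hT hprod hcop hc0 hnrm

end Pool.Agent.PL
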