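import Pool.Agent.Helper13.PL.L3

/-!
# Project PLANE, block L: inertia at good places fixes `(A / B) ^ (1 / p)`, one pair
-/

universe u v

set_option linter.unusedSectionVars false

namespace Pool.Agent.PL

open Polynomial Pool.Agent.PC Pool.Agent.Helper91.Sect Pool.Agent.LT Pool.Agent.GC Pool.Agent.SC

/-- certificates over larger fields -/
theorem DiscCert.map {k k' : Type u} [Field k] [Field k'] (ι : k →+* k') {d : ℕ} {f : Mon d → k}
    {A B : MvPolynomial (Fin 2) k} {R U U' : k[X]} {e : ℕ} (h : DiscCert f A B R U U' e) :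
    DiscCert (fun q => ι (f q)) (MvPolynomial.map ι A) (MvPolynomial.map ι B) (R.map ι) (U.map ι)
      (U'.map ι) e := by
  refine ⟨(_root_.map_ne_zero ι).2 h.lead, ?_, ?_, ?_⟩
  · rw [natDegree_map]
    exact h.deg
  · rw [← Polynomial.map_mul, derivative_map, ← Polynomial.map_mul, ← Polynomial.map_add, h.sep,
      Polynomial.map_one]
  · have h1 := congrArg (MvPolynomial.map ι) h.eq
    rw [map_add, map_mul, map_mul, map_pow] at h1
    have h2 : MvPolynomial.map ι (pol f) = pol (fun q => ι (f q)) := by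
      unfold pol mono
      rw [map_sum]
      refine Finset.sum_congr rfl fun q _ => ?_
      rw [map_mul, map_mul, map_pow, map_pow, MvPolynomial.map_C, MvPolynomial.map_X,
        MvPolynomial.map_X]
    have h3 : MvPolynomial.map ι (aeval (MvPolynomial.X 0 : MvPolynomial (Fin 2) k) R) =
        aeval (MvPolynomial.X 0 : MvPolynomial (Fin 2) k') (R.map ι) := by
      rw [aeval_def, aeval_def, hom_eval₂, MvPolynomial.map_X, eval₂_map]
      congr 1
      refine RingHom.ext fun a => ?_
      change MvPolynomial.map ι (MvPolynomial.C a) = MvPolynomial.C (ι a)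
      rw [MvPolynomial.map_C]
    rw [h2, h3, ← MvPolynomial.pderiv_map, h2] at h1
    exact h1

section

variable {k₁ k K : Type u} [Field k₁] [CharZero k₁] [Field k] [Field K]
  [Algebra k₁ k] [Algebra k K] [Algebra k₁ K] [IsScalarTower k₁ k K]

/-- **Inertia at good places fixes `(A / B) ^ (1 / p)`.** -/
theorem root_inert (hF₁ : ∃ S : Finset k₁, Subfield.closure (S : Set k₁) = ⊤)
    (t : k) (hfin : FiniteDimensional (IntermediateField.adjoin k₁ {t}) k)
    {x y : K} (hx : Transcendental k x) (hgen : IntermediateField.adjoin k {x, y} = ⊤)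
    {d : ℕ} {f : Mon d → k} (hxy : MvPolynomial.aeval ![x, y] (pol f) = 0)
    {A₀ B₀ : MvPolynomial (Fin 2) k} {R U U' : k[X]} {e : ℕ} (hcert : DiscCert f A₀ B₀ R U U' e)
    (s : GaloisSection k K) {p n n' : ℕ} (hp : p ≠ 0)
    {W : ValuationSubring (kbar k K)} (hW : W ≠ ⊤)
    (hk₁ : ∀ c : k₁, algebraMap k₁ (kbar k K) c ∈ W)
    (hgood : DiscGood W f B₀ R U U')
    {A : Mon n → kbar k K} {B : Mon n' → kbar k K} {D D' E E' : MvPolynomial (Fin 2) (kbar k K)}
    {c c' : (kbar k K)[X]}
    (hA : D * pol A + D' * pol (fun q => algebraMap k (kbar k K) (f q)) =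
      aeval (MvPolynomial.X 0) c)
    (hB : E * pol B + E' * pol (fun q => algebraMap k (kbar k K) (f q)) =
      aeval (MvPolynomial.X 0) c')
    (gA : UnitGood W A D c) (gB : UnitGood W B E c')
    {w : AlgebraicClosure K} (hwK : w ∈ Kur k K)
    (hw : w ^ p * evP x y (pol B) = evP x y (pol A))
    {τ : Gk k K} (hτ : InInert W τ) (hτA : ∀ q, τ (A q) = A q) (hτB : ∀ q, τ (B q) = B q)
    {ρ : AlgebraicClosure K ≃ₐ[K] AlgebraicClosure K} (hρ : ∀ w : Kur k K, ρ w = s.toHom τ w) :
    ρ w = w := by
  classical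
  have hk0 : CharZero k := charZero_of_injective_algebraMap (algebraMap k₁ k).injective
  have hkb0 : CharZero (kbar k K) :=
    charZero_of_injective_algebraMap (algebraMap k (kbar k K)).injective
  have hU0 : CharZero (UU k K) :=
    charZero_of_injective_algebraMap (algebraMap (kbar k K) (UU k K)).injective
  have hac : IsAlgClosed (algebraicClosure k₁ (kbar k K)) :=
    (inferInstance : IsAlgClosure k₁ (algebraicClosure k₁ (kbar k K))).isAlgClosed
  have hres : CharZero (IsLocalRing.ResidueField W) := by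
    let φ : k₁ →+* W := (algebraMap k₁ (kbar k K)).codRestrict W.toSubring hk₁
    exact charZero_of_injective_ringHom ((IsLocalRing.residue W).comp φ).injective
  have hpinv : (p : kbar k K)⁻¹ ∈ W := by
    have h1 := hk₁ ((p : k₁)⁻¹)
    rwa [map_inv₀, map_natCast] at h1
  -- the valuation ring of `UU`
  obtain ⟨t', hb⟩ := exists_base' (K := K) t hfin hW hk₁
  obtain ⟨V, hV⟩ := exists_gauss (N := UU k K) hb (transcendental_toU hx)
  -- the monic polynomial
  have hWF : ∀ i j, algebraMap k (kbar k K) (((monF f).coeff i).coeff j) ∈ W := by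
    intro i j
    unfold monF
    rw [coeff_C_mul, coeff_C_mul, map_mul, map_inv₀]
    exact W.mul_mem _ _ hgood.lead (toXY_pol_coeff_mem _ W.toSubring.toSubsemiring hgood.f_mem i j)
  have hWB : ∀ i j, algebraMap k (kbar k K)
      (((C (C (f (topY d))) * toXY k B₀).coeff i).coeff j) ∈ W := by
    intro i j
    rw [coeff_C_mul, coeff_C_mul, map_mul]
    exact W.mul_mem _ _ (hgood.f_mem _)
      (toXY_coeff_mem _ W.toSubring.toSubsemiring hgood.B_mem i j)
  have hWQ : ∀ i, algebraMap k (kbar k K) ((1 : k[X]).coeff i) ∈ W := by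
    intro i
    rw [coeff_one]
    split_ifs
    · rw [map_one]; exact W.one_mem
    · rw [map_zero]; exact W.zero_mem
  have hRsep : R.Separable := ⟨U, U', hcert.sep⟩
  have hy : toU (k := k) (K := K) y ∈ V := y_mem hV (monF_monic hcert.lead) (monF_root hxy) hWF
  -- the root
  have hwU : w ∈ UU k K := (mem_UU k K).2 hwK
  set w₁ : UU k K := ⟨w, hwU⟩ with hw₁
  have hvA := val_eq_one hb hV hy hxy hA gA
  have hvB := val_eq_one hb hV hy hxy hB gB
  have hwp : w₁ ^ p * MvPolynomial.aeval ![toU (k := k) (K := K) x, toU (k := k) (K := K) y] (pol B) =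
      MvPolynomial.aeval ![toU (k := k) (K := K) x, toU (k := k) (K := K) y] (pol A) := by
    apply Subtype.ext
    change w ^ p * ((MvPolynomial.aeval ![toU (k := k) (K := K) x, toU (k := k) (K := K) y] (pol B) :
      UU k K) : AlgebraicClosure K) = _
    rw [coe_aeval_UU, coe_aeval_UU, hw]
  have hwv : V.valuation w₁ = 1 := by
    have h1 := congrArg V.valuation hwp
    rw [map_mul, map_pow, hvA, hvB, mul_one] at h1
    exact (pow_eq_one_iff_of_nonneg zero_le hp).1 h1
  have hwV : w₁ ∈ V := (V.valuation_le_one_iff _).1 hwv.le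
  have hgr : GoodRed W R := goodRed_of_cert hres hcert.deg hcert.sep hgood.R_mem hgood.R_lead
    hgood.U_mem hgood.U'_mem
  have h1 := inert_trivial_plane hF₁ t hfin hx hgen (monF_monic hcert.lead) (monF_root hxy)
    (monF_cert hcert) (mul_one (R ^ e)) hcert.deg hRsep s hW hk₁ hgr hWF hWB hWQ hV hτ hwV
  have hw0 : w₁ ≠ 0 := by
    intro h
    rw [h, map_zero] at hwv
    exact zero_ne_one hwv
  have hB0 : evP x y (pol B) ≠ 0 := by
    intro h
    rw [← coe_aeval_UU] at h
    have h2 : (MvPolynomial.aeval ![toU (k := k) (K := K) x, toU (k := k) (K := K) y] (pol B) : UU k K) = 0 :=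
      Subtype.ext h
    rw [h2, map_zero] at hvB
    exact zero_ne_one hvB
  -- the action
  have hact : ((actU s τ w₁ : UU k K) : AlgebraicClosure K) = ρ w := by
    rw [coe_actU, ← hρ]
  have hpow : (ρ w) ^ p = w ^ p := by
    have h2 := congrArg ρ hw
    rw [map_mul, map_pow, ext_pol s hρ, ext_pol s hρ] at h2
    simp only [hτA, hτB] at h2
    exact mul_right_cancel₀ hB0 (h2.trans hw.symm)
  have hζ : (actU s τ w₁ / w₁) ^ p = 1 := by
    rw [div_pow]
    have h2 : (actU s τ w₁) ^ p = w₁ ^ p := by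
      apply Subtype.ext
      change ((actU s τ w₁ : UU k K) : AlgebraicClosure K) ^ p = w ^ p
      rw [hact, hpow]
    rw [h2]
    exact div_self (pow_ne_zero _ hw0)
  have h3 : V.valuation (actU s τ w₁ / w₁ - 1) < 1 := by
    have h4 : actU s τ w₁ / w₁ - 1 = (actU s τ w₁ - w₁) / w₁ := by field_simp
    rw [h4, map_div₀, hwv, div_one]
    exact (V.mem_nonunits_iff).1 h1
  have hpV : (p : UU k K)⁻¹ ∈ V := by
    have h4 := (hV.mem_iff _).2 hpinv
    rwa [map_inv₀, map_natCast] at h4
  have h4 := mu_eq_one hpV (Nat.cast_ne_zero.2 hp) hζ h3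
  rw [div_eq_one_iff_eq hw0] at h4
  rw [← hact, h4]

end

end Pool.Agent.PL
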