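import Pool.Agent.Helper10.RR.TrW
import Pool.Agent.Helper10.UL.ChoiceW
import Pool.Agent.Helper10.UL.Restrict
import Pool.Agent.Helper10.UL.Reindex
import Pool.Agent.Helper10.UL.Shift
import Pool.Agent.Helper10.UL.ThinOne

/-!
# Project PLANE, final assembly: reductions

Vectors of coefficients in a linear system, indexed by an arbitrary finite type `I`.
-/

universe u v

namespace Pool.Agent.PL

open Polynomial UL IntermediateField

/-- The vector of the coefficients `∑ e, a (q, e) w e`. -/
noncomputable def sysW {F k : Type u} [Field F] [Field k] [Algebra F k] {I : Type} {m : ℕ}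
    (w : Fin (m + 1) → k) (a : I × Fin (m + 1) → F) : I → k :=
  fun q => ∑ e : Fin (m + 1), algebraMap F k (a (q, e)) * w e

section

variable {R : Type*} [CommRing R] {I : Type} {m : ℕ}

/-- the substitution -/
def subI (o : Fin (m + 1)) (c : R) (a : I × Fin (m + 1) → R)
    (q : I × Fin (m + 1)) : R :=
  if q.2 = 0 then a q + c * a (q.1, o) else a q

end

section

variable {F : Type u} [Field F] {I : Type} {m : ℕ}

/-- the substitution for polynomials -/
noncomputable def subIHom (I : Type) (m : ℕ) (o : Fin (m + 1)) (c : F) :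
    MvPolynomial (I × Fin (m + 1)) F →ₐ[F] MvPolynomial (I × Fin (m + 1)) F :=
  MvPolynomial.aeval (subI o (MvPolynomial.C c) (fun q => MvPolynomial.X q))

lemma subIHom_comp (o : Fin (m + 1)) (ho : o ≠ 0) (c : F) :
    (subIHom I m o c).comp (subIHom I m o (-c)) = AlgHom.id F _ := by
  apply MvPolynomial.algHom_ext
  intro q
  rw [AlgHom.comp_apply]
  unfold subIHom
  rw [MvPolynomial.aeval_X]
  unfold subI
  by_cases hq : q.2 = 0
  · rw [if_pos hq]
    rw [map_add, map_mul, MvPolynomial.aeval_X, MvPolynomial.aeval_X, MvPolynomial.aeval_C,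
      if_pos hq, if_neg ho, AlgHom.id_apply, MvPolynomial.algebraMap_eq, MvPolynomial.C_neg]
    ring
  · rw [if_neg hq, MvPolynomial.aeval_X, if_neg hq, AlgHom.id_apply]

/-- the substitution is an automorphism -/
noncomputable def subIE (I : Type) (m : ℕ) (o : Fin (m + 1)) (ho : o ≠ 0) (c : F) :
    MvPolynomial (I × Fin (m + 1)) F ≃ₐ[F] MvPolynomial (I × Fin (m + 1)) F :=
  AlgEquiv.ofAlgHom (subIHom I m o c) (subIHom I m o (-c)) (subIHom_comp o ho c) (by
    have h := subIHom_comp (I := I) o ho (-c)
    rwa [neg_neg] at h)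

lemma eval_subIE (o : Fin (m + 1)) (ho : o ≠ 0) (c : F) (a : I × Fin (m + 1) → F)
    (Ψ : MvPolynomial (I × Fin (m + 1)) F) :
    MvPolynomial.eval a (subIE I m o ho c Ψ) = MvPolynomial.eval (subI o c a) Ψ := by
  have h : ((MvPolynomial.aeval a : MvPolynomial (I × Fin (m + 1)) F →ₐ[F] F)).comp
      (subIHom I m o c) = MvPolynomial.aeval (subI o c a) := by
    apply MvPolynomial.algHom_ext
    intro q
    rw [AlgHom.comp_apply]
    unfold subIHom
    rw [MvPolynomial.aeval_X, MvPolynomial.aeval_X]
    unfold subI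
    split_ifs
    · rw [map_add, map_mul, MvPolynomial.aeval_X, MvPolynomial.aeval_X, MvPolynomial.aeval_C]
      rfl
    · rw [MvPolynomial.aeval_X]
  have h2 := DFunLike.congr_fun h Ψ
  rw [AlgHom.comp_apply] at h2
  exact h2

theorem thin_subI {A : Set (I × Fin (m + 1) → F)} (hA : IsThin A) {o : Fin (m + 1)}
    (ho : o ≠ 0) (c : F) : IsThin {a | subI o c a ∈ A} :=
  hA.comap (subIE I m o ho c).toRingEquiv (subI o c) (fun a Ψ => eval_subIE o ho c a Ψ)

variable {k : Type u} [Field k] [Algebra F k]

/-- the system after the substitution -/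
theorem sysW_subst (w : Fin (m + 1) → k) {o : Fin (m + 1)} (ho : o ≠ 0) (c : F)
    (a : I × Fin (m + 1) → F) :
    sysW (fun e => if e = o then w e - algebraMap F k c * w 0 else w e) (subI o c a) =
      sysW w a := by
  classical
  unfold sysW
  funext i
  have h1 : ∀ e : Fin (m + 1), algebraMap F k (subI o c a (i, e)) *
      (if e = o then w e - algebraMap F k c * w 0 else w e) = algebraMap F k (a (i, e)) * w e +
      ((if e = 0 then algebraMap F k c * algebraMap F k (a (i, o)) * w 0 else 0) -
      (if e = o then algebraMap F k c * algebraMap F k (a (i, o)) * w 0 else 0)) := by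
    intro e
    unfold subI
    by_cases he : e = 0
    · subst he
      simp only [if_true, if_neg (Ne.symm ho), map_add, map_mul]
      ring
    · by_cases he' : e = o
      · subst he'
        simp only [if_true, if_neg he]
        ring
      · simp only [if_neg he, if_neg he']
        ring
  rw [Finset.sum_congr rfl fun e _ => h1 e, Finset.sum_add_distrib, Finset.sum_sub_distrib,
    Finset.sum_ite_eq', Finset.sum_ite_eq', if_pos (Finset.mem_univ _), if_pos (Finset.mem_univ _),
    sub_self, add_zero]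

/-- reindexing -/
theorem sysW_reindex (w : Fin (m + 1) → k) (g : Fin (m + 1) ≃ Fin (m + 1))
    (a : I × Fin (m + 1) → F) :
    sysW (w ∘ g) (a ∘ (Equiv.prodCongr (Equiv.refl I) g)) = sysW w a := by
  unfold sysW
  funext i
  exact Fintype.sum_equiv g _ _ fun e => rfl

/-- multiplication by a scalar -/
theorem sysW_mul (w : Fin (m + 1) → k) (c : k) (a : I × Fin (m + 1) → F) :
    sysW (fun e => c * w e) a = fun q => c * sysW w a q := by
  unfold sysW
  funext i
  rw [Finset.mul_sum]
  refine Finset.sum_congr rfl fun e _ => ?_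
  ring

end

/-- The statement over a finite extension of `F(T)`, `w 0 = 1`, `w 1 = T`. -/
def Key (k : Type u) [Field k] {I : Type} (P : (I → k) → Prop) : Prop :=
  ∀ {F : Type u} [Field F] [CharZero F] [Algebra F k]
    (_ : ∃ S : Finset F, Subfield.closure (S : Set F) = ⊤) {T q : k} (_ : Transcendental F T)
    (_ : IsAlgebraic (adjoin F {T}) q) (_ : adjoin F {T, q} = ⊤)
    (_ : FiniteDimensional (adjoin F {T}) k)
    {κ : Subfield (AlgebraicClosure k)}
    (_ : ∀ c : AlgebraicClosure k, c ∈ κ ↔ IsAlgebraic F c)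
    (_ : TH.SplitAt κ (algebraMap k (AlgebraicClosure k) T) (algebraMap k (AlgebraicClosure k) q))
    {m : ℕ} {w : Fin (m + 2) → k} (_ : w 0 = 1) (_ : w 1 = T),
    IsThin {a : I × Fin (m + 2) → F | P (sysW w a)}

/-- the case of a finite extension of `F(T)` -/
theorem thin_of_key_fin {F k : Type u} [Field F] [CharZero F] [Field k] [Algebra F k] {I : Type}
    {P : (I → k) → Prop} (hP : ∀ (c : k) (f : I → k), c ≠ 0 → P f → P fun q => c * f q)
    (key : Key k P)
    (hF : ∃ S : Finset F, Subfield.closure (S : Set F) = ⊤) {m : ℕ} {w : Fin (m + 2) → k}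
    (hw0 : w 0 ≠ 0) (hT : Transcendental F (w 1 / w 0))
    [FiniteDimensional (IntermediateField.adjoin F {w 1 / w 0}) k] :
    IsThin {a : I × Fin (m + 2) → F | P (sysW w a)} := by
  classical
  let C : Type u := AlgebraicClosure k
  let κ : Subfield C := (algebraicClosure F C).toSubfield
  have hκ : ∀ c : C, c ∈ κ ↔ IsAlgebraic F c := fun c => mem_algebraicClosure_iff
  set T : k := w 1 / w 0 with hTdef
  -- division by `w 0`
  let w' : Fin (m + 2) → k := fun e => (w 0)⁻¹ * w e
  have hw'0 : w' 0 = 1 := inv_mul_cancel₀ hw0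
  have hw'1 : w' 1 = T := by
    change (w 0)⁻¹ * w 1 = w 1 / w 0
    rw [div_eq_mul_inv, mul_comm]
  obtain ⟨n, q, htop, hq, hs⟩ := exists_splitW (C := C) hT hκ w' (by rw [hw'0]; exact one_ne_zero)
  let c : F := n
  have hcn : algebraMap F k c = (n : k) := map_natCast _ _
  set T₁ : k := T - n with hT₁
  have hTT₁ : T = T₁ + algebraMap F k c := by rw [hT₁, hcn, sub_add_cancel]
  have hadj : IntermediateField.adjoin F {T₁} = IntermediateField.adjoin F {T} := by
    apply le_antisymm
    · rw [IntermediateField.adjoin_simple_le_iff, hT₁, ← hcn]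
      exact sub_mem (IntermediateField.mem_adjoin_simple_self F T)
        ((IntermediateField.adjoin F {T}).algebraMap_mem c)
    · rw [IntermediateField.adjoin_simple_le_iff, hTT₁]
      exact add_mem (IntermediateField.mem_adjoin_simple_self F T₁)
        ((IntermediateField.adjoin F {T₁}).algebraMap_mem c)
  have hT₁t : Transcendental F T₁ := by
    intro h
    apply hT
    rw [hTT₁]
    exact h.add (isAlgebraic_algebraMap c)
  have htop₁ : IntermediateField.adjoin F {T₁, q} = ⊤ := by
    rw [eq_top_iff, ← htop, IntermediateField.adjoin_le_iff]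
    rintro x (hx | hx)
    · rw [hx, SetLike.mem_coe, hTT₁]
      exact add_mem (IntermediateField.subset_adjoin F _ (by simp))
        ((IntermediateField.adjoin F {T₁, q}).algebraMap_mem c)
    · rw [Set.mem_singleton_iff.mp hx]
      exact IntermediateField.subset_adjoin F _ (by simp)
  have hq₁ : IsAlgebraic (IntermediateField.adjoin F {T₁}) q := by
    rw [hadj]
    exact hq
  have hs₁ : TH.SplitAt κ (algebraMap k C T₁) (algebraMap k C q) := by
    obtain ⟨e, P, r, h, R, h1, h2, h3, -⟩ := hs
    exact ⟨e, P, r, h1, h2, h3⟩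
  -- the substitution
  have ho : (1 : Fin (m + 2)) ≠ 0 := by
    intro h
    have := congrArg Fin.val h
    simp at this
  let w₁ : Fin (m + 2) → k := fun e => if e = 1 then w' e - algebraMap F k c * w' 0 else w' e
  have hw₁0 : w₁ 0 = 1 := by
    simp only [w₁]
    rw [if_neg (Ne.symm ho), hw'0]
  have hw₁1 : w₁ 1 = T₁ := by
    change (if (1 : Fin (m + 2)) = 1 then w' 1 - algebraMap F k c * w' 0 else w' 1) = T₁
    rw [if_pos rfl, hw'0, hw'1, hT₁, hcn, mul_one]
  have hfd : FiniteDimensional (adjoin F {T₁}) k := by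
    rw [hadj]
    infer_instance
  refine (thin_subI (key hF hT₁t hq₁ htop₁ hfd hκ hs₁ hw₁0 hw₁1) ho c).mono ?_
  intro a ha
  change P (sysW w₁ (subI 1 c a))
  rw [sysW_subst w' ho c a]
  rw [sysW_mul w (w 0)⁻¹ a]
  exact hP _ _ (inv_ne_zero hw0) ha

/-- the case of a finitely generated field, `w 1 / w 0` transcendental -/
theorem thin_of_key_one {F k : Type u} [Field F] [CharZero F] [Field k] [Algebra F k] {I : Type}
    {P : (I → k) → Prop} (hP : ∀ (c : k) (f : I → k), c ≠ 0 → P f → P fun q => c * f q)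
    (key : Key k P)
    (hF : ∃ S : Finset F, Subfield.closure (S : Set F) = ⊤)
    (hk : ∃ S : Finset k, Subfield.closure (S : Set k) = ⊤) {m : ℕ} {w : Fin (m + 2) → k}
    (hw0 : w 0 ≠ 0) (hT : Transcendental F (w 1 / w 0)) :
    IsThin {a : I × Fin (m + 2) → F | P (sysW w a)} := by
  classical
  obtain ⟨n, s, hs, hTs, hfd⟩ := RR.exists_tower hk hT
  have hF₁ := RR.fg_adjoin hF s
  set F₁ := adjoin F (Set.range s) with hF₁def
  have hF₁0 : CharZero F₁ := charZero_of_injective_algebraMap (algebraMap F F₁).injective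
  have h1 := thin_of_key_fin (F := F₁) (k := k) hP key hF₁ hw0 hTs
  let s₁ : Fin n → F₁ := fun i => ⟨s i, subset_adjoin F _ ⟨i, rfl⟩⟩
  have hs₁ : AlgebraicIndependent F s₁ := AlgebraicIndependent.of_comp F₁.val (by exact hs)
  have htop : adjoin F (Set.range s₁) = ⊤ := by
    apply IntermediateField.map_injective F₁.val
    rw [adjoin_map, ← Set.range_comp]
    have h2 : (⇑F₁.val ∘ s₁) = s := rfl
    rw [h2, ← hF₁def, ← AlgHom.fieldRange_eq_map, fieldRange_val]
  exact (h1.restrict hs₁ htop).mono fun a ha => ha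

/-- **The reduction.** -/
theorem thin_of_key {F k : Type u} [Field F] [CharZero F] [Field k] [Algebra F k] {I : Type}
    {P : (I → k) → Prop} (hP : ∀ (c : k) (f : I → k), c ≠ 0 → P f → P fun q => c * f q)
    (key : Key k P)
    (hF : ∃ S : Finset F, Subfield.closure (S : Set F) = ⊤)
    (hk : ∃ S : Finset k, Subfield.closure (S : Set k) = ⊤) {m : ℕ} {w : Fin (m + 1) → k}
    {i j : Fin (m + 1)} (hT : Transcendental F (w i / w j)) :
    IsThin {a : I × Fin (m + 1) → F | P (sysW w a)} := by
  classical
  have hj : w j ≠ 0 := by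
    intro h0
    rw [h0, div_zero] at hT
    exact hT isAlgebraic_zero
  have hij : i ≠ j := by
    rintro rfl
    rw [div_self hj] at hT
    exact hT isAlgebraic_one
  obtain ⟨m', rfl⟩ : ∃ m', m = m' + 1 := by
    refine ⟨m - 1, ?_⟩
    by_contra hm
    apply hij
    apply Fin.ext
    have h1 := i.2
    have h2 := j.2
    omega
  have ho0 : (0 : Fin (m' + 2)) ≠ 1 := by
    intro h
    have := congrArg Fin.val h
    simp at this
  let i' : Fin (m' + 2) := Equiv.swap 0 j i
  have hi' : i' ≠ 0 := by
    intro h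
    have h1 : Equiv.swap 0 j i' = i := Equiv.swap_apply_self 0 j i
    rw [h, Equiv.swap_apply_left] at h1
    exact hij h1.symm
  let g : Fin (m' + 2) ≃ Fin (m' + 2) := (Equiv.swap 1 i').trans (Equiv.swap 0 j)
  have hg0 : g 0 = j := by
    change Equiv.swap 0 j (Equiv.swap 1 i' 0) = j
    rw [Equiv.swap_apply_of_ne_of_ne ho0 (Ne.symm hi'), Equiv.swap_apply_left]
  have hgo : g 1 = i := by
    change Equiv.swap 0 j (Equiv.swap 1 i' 1) = i
    rw [Equiv.swap_apply_left]
    exact Equiv.swap_apply_self 0 j i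
  have h1 := thin_of_key_one (I := I) hP key hF hk (w := w ∘ g) (by
    change w (g 0) ≠ 0
    rw [hg0]; exact hj) (by
    change Transcendental F (w (g 1) / w (g 0))
    rw [hg0, hgo]; exact hT)
  refine (h1.reindex (Equiv.prodCongr (Equiv.refl I) g)).mono ?_
  intro a ha
  change P (sysW (w ∘ g) (a ∘ _))
  rw [sysW_reindex]
  exact ha

end Pool.Agent.PL
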