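import Pool.Agent.Helper13.PL.L4

/-!
# Project PLANE: the constants attached to a curve with a section, as a property of the curve
-/

universe u v

namespace Pool.Agent.PL

open Pool.Agent.PC Pool.Agent.Helper37.UL Pool.Agent.Helper91.Sect

/-- The constants `z i j`: their Galois properties. -/
structure LevZ {k C : Type u} [Field k] [Field C] [Algebra k C] (p : ℕ) {d n nW : ℕ}
    (G : Fin d → Mon n → C) (W : Mon nW → C) (T : k) (z : Fin d → Fin d → C) : Prop where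
  ne : ∀ i j, i ≠ j → z i j ≠ 0
  pow : ∀ i j, i ≠ j → z i j ^ p ∈ IntermediateField.adjoin k
    (mu C p ∪ (Set.range (G i) ∪ Set.range (G j)))
  equi : ∀ (σ : C ≃ₐ[k] C) (i j i' j' : Fin d), i ≠ j → i' ≠ j' → (∀ q, σ (G i q) = G i' q) →
    (∀ q, σ (G j q) = G j' q) → σ (z i j) / z i' j' ∈ IntermediateField.adjoin k
      (mu C p ∪ (Set.range (G i') ∪ Set.range (G j')))
  coc : ∀ i j l, i ≠ j → j ≠ l → i ≠ l → z i j * z j l / z i l ∈ IntermediateField.adjoin k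
    (mu C p ∪ (Set.range (G i) ∪ Set.range (G j) ∪ Set.range (G l)))
  prod : ∀ α : C, α ^ p = algebraMap k C T → ∀ i, α / ∏ j ∈ Finset.univ.erase i, z j i ∈
    IntermediateField.adjoin k (mu C p ∪ ((⋃ j, Set.range (G j)) ∪ Set.range W))

/-- The constants `z i j` and the inertia groups at good places. -/
def LevI (k₁ : Type u) {k C : Type u} [Field k₁] [Field k] [Field C] [Algebra k₁ k] [Algebra k C]
    {d n M₂ M₃ : ℕ} (f : Mon d → k) (G : Fin d → Mon n → C)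
    (D : Fin d → Mon M₂ → C) (c : Fin d → Fin (M₃ + 1) → C) (z : Fin d → Fin d → C) : Prop :=
  ∀ {M₁ e N : ℕ} {A B : Mon M₁ → k} {R U U' : Fin (N + 1) → k}, f (topY d) ≠ 0 → 1 ≤ N →
    R (Fin.last N) ≠ 0 → polX U * polX R + polX U' * MvPolynomial.pderiv 0 (polX R) = 1 →
    pol A * pol f + pol B * MvPolynomial.pderiv 1 (pol f) = polX R ^ e →
    ∀ V : ValuationSubring C, V ≠ ⊤ → (∀ a : k₁, algebraMap k C (algebraMap k₁ k a) ∈ V) →
    (∀ q, algebraMap k C (f q) ∈ V) → (algebraMap k C (f (topY d)))⁻¹ ∈ V →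
    (∀ q, algebraMap k C (B q) ∈ V) → (∀ i, algebraMap k C (R i) ∈ V) →
    (algebraMap k C (R (Fin.last N)))⁻¹ ∈ V → (∀ i, algebraMap k C (U i) ∈ V) →
    (∀ i, algebraMap k C (U' i) ∈ V) →
    ∀ i j, i ≠ j → (∀ q, G i q ∈ V) → (∀ q, G j q ∈ V) → (∀ q, D i q ∈ V) → (∀ q, D j q ∈ V) →
    (∃ l, c i l ≠ 0 ∧ (c i l)⁻¹ ∈ V) → (∃ l, c j l ≠ 0 ∧ (c j l)⁻¹ ∈ V) →
    ∀ σ : C ≃+* C, Inert (algebraMap k C).fieldRange V σ → (∀ q, σ (G i q) = G i q) →
      (∀ q, σ (G j q) = G j q) → σ (z i j) = z i j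

/-- The property of the plane curve `f` that all certificates have constants `z i j`. -/
def HasLev (k₁ : Type u) {k : Type u} (C : Type u) [Field k₁] [Field k] [Field C] [Algebra k₁ k]
    [Algebra k C] (p : ℕ) {d : ℕ} (r : ℕ) (f : Mon d → k) : Prop :=
  ∀ {n M : ℕ}, n ≤ M →
    ∀ {G : Fin d → Mon n → C} {W : Mon (r * n) → C} {nH : ℕ} {H : Mon nH → C} {T : k}, T ≠ 0 →
    ∏ i, pol (G i) = MvPolynomial.C (algebraMap k C T) * pol W ^ p +
      pol H * pol (fun q => algebraMap k C (f q)) →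
    (∀ i j, i ≠ j → Cop (G i) (G j) (fun q => algebraMap k C (f q)) M) →
    ∀ {M₂ M₃ : ℕ} {D D' : Fin d → Mon M₂ → C} {c : Fin d → Fin (M₃ + 1) → C}, (∀ i, c i ≠ 0) →
    (∀ i, pol (D i) * pol (G i) + pol (D' i) * pol (fun q => algebraMap k C (f q)) =
      polX (c i)) →
    ∃ z : Fin d → Fin d → C, LevZ p G W T z ∧ LevI k₁ f G D c z

/-- A curve over the plane curve `f` with a Galois section. -/
def HasSec {k : Type u} [Field k] {d : ℕ} (f : Mon d → k) : Prop :=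
  ∃ (K : Type u) (_ : Field K) (_ : Algebra k K) (x y : K), Transcendental k x ∧
    MvPolynomial.aeval ![x, y] (pol f) = 0 ∧ Nonempty (GaloisSection k K)

/-- **The constants attached to a Galois section of a plane curve.** -/
theorem hasLev_of_hasSec {k₁ k : Type u} [Field k₁] [CharZero k₁] [Field k] [Algebra k₁ k]
    (hF₁ : ∃ S : Finset k₁, Subfield.closure (S : Set k₁) = ⊤)
    (t : k) (hfin : FiniteDimensional (IntermediateField.adjoin k₁ {t}) k)
    {p d r : ℕ} (hp : p ≠ 0) (hd : d = p * r) {f : Mon d → k} (hs : HasSec f)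
    (C : Type u) [Field C] [Algebra k C] [IsAlgClosure k C] : HasLev k₁ C p r f := by
  intro n M hnM G W nH H T hT hprod hcop M₂ M₃ D D' c hc0 hnrm
  obtain ⟨K, i1, i2, x, y, hx, hxy, ⟨s⟩⟩ := hs
  obtain ⟨z, h1, h2, h3, h4, h5, h6⟩ := exists_lev_plane hF₁ t hfin hp hd hnM hx hxy s hT hprod
    hcop hc0 hnrm
  exact ⟨z, ⟨h1, h2, h3, h4, h5⟩, @h6⟩

end Pool.Agent.PL
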