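import Pool.Agent.Helper37.PC.Defs
import Pool.Agent.Helper37.UL.Star1
import Pool.Agent.Helper77.PLN.UP4

/-!
# Project PLANE: auxiliary results on ultrapowers
-/

universe u v w

namespace Pool.Agent.PL

open Pool.Agent.PC Pool.Agent.Helper37.UL UL

section alg

variable {S : Type u} [Field S]

/-- transitivity -/
theorem alg_trans {K A : Subfield S} (h : ∀ x ∈ A, IsAlgebraic K x) {y : S}
    (hy : IsAlgebraic A y) : IsAlgebraic K y := by
  let Ac : Subfield S := (algebraicClosure K S).toSubfield
  have hle : A ≤ Ac := fun x hx => mem_algebraicClosure_iff.2 (h x hx)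
  have h1 : IsAlgebraic (algebraicClosure K S) y := by
    have h2 : IsAlgebraic Ac y := isAlgebraic_mono hle hy
    exact h2
  exact (isIntegral_trans (R := K) (A := algebraicClosure K S) _ h1.isIntegral).isAlgebraic

/-- algebraicity of the elements of a field generated by algebraic elements -/
theorem alg_closure {K : Subfield S} {X : Set S} (h : ∀ x ∈ X, IsAlgebraic K x) :
    ∀ x ∈ Subfield.closure X, IsAlgebraic K x := by
  have hle : Subfield.closure X ≤ (algebraicClosure K S).toSubfield := by
    rw [Subfield.closure_le]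
    exact fun x hx => mem_algebraicClosure_iff.2 (h x hx)
  exact fun x hx => mem_algebraicClosure_iff.1 (hle hx)

/-- automorphisms preserve algebraicity over fixed fields -/
theorem alg_map {K : Subfield S} {σ : S ≃+* S} (hσ : ∀ y ∈ K, σ y = y) {x : S}
    (hx : IsAlgebraic K x) : IsAlgebraic K (σ x) := by
  obtain ⟨P, hP0, hP⟩ := hx
  exact ⟨P, hP0, by rw [← map_aeval hσ, hP, map_zero]⟩

/-- fixed elements -/
theorem fix_closure {σ : S ≃+* S} {X : Set S} (h : ∀ x ∈ X, σ x = x) :
    ∀ x ∈ Subfield.closure X, σ x = x := by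
  have h3 : Subfield.closure X ≤ (RingEquiv.toRingHom σ).eqLocusField (RingHom.id S) := by
    rw [Subfield.closure_le]
    exact fun x hx => h x hx
  exact fun x hx => h3 hx

/-- the image of an algebraically closed field is algebraically closed -/
theorem map_closed {C : Type u} [Field C] {κ : Subfield C} (hκ : ∀ x : C, IsAlgebraic κ x → x ∈ κ)
    [IsAlgClosed C] (φ : C →+* S) {y : S} (hy : IsAlgebraic (κ.map φ) y) : y ∈ κ.map φ := by
  have hcl : IsAlgClosed κ := by
    refine IsAlgClosed.of_exists_root _ fun q hq1 hq2 => ?_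
    obtain ⟨x, hx⟩ := IsAlgClosed.exists_aeval_eq_zero C q (Polynomial.degree_pos_of_irreducible hq2).ne'
    have hx1 : x ∈ κ := hκ x ⟨q, hq2.ne_zero, hx⟩
    refine ⟨⟨x, hx1⟩, ?_⟩
    apply Subtype.ext
    have h1 := Polynomial.aeval_algebraMap_apply C (⟨x, hx1⟩ : κ) q
    rw [← Polynomial.coe_aeval_eq_eval]
    change algebraMap κ C (Polynomial.aeval (⟨x, hx1⟩ : κ) q) = 0
    rw [← h1]
    exact hx
  let e : κ ≃+* κ.map φ := RingEquiv.ofBijective
    ((φ.comp κ.subtype).codRestrict (κ.map φ).toSubring fun c => ⟨c, c.2, rfl⟩)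
    ⟨RingHom.injective _, by
      rintro ⟨_, c, hc, rfl⟩
      exact ⟨⟨c, hc⟩, rfl⟩⟩
  have hcl2 : IsAlgClosed (κ.map φ) := IsAlgClosed.of_ringEquiv κ (κ.map φ) e
  have h1 : (minpoly (κ.map φ) y).degree = 1 :=
    IsAlgClosed.degree_eq_one_of_irreducible _ (minpoly.irreducible hy.isIntegral)
  obtain ⟨z, hz⟩ := minpoly.mem_range_of_degree_eq_one _ y h1
  rw [← hz]
  exact z.2

end alg

section up

variable {J : Type v} {U : Ultrafilter J} {k C : Type u} [Field k] [Field C] [Algebra k C]
  {S : Type w} [Field S] {π : (J → C) →+* S} (h : UP U π)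

include h

/-- representatives -/
theorem lift_C {I : Type*} (c : I → S) : ∃ f : J → I → C, ∀ i, (π fun a => f a i) = c i := by
  choose f hf using fun i => h.surj (c i)
  exact ⟨fun a i => f i a, hf⟩

/-- representatives with values in `k` -/
theorem lift_k {I : Type*} {c : I → S} (hc : ∀ i, c i ∈ h.gsub (algebraMap k C).fieldRange) :
    ∃ f : J → I → k, ∀ i, (π fun a => algebraMap k C (f a i)) = c i := by
  obtain ⟨f, hf1, hf2⟩ := h.lift_family hc
  choose g hg using hf1
  refine ⟨fun a i => g i a, fun i => ?_⟩
  rw [← hf2 i]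
  congr 1
  funext a
  exact hg i a

/-- Los, for an equation between polynomials -/
theorem los_eq {P Q : MvPolynomial (Fin 2) (J → C)}
    (hPQ : MvPolynomial.map π P = MvPolynomial.map π Q) : ∀ᶠ a in (U : Filter J),
      MvPolynomial.map (Pi.evalRingHom (fun _ => C) a) P =
        MvPolynomial.map (Pi.evalRingHom (fun _ => C) a) Q := by
  have h1 := los_pol h (P - Q) (by rw [map_sub, hPQ, sub_self])
  filter_upwards [h1] with a ha
  rw [map_sub, sub_eq_zero] at ha
  exact ha

omit h in
theorem map_polJ {R' : Type*} [CommRing R'] (φ : (J → C) →+* R') {n : ℕ} (g : J → Mon n → C) :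
    MvPolynomial.map φ (pol fun q a => g a q) = pol fun q => φ fun a => g a q := by
  unfold pol mono
  rw [map_sum]
  refine Finset.sum_congr rfl fun q _ => ?_
  rw [map_mul, map_mul, map_pow, map_pow, MvPolynomial.map_C, MvPolynomial.map_X,
    MvPolynomial.map_X]

omit h in
theorem map_polXJ {R' : Type*} [CommRing R'] (φ : (J → C) →+* R') {n : ℕ}
    (g : J → Fin (n + 1) → C) :
    MvPolynomial.map φ (polX fun q a => g a q) = polX fun q => φ fun a => g a q := by
  unfold polX
  rw [map_sum]
  refine Finset.sum_congr rfl fun q _ => ?_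
  rw [map_mul, map_pow, MvPolynomial.map_C, MvPolynomial.map_X]

/-- the product identity -/
theorem ev_prod {d n nW nH nf p : ℕ} {G : J → Fin d → Mon n → C} {W : J → Mon nW → C}
    {H : J → Mon nH → C} {f : J → Mon nf → C} {T : C}
    (hi : ∏ i, pol (fun q => π fun a => G a i q) = MvPolynomial.C (UP.cst π T) *
      pol (fun q => π fun a => W a q) ^ p +
      pol (fun q => π fun a => H a q) * pol (fun q => π fun a => f a q)) :
    ∀ᶠ a in (U : Filter J), ∏ i, pol (G a i) = MvPolynomial.C T * pol (W a) ^ p +
      pol (H a) * pol (f a) := by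
  have h1 := los_eq h (P := ∏ i, pol (fun q a => G a i q))
    (Q := MvPolynomial.C (fun _ => T) * pol (fun q a => W a q) ^ p +
      pol (fun q a => H a q) * pol (fun q a => f a q)) (by
    rw [map_prod, map_add, map_mul, map_mul, map_pow, MvPolynomial.map_C, map_polJ, map_polJ,
      map_polJ]
    simp only [map_polJ π (fun a => G a _)]
    exact hi)
  filter_upwards [h1] with a ha
  rw [map_prod, map_add, map_mul, map_mul, map_pow, MvPolynomial.map_C, map_polJ, map_polJ,
      map_polJ] at ha
  simp only [map_polJ (Pi.evalRingHom (fun _ => C) a) (fun a => G a _)] at ha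
  exact ha

/-- an identity `A G + B G' + D f = monomial` -/
theorem ev_cop {n n' nf nA nB nD nM : ℕ} {G : J → Mon n → C} {G' : J → Mon n' → C}
    {f : J → Mon nf → C} {A : J → Mon nA → C} {B : J → Mon nB → C} {D : J → Mon nD → C} {q : Mon nM}
    (hi : pol (fun q => π fun a => A a q) * pol (fun q => π fun a => G a q) +
      pol (fun q => π fun a => B a q) * pol (fun q => π fun a => G' a q) +
      pol (fun q => π fun a => D a q) * pol (fun q => π fun a => f a q) = mono S q) :
    ∀ᶠ a in (U : Filter J), pol (A a) * pol (G a) + pol (B a) * pol (G' a) +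
      pol (D a) * pol (f a) = mono C q := by
  have h1 := los_eq h (P := pol (fun q a => A a q) * pol (fun q a => G a q) +
    pol (fun q a => B a q) * pol (fun q a => G' a q) +
    pol (fun q a => D a q) * pol (fun q a => f a q)) (Q := mono (J → C) q) (by
    rw [map_add, map_add, map_mul, map_mul, map_mul, map_polJ, map_polJ, map_polJ, map_polJ,
      map_polJ, map_polJ, hi]
    unfold mono
    rw [map_mul, map_pow, map_pow, MvPolynomial.map_X, MvPolynomial.map_X])
  filter_upwards [h1] with a ha
  rw [map_add, map_add, map_mul, map_mul, map_mul, map_polJ, map_polJ, map_polJ, map_polJ,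
      map_polJ, map_polJ] at ha
  rw [show MvPolynomial.map (Pi.evalRingHom (fun _ => C) a) (mono (J → C) q) = mono C q by
    unfold mono
    rw [map_mul, map_pow, map_pow, MvPolynomial.map_X, MvPolynomial.map_X]] at ha
  exact ha

/-- an identity `D G + D' f = c(x)` -/
theorem ev_nrm {n nf nD nD' nM : ℕ} {G : J → Mon n → C}
    {f : J → Mon nf → C} {D : J → Mon nD → C} {D' : J → Mon nD' → C} {c : J → Fin (nM + 1) → C}
    (hi : pol (fun q => π fun a => D a q) * pol (fun q => π fun a => G a q) +
      pol (fun q => π fun a => D' a q) * pol (fun q => π fun a => f a q) =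
      polX (fun q => π fun a => c a q)) :
    ∀ᶠ a in (U : Filter J), pol (D a) * pol (G a) + pol (D' a) * pol (f a) = polX (c a) := by
  have h1 := los_eq h (P := pol (fun q a => D a q) * pol (fun q a => G a q) +
    pol (fun q a => D' a q) * pol (fun q a => f a q)) (Q := polX (fun q a => c a q)) (by
    rw [map_add, map_mul, map_mul, map_polJ, map_polJ, map_polJ, map_polJ, map_polXJ]
    exact hi)
  filter_upwards [h1] with a ha
  rw [map_add, map_mul, map_mul, map_polJ, map_polJ, map_polJ, map_polJ, map_polXJ] at ha
  exact ha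

/-- the identity `U R + U' R' = 1` -/
theorem ev_sep {N : ℕ} {R V V' : J → Fin (N + 1) → C}
    (hi : polX (fun q => π fun a => V a q) * polX (fun q => π fun a => R a q) +
      polX (fun q => π fun a => V' a q) *
        MvPolynomial.pderiv 0 (polX (fun q => π fun a => R a q)) = 1) :
    ∀ᶠ a in (U : Filter J), polX (V a) * polX (R a) +
      polX (V' a) * MvPolynomial.pderiv 0 (polX (R a)) = 1 := by
  have h1 := los_eq h (P := polX (fun q a => V a q) * polX (fun q a => R a q) +
    polX (fun q a => V' a q) * MvPolynomial.pderiv 0 (polX (fun q a => R a q))) (Q := 1) (by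
    rw [map_add, map_mul, map_mul, ← MvPolynomial.pderiv_map, map_polXJ, map_polXJ, map_polXJ,
      map_one]
    exact hi)
  filter_upwards [h1] with a ha
  rw [map_add, map_mul, map_mul, ← MvPolynomial.pderiv_map, map_polXJ, map_polXJ, map_polXJ,
    map_one] at ha
  exact ha

/-- the identity `A f + B ∂f/∂y = R(x) ^ e` -/
theorem ev_disc {nf nA nB N e : ℕ} {f : J → Mon nf → C} {A : J → Mon nA → C} {B : J → Mon nB → C}
    {R : J → Fin (N + 1) → C}
    (hi : pol (fun q => π fun a => A a q) * pol (fun q => π fun a => f a q) +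
      pol (fun q => π fun a => B a q) *
        MvPolynomial.pderiv 1 (pol (fun q => π fun a => f a q)) =
        polX (fun q => π fun a => R a q) ^ e) :
    ∀ᶠ a in (U : Filter J), pol (A a) * pol (f a) +
      pol (B a) * MvPolynomial.pderiv 1 (pol (f a)) = polX (R a) ^ e := by
  have h1 := los_eq h (P := pol (fun q a => A a q) * pol (fun q a => f a q) +
    pol (fun q a => B a q) * MvPolynomial.pderiv 1 (pol (fun q a => f a q)))
    (Q := polX (fun q a => R a q) ^ e) (by
    rw [map_add, map_mul, map_mul, ← MvPolynomial.pderiv_map, map_polJ, map_polJ, map_polJ,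
      map_pow, map_polXJ]
    exact hi)
  filter_upwards [h1] with a ha
  rw [map_add, map_mul, map_mul, ← MvPolynomial.pderiv_map, map_polJ, map_polJ, map_polJ,
      map_pow, map_polXJ] at ha
  exact ha

end up

section desc

variable {k C : Type u} [Field k] [Field C] [Algebra k C]

/-- identities over `k` -/
theorem desc_sep {N : ℕ} {R V V' : Fin (N + 1) → k}
    (hi : polX (fun q => algebraMap k C (V q)) * polX (fun q => algebraMap k C (R q)) +
      polX (fun q => algebraMap k C (V' q)) *
        MvPolynomial.pderiv 0 (polX (fun q => algebraMap k C (R q))) = 1) :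
    polX V * polX R + polX V' * MvPolynomial.pderiv 0 (polX R) = 1 := by
  have hX : ∀ g : Fin (N + 1) → k, MvPolynomial.map (algebraMap k C) (polX g) =
      polX fun q => algebraMap k C (g q) := by
    intro g
    unfold polX
    rw [map_sum]
    refine Finset.sum_congr rfl fun q _ => ?_
    rw [map_mul, map_pow, MvPolynomial.map_C, MvPolynomial.map_X]
  apply MvPolynomial.map_injective (algebraMap k C) (algebraMap k C).injective
  rw [map_add, map_mul, map_mul, ← MvPolynomial.pderiv_map, hX, hX, hX, map_one]
  exact hi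

/-- identities over `k` -/
theorem desc_disc {nf nA N e : ℕ} {f : Mon nf → k} {A B : Mon nA → k} {R : Fin (N + 1) → k}
    (hi : pol (fun q => algebraMap k C (A q)) * pol (fun q => algebraMap k C (f q)) +
      pol (fun q => algebraMap k C (B q)) *
        MvPolynomial.pderiv 1 (pol (fun q => algebraMap k C (f q))) =
        polX (fun q => algebraMap k C (R q)) ^ e) :
    pol A * pol f + pol B * MvPolynomial.pderiv 1 (pol f) = polX R ^ e := by
  have hX : MvPolynomial.map (algebraMap k C) (polX R) = polX fun q => algebraMap k C (R q) := by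
    unfold polX
    rw [map_sum]
    refine Finset.sum_congr rfl fun q _ => ?_
    rw [map_mul, map_pow, MvPolynomial.map_C, MvPolynomial.map_X]
  have hp : ∀ {n : ℕ} (g : Mon n → k), MvPolynomial.map (algebraMap k C) (pol g) =
      pol fun q => algebraMap k C (g q) := by
    intro n g
    unfold pol mono
    rw [map_sum]
    refine Finset.sum_congr rfl fun q _ => ?_
    rw [map_mul, map_mul, map_pow, map_pow, MvPolynomial.map_C, MvPolynomial.map_X,
      MvPolynomial.map_X]
  apply MvPolynomial.map_injective (algebraMap k C) (algebraMap k C).injective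
  rw [map_add, map_mul, map_mul, ← MvPolynomial.pderiv_map, hp, hp, hp, map_pow, hX]
  exact hi

end desc

end Pool.Agent.PL
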