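import Pool.Agent.Helper10.UL.GaussN
import Pool.Agent.Helper13.HZ.Transport
import Pool.Agent.Helper13.PL.NF4
import Pool.Agent.Helper13.TD.D1
import Pool.Agent.Helper37.TH.NoFam

/-!
# Project PLANE: the fields of the ultrapower
-/

universe u v w

namespace Pool.Agent.PL

open Pool.Agent.PC Pool.Agent.Helper37.UL UL TH

section cfield

variable {F k C : Type u} [Field F] [Field k] [Algebra F k] [Field C]
  [Algebra k C] [Algebra F C] [IsScalarTower F k C]

/-- the field `k` -/
theorem kC_eq {T q : k} (htop : IntermediateField.adjoin F {T, q} = ⊤) :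
    (algebraMap k C).fieldRange = Subfield.closure ((gen (algebraMap F C).fieldRange
      ![algebraMap k C T] : Set C) ∪ {algebraMap k C q}) := by
  apply le_antisymm
  · rintro _ ⟨x, rfl⟩
    have h1 : (IntermediateField.adjoin F {T, q} : IntermediateField F k).toSubfield ≤
        (Subfield.closure ((gen (algebraMap F C).fieldRange ![algebraMap k C T] : Set C) ∪
        {algebraMap k C q})).comap (algebraMap k C) := by
      rw [IntermediateField.adjoin_toSubfield, Subfield.closure_le]
      rintro x (⟨y, rfl⟩ | hx)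
      · exact Subfield.subset_closure (Or.inl (le_gen ⟨y, IsScalarTower.algebraMap_apply F k C y⟩))
      · rcases hx with rfl | hx
        · exact Subfield.subset_closure (Or.inl (gen_mem (τ := ![algebraMap k C x]) 0))
        · rw [Set.mem_singleton_iff.mp hx]
          exact Subfield.subset_closure (Or.inr rfl)
    rw [htop] at h1
    exact h1 (Subfield.mem_top x)
  · rw [Subfield.closure_le]
    rintro x (hx | hx)
    · have h1 : gen (algebraMap F C).fieldRange ![algebraMap k C T] ≤
          (algebraMap k C).fieldRange := by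
        unfold gen
        rw [Subfield.closure_le]
        rintro _ (⟨y, rfl⟩ | ⟨i, rfl⟩)
        · exact ⟨algebraMap F k y, (IsScalarTower.algebraMap_apply F k C y).symm⟩
        · fin_cases i
          exact ⟨T, rfl⟩
      exact h1 hx
    · rw [Set.mem_singleton_iff.1 hx]
      exact ⟨q, rfl⟩

/-- `q` is algebraic -/
theorem q_alg {T q : k} (hq : IsAlgebraic (IntermediateField.adjoin F {T}) q) :
    IsAlgebraic (gen (algebraMap F C).fieldRange ![algebraMap k C T]) (algebraMap k C q) := by
  have hLg : (IntermediateField.adjoin F {T}).toSubfield.map (algebraMap k C) ≤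
      gen (algebraMap F C).fieldRange ![algebraMap k C T] := by
    rw [IntermediateField.adjoin_toSubfield, RingHom.map_field_closure, Subfield.closure_le]
    rintro _ ⟨x, (⟨y, rfl⟩ | hx), rfl⟩
    · exact le_gen ⟨y, IsScalarTower.algebraMap_apply F k C y⟩
    · rw [Set.mem_singleton_iff.mp hx]
      exact gen_mem (τ := ![algebraMap k C T]) 0
  set g := gen (algebraMap F C).fieldRange ![algebraMap k C T] with hg
  obtain ⟨P, hP0, hP⟩ := hq
  let ψ : IntermediateField.adjoin F {T} →+* g := ((algebraMap k C).comp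
    (algebraMap (IntermediateField.adjoin F {T}) k)).codRestrict g.toSubring
    (fun x => hLg ⟨x, x.2, rfl⟩)
  refine ⟨P.map ψ, (Polynomial.map_ne_zero_iff ψ.injective).2 hP0, ?_⟩
  have h1 := congrArg (algebraMap k C) hP
  rw [map_zero, Polynomial.aeval_def, Polynomial.hom_eval₂] at h1
  rw [Polynomial.aeval_def, Polynomial.eval₂_map, ← h1]
  rfl

/-- everything is algebraic over `k` -/
theorem C_alg [IsAlgClosure k C] (x : C) : IsAlgebraic (algebraMap k C).fieldRange x := by
  have h1 : IsAlgebraic k x := (IsAlgClosure.isAlgebraic (R := k) (K := C)).isAlgebraic x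
  obtain ⟨P, hP0, hP⟩ := h1
  refine ⟨P.map (algebraMap k C).rangeRestrictField, ?_, ?_⟩
  · exact (Polynomial.map_ne_zero_iff (algebraMap k C).rangeRestrictField.injective).2 hP0
  · rw [← hP, Polynomial.aeval_def, Polynomial.eval₂_map]
    rfl

/-- restriction of independence to a smaller field -/
theorem algInd_mono {C : Type u} [Field C] {A B : Subfield C} (hAB : A ≤ B) {I : Type*} {x : I → C}
    (hx : AlgebraicIndependent B x) : AlgebraicIndependent A x := by
  let _ : Algebra A B := (Subfield.inclusion hAB).toAlgebra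
  have : IsScalarTower A B C := IsScalarTower.of_algebraMap_eq fun _ => rfl
  exact hx.restrictScalars (Subfield.inclusion hAB).injective

end cfield

/-- **The fields of the ultrapower.** -/
theorem exists_fields {J : Type v} {U : Ultrafilter J} {F k C : Type u} [Field F] [CharZero F]
    [Field k] [Algebra F k] [Field C] [Algebra k C] [Algebra F C] [IsScalarTower F k C]
    [IsAlgClosure k C] {S : Type w} [Field S] {π : (J → C) →+* S} (h : UP U π)
    {I : Type} {vv : J → I → F}
    (hUF : ∀ Ψ : MvPolynomial I F, Ψ ≠ 0 →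
      ∀ᶠ j in (U : Filter J), MvPolynomial.eval (vv j) Ψ ≠ 0)
    (hUQ : ∀ Q : Polynomial (MvPolynomial I F), 2 ≤ Q.natDegree →
        Irreducible (Q.map (algebraMap (MvPolynomial I F) (FractionRing (MvPolynomial I F)))) →
        ∀ᶠ j in (U : Filter J), ∀ x : F, Polynomial.eval₂ (MvPolynomial.eval (vv j)) x Q ≠ 0)
    {T q : k} (hT : Transcendental F T) (hq : IsAlgebraic (IntermediateField.adjoin F {T}) q)
    (htop : IntermediateField.adjoin F {T, q} = ⊤)
    {κ : Subfield C} (hκ : ∀ c : C, c ∈ κ ↔ IsAlgebraic F c) :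
    ∃ k0 κ0 : Subfield S,
      κ.map (UP.cst π) ≤ κ0 ∧ κ0 ≤ h.gsub κ ∧ (∀ x : S, IsAlgebraic κ0 x → x ∈ κ0) ∧
      (∀ x ∈ κ0, IsAlgebraic (Subfield.closure ((κ.map (UP.cst π) : Set S) ∪
        Set.range (xg π fun j i => algebraMap F C (vv j i)))) x) ∧
      (∀ x ∈ κ0, IsAlgebraic k0 x) ∧
      (∀ i, xg π (fun j i => algebraMap F C (vv j i)) i ∈ κ0) ∧
      UP.cst π (algebraMap k C T) ∈ k0 ∧ UP.cst π (algebraMap k C q) ∈ k0 ∧
      (∀ a : k, UP.cst π (algebraMap k C a) ∈ k0) ∧
      (∀ i, xg π (fun j i => algebraMap F C (vv j i)) i ∈ k0) ∧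
      k0 ≤ Subfield.closure ((Subfield.closure ((κ.map (UP.cst π) : Set S) ∪
        {UP.cst π (algebraMap k C T), UP.cst π (algebraMap k C q)}) : Set S) ∪
        Set.range (xg π fun j i => algebraMap F C (vv j i))) ∧
      IsAlgebraic (Subfield.closure ((κ0 : Set S) ∪ {UP.cst π (algebraMap k C T)}))
        (UP.cst π (algebraMap k C q)) ∧
      k0 ≤ h.gsub (algebraMap k C).fieldRange ∧
      (∀ x ∈ h.gsub (algebraMap k C).fieldRange, IsAlgebraic k0 x → x ∈ k0) ∧
      k0 ≤ Subfield.closure ((κ0 : Set S) ∪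
        {UP.cst π (algebraMap k C T), UP.cst π (algebraMap k C q)}) ∧
      Subfield.closure ((κ0 : Set S) ∪
        {UP.cst π (algebraMap k C T), UP.cst π (algebraMap k C q)}) ≤
        h.gsub (Subfield.closure ((κ : Set C) ∪ {algebraMap k C T, algebraMap k C q})) ∧
      (∀ x ∈ h.gsub (Subfield.closure ((κ : Set C) ∪ {algebraMap k C T, algebraMap k C q})),
        IsAlgebraic (Subfield.closure ((κ0 : Set S) ∪
        {UP.cst π (algebraMap k C T), UP.cst π (algebraMap k C q)})) x →
        x ∈ Subfield.closure ((κ0 : Set S) ∪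
        {UP.cst π (algebraMap k C T), UP.cst π (algebraMap k C q)})) := by
  classical
  have hCcl : IsAlgClosed C := IsAlgClosure.isAlgClosed k
  have hC0 : CharZero C := charZero_of_injective_algebraMap (algebraMap F C).injective
  have hSa : IsAlgClosed S := h.isAlgClosed
  have hS0 : CharZero S := h.charZero
  let T₁ : C := algebraMap k C T
  let q₁ : C := algebraMap k C q
  let FC : Subfield C := (algebraMap F C).fieldRange
  let L : Subfield S := Lg π vv
  let t' : S := UP.cst π T₁
  let q' : S := UP.cst π q₁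
  let τ1 : Fin 1 → S := fun i => UP.cst π ((![T₁] : Fin 1 → C) i)
  have hτ1 : τ1 = ![t'] := by
    funext i
    fin_cases i
    rfl
  have hrτ1 : Set.range τ1 = {t'} := by
    rw [hτ1, Matrix.range_cons, Matrix.range_empty, Set.union_empty]
  have hFκ : FC ≤ κ := by
    rintro _ ⟨c, rfl⟩
    exact (hκ _).2 (isAlgebraic_algebraMap c)
  have hκcl : ∀ x : C, IsAlgebraic κ x → x ∈ κ := by
    intro x hx
    have h0 : κ = (algebraicClosure F C).toSubfield := by
      ext y
      rw [hκ]
      exact mem_algebraicClosure_iff.symm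
    rw [hκ]
    have h1 : IsAlgebraic (algebraicClosure F C) x := by
      rw [h0] at hx
      exact hx
    exact (isIntegral_trans (R := F) (A := algebraicClosure F C) _ h1.isIntegral).isAlgebraic
  have hTκ : AlgebraicIndependent κ ![T₁] := by
    rw [algebraicIndependent_unique_type_iff]
    exact Pool.Agent.TD.kappa_transc_one hκ hT
  have hTF : AlgebraicIndependent FC ![T₁] := algInd_mono hFκ hTκ
  have hkC : (algebraMap k C).fieldRange = Subfield.closure ((gen FC ![T₁] : Set C) ∪ {q₁}) :=
    kC_eq htop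
  have hqa : IsAlgebraic (gen FC ![T₁]) q₁ := q_alg hq
  have hqκ : IsAlgebraic (gen κ ![T₁]) q₁ := isAlgebraic_mono (gen_mono_left hFκ) hqa
  let κ' := h.gsub κ
  let Kst₁ := h.gsub (gen FC ![T₁])
  let Kg₁ := h.gsub (gen κ ![T₁])
  let k₁ := gen L τ1
  let k0 := Subfield.closure ((k₁ : Set S) ∪ {q'})
  have hLFC : L ≤ h.gsub FC := by
    change Subfield.closure _ ≤ _
    rw [Subfield.closure_le, Set.union_subset_iff]
    constructor
    · rintro _ ⟨c, rfl⟩
      exact h.const_mem_gsub.mpr ⟨c, rfl⟩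
    · rintro _ ⟨q, rfl⟩
      exact ⟨_, fun j => ⟨vv j q, rfl⟩, rfl⟩
  have hxL : ∀ q, xg π (fun j i => algebraMap F C (vv j i)) q ∈ L := fun q =>
    Subfield.subset_closure (Or.inr ⟨q, rfl⟩)
  have hFL : ∀ x ∈ FC, UP.cst π x ∈ L := by
    rintro _ ⟨c, rfl⟩
    exact Subfield.subset_closure (Or.inl ⟨c, rfl⟩)
  have hLrel : ∀ x ∈ h.gsub FC, IsAlgebraic L x → x ∈ L := fun x hx hx' =>
    Lg_closed h hUF hUQ hx hx'
  have hk₁k0 : k₁ ≤ k0 := fun x hx => Subfield.subset_closure (Or.inl hx)
  have hLk0 : L ≤ k0 := le_gen.trans hk₁k0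
  have hk₁Kst₁ : k₁ ≤ Kst₁ := (gen_mono_left hLFC).trans h.gen_le
  have hKsteq : h.gsub (algebraMap k C).fieldRange = Subfield.closure ((Kst₁ : Set S) ∪ {q'}) := by
    rw [hkC]
    exact Pool.Agent.TD.gsub_adjoin h hqa
  have hgk₁ : gen FC ![T₁] ≤ k₁.comap (UP.cst π) := by
    conv_lhs => unfold gen
    rw [Subfield.closure_le, Set.union_subset_iff]
    refine ⟨fun x hx => le_gen (hFL x hx), ?_⟩
    rintro _ ⟨i, rfl⟩
    exact gen_mem (τ := τ1) i
  have hqk₁ : IsAlgebraic k₁ q' :=
    Pool.Agent.HZ.alg_map (UP.cst π) (L := gen FC ![T₁]) (L' := k₁) (fun x hx => hgk₁ hx) hqa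
  have hrel₁ : ∀ x ∈ Kst₁, IsAlgebraic k₁ x → x ∈ k₁ := by
    intro x hx hx'
    have h1 : x ∈ gen (h.gsub FC) τ1 :=
      h.gen_relAlgClosed hTF hx (isAlgebraic_mono (gen_mono_left hLFC) hx')
    exact gauss_n hLFC hLrel (h.algInd hTF) h1 hx'
  -- the algebraic closure of `L`
  let κ0 : Subfield S := (algebraicClosure L S).toSubfield
  have hmemκ0 : ∀ x : S, x ∈ κ0 ↔ IsAlgebraic L x := fun x => mem_algebraicClosure_iff
  have hκ0cl : ∀ x : S, IsAlgebraic κ0 x → x ∈ κ0 := by
    intro x hx
    rw [hmemκ0]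
    exact alg_trans (fun y hy => (hmemκ0 y).1 hy) hx
  have hκ' : ∀ x : S, IsAlgebraic κ' x → x ∈ κ' := fun x hx => h.gsub_algClosed hκcl hx
  have hLκ' : L ≤ κ' := hLFC.trans (h.gsub_mono hFκ)
  have hκ0κ' : κ0 ≤ κ' := fun x hx => hκ' x (isAlgebraic_mono hLκ' ((hmemκ0 x).mp hx))
  have hLκ0 : L ≤ κ0 := fun x hx => (hmemκ0 _).mpr (isAlgebraic_algebraMap (⟨x, hx⟩ : L))
  have hκGκ0 : κ.map (UP.cst π) ≤ κ0 := by
    rintro _ ⟨x, hx, rfl⟩
    rw [hmemκ0]
    have h1 : IsAlgebraic FC x := Pool.Agent.TD.isAlgebraic_range_iff.2 ((hκ x).1 hx)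
    exact Pool.Agent.HZ.alg_map (UP.cst π) (L := FC) (L' := L) hFL h1
  have hB0 : Subfield.closure ((κ0 : Set S) ∪ {t', q'}) =
      Subfield.closure ((gen κ0 τ1 : Set S) ∪ {q'}) := by
    apply le_antisymm
    · rw [Subfield.closure_le]
      rintro x (hx | hx | hx)
      · exact Subfield.subset_closure (Or.inl (le_gen hx))
      · rw [hx]
        exact Subfield.subset_closure (Or.inl (gen_mem (τ := τ1) 0))
      · rw [Set.mem_singleton_iff.1 hx]
        exact Subfield.subset_closure (Or.inr rfl)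
    · rw [Subfield.closure_le]
      rintro x (hx | hx)
      · have h1 : gen κ0 τ1 ≤ Subfield.closure ((κ0 : Set S) ∪ {t', q'}) := by
          unfold gen
          rw [hrτ1]
          apply Subfield.closure_mono
          rintro y (hy | hy)
          · exact Or.inl hy
          · rw [Set.mem_singleton_iff.1 hy]
            exact Or.inr (Or.inl rfl)
        exact h1 hx
      · rw [Set.mem_singleton_iff.1 hx]
        exact Subfield.subset_closure (Or.inr (Or.inr rfl))
  have hKgC : Subfield.closure ((κ : Set C) ∪ {T₁, q₁}) =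
      Subfield.closure ((gen κ ![T₁] : Set C) ∪ {q₁}) := by
    apply le_antisymm
    · rw [Subfield.closure_le]
      rintro x (hx | hx | hx)
      · exact Subfield.subset_closure (Or.inl (le_gen hx))
      · rw [hx]
        exact Subfield.subset_closure (Or.inl (gen_mem (τ := ![T₁]) 0))
      · rw [Set.mem_singleton_iff.1 hx]
        exact Subfield.subset_closure (Or.inr rfl)
    · rw [Subfield.closure_le]
      rintro x (hx | hx)
      · have h1 : gen κ ![T₁] ≤ Subfield.closure ((κ : Set C) ∪ {T₁, q₁}) := by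
          unfold gen
          rw [Matrix.range_cons, Matrix.range_empty, Set.union_empty]
          apply Subfield.closure_mono
          rintro y (hy | hy)
          · exact Or.inl hy
          · rw [Set.mem_singleton_iff.1 hy]
            exact Or.inr (Or.inl rfl)
        exact h1 hx
      · rw [Set.mem_singleton_iff.1 hx]
        exact Subfield.subset_closure (Or.inr (Or.inr rfl))
  have hKgeq : h.gsub (Subfield.closure ((κ : Set C) ∪ {T₁, q₁})) =
      Subfield.closure ((Kg₁ : Set S) ∪ {q'}) := by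
    rw [hKgC]
    exact Pool.Agent.TD.gsub_adjoin h hqκ
  have hgenκ0 : gen κ0 τ1 ≤ Kg₁ := (gen_mono_left hκ0κ').trans h.gen_le
  have hrel'₁ : ∀ x ∈ Kg₁, IsAlgebraic (gen κ0 τ1) x → x ∈ gen κ0 τ1 := by
    intro x hx hx'
    have h1 : x ∈ gen κ' τ1 :=
      h.gen_relAlgClosed hTκ hx (isAlgebraic_mono (gen_mono_left hκ0κ') hx')
    exact gauss_n hκ0κ' (fun y _ hy' => hκ0cl y hy') (h.algInd hTκ) h1 hx'
  have hqκ0 : IsAlgebraic (gen κ0 τ1) q' := isAlgebraic_mono (gen_mono_left hLκ0) hqk₁
  have hkk0 : ∀ a : k, UP.cst π (algebraMap k C a) ∈ k0 := by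
    intro a
    have h1 : (algebraMap k C).fieldRange ≤ k0.comap (UP.cst π) := by
      rw [hkC, Subfield.closure_le]
      rintro x (hx | hx)
      · exact hk₁k0 (hgk₁ hx)
      · rw [Set.mem_singleton_iff.1 hx]
        exact Subfield.subset_closure (Or.inr rfl)
    exact h1 ⟨a, rfl⟩
  refine ⟨k0, κ0, hκGκ0, hκ0κ', hκ0cl, ?_, fun x hx => isAlgebraic_mono hLk0 ((hmemκ0 x).1 hx),
    fun i => hLκ0 (hxL i), hkk0 T, hkk0 q, hkk0, fun i => hLk0 (hxL i), ?_, ?_, ?_, ?_, ?_, ?_, ?_⟩
  · intro x hx
    refine isAlgebraic_mono ?_ ((hmemκ0 x).1 hx)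
    change Subfield.closure _ ≤ _
    apply Subfield.closure_mono
    rintro _ (⟨c, rfl⟩ | hy)
    · exact Or.inl ⟨_, hFκ ⟨c, rfl⟩, rfl⟩
    · exact Or.inr hy
  · change Subfield.closure _ ≤ _
    rw [Subfield.closure_le]
    rintro x (hx | hx)
    · have h1 : k₁ ≤ Subfield.closure ((Subfield.closure ((κ.map (UP.cst π) : Set S) ∪
          {t', q'}) : Set S) ∪ Set.range (xg π fun j i => algebraMap F C (vv j i))) := by
        change gen L τ1 ≤ _
        conv_lhs => unfold gen
        rw [hrτ1, Subfield.closure_le]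
        rintro y (hy | hy)
        · have h2 : L ≤ Subfield.closure ((Subfield.closure ((κ.map (UP.cst π) : Set S) ∪
            {t', q'}) : Set S) ∪ Set.range (xg π fun j i => algebraMap F C (vv j i))) := by
            change Subfield.closure _ ≤ _
            apply Subfield.closure_mono
            rintro _ (⟨c, rfl⟩ | hy)
            · exact Or.inl (Subfield.subset_closure (Or.inl ⟨_, hFκ ⟨c, rfl⟩, rfl⟩))
            · exact Or.inr hy
          exact h2 hy
        · rw [Set.mem_singleton_iff.1 hy]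
          exact Subfield.subset_closure (Or.inl (Subfield.subset_closure (Or.inr (Or.inl rfl))))
      exact h1 hx
    · rw [Set.mem_singleton_iff.1 hx]
      exact Subfield.subset_closure (Or.inl (Subfield.subset_closure (Or.inr (Or.inr rfl))))
  · refine isAlgebraic_mono ?_ hqκ0
    unfold gen
    rw [hrτ1]
  · rw [hKsteq]
    exact Subfield.closure_mono (Set.union_subset_union_left _ hk₁Kst₁)
  · intro x hx hx'
    rw [hKsteq] at hx
    exact Pool.Agent.TD.relClosed_adjoin hk₁Kst₁ hrel₁ hqk₁ x hx hx'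
  · rw [hB0]
    exact Subfield.closure_mono (Set.union_subset_union_left _ (gen_mono_left hLκ0))
  · rw [hB0, hKgeq]
    exact Subfield.closure_mono (Set.union_subset_union_left _ hgenκ0)
  · rw [hB0, hKgeq]
    exact Pool.Agent.TD.relClosed_adjoin hgenκ0 hrel'₁ hqκ0

end Pool.Agent.PL
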