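import Pool.Agent.Helper37.PC.Defs

/-!
# Project PLANE: certificates
-/

universe u

namespace Pool.Agent.PL

open Pool.Agent.PC

/-- the exponent of `y ^ d` -/
def topY (d : ℕ) : Mon d := ⟨(0, Fin.last d), by simp⟩

/-- The certificate of the discriminant of `f`: the coefficient of `y ^ d` is not zero, `R` is a separable
polynomial in `x` and a power of `R` is a combination of `f` and `∂f/∂y`. -/
structure DiscCert {k : Type u} [Field k] {d : ℕ} (f : Mon d → k) (A B : MvPolynomial (Fin 2) k)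
    (R U U' : Polynomial k) (e : ℕ) : Prop where
  lead : f (topY d) ≠ 0
  deg : 1 ≤ R.natDegree
  sep : U * R + U' * Polynomial.derivative R = 1
  eq : A * pol f + B * MvPolynomial.pderiv 1 (pol f) =
    Polynomial.aeval (MvPolynomial.X 0) R ^ e

/-- The certificate is good at `V`. -/
structure DiscGood {k C : Type u} [Field k] [Field C] [Algebra k C] (V : ValuationSubring C) {d : ℕ}
    (f : Mon d → k) (B : MvPolynomial (Fin 2) k) (R U U' : Polynomial k) : Prop where
  f_mem : ∀ q, algebraMap k C (f q) ∈ V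
  lead : (algebraMap k C (f (topY d)))⁻¹ ∈ V
  B_mem : ∀ s, algebraMap k C (B.coeff s) ∈ V
  R_mem : ∀ i, algebraMap k C (R.coeff i) ∈ V
  R_lead : (algebraMap k C R.leadingCoeff)⁻¹ ∈ V
  U_mem : ∀ i, algebraMap k C (U.coeff i) ∈ V
  U'_mem : ∀ i, algebraMap k C (U'.coeff i) ∈ V

/-- `G (x, y)` is a unit at the Gauss extension: `D G + D' f = c(x)`. -/
structure UnitGood {C : Type u} [Field C] (V : ValuationSubring C) {n : ℕ}
    (G : Mon n → C) (D : MvPolynomial (Fin 2) C) (c : Polynomial C) : Prop where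
  G_mem : ∀ q, G q ∈ V
  D_mem : ∀ s, D.coeff s ∈ V
  c_unit : ∃ l, c.coeff l ≠ 0 ∧ (c.coeff l)⁻¹ ∈ V

end Pool.Agent.PL
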