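import Pool.Agent.Helper37.PC.Defs
import Pool.Agent.Helper91.Section.Basic

/-!
# Project PLANE, block K: the functions `(G_i / G_j) ^ (1 / p)` are unramified
-/

universe u v

namespace Pool.Agent.PL

open MvPolynomial Pool.Agent.PC Pool.Agent.Helper91.Sect

section val

variable {R : Type u} {Ω : Type v} [Field R] [Field Ω] [Algebra R Ω]

theorem aeval_pol {n : ℕ} (g : Mon n → R) (x y : Ω) :
    aeval ![x, y] (pol g) = ∑ q : Mon n, algebraMap R Ω (g q) * (x ^ (q.1.1 : ℕ) * y ^ (q.1.2 : ℕ)) := by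
  unfold pol mono
  rw [map_sum]
  refine Finset.sum_congr rfl fun q _ => ?_
  rw [map_mul, map_mul, map_pow, map_pow, aeval_X, aeval_X, aeval_C]
  rfl

variable {V : ValuationSubring Ω} (hV : ∀ c : R, algebraMap R Ω c ∈ V) {x y b₀ : Ω}
  (h1 : 1 ≤ V.valuation b₀) (hx : V.valuation x ≤ V.valuation b₀)
  (hy : V.valuation y ≤ V.valuation b₀)

include hV h1 hx hy in
theorem val_pol_le {n : ℕ} (g : Mon n → R) :
    V.valuation (aeval ![x, y] (pol g)) ≤ V.valuation b₀ ^ n := by
  rw [aeval_pol]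
  refine V.valuation.map_sum_le fun q _ => ?_
  rw [map_mul, map_mul, map_pow, map_pow]
  calc V.valuation (algebraMap R Ω (g q)) *
        (V.valuation x ^ (q.1.1 : ℕ) * V.valuation y ^ (q.1.2 : ℕ))
      ≤ 1 * (V.valuation b₀ ^ (q.1.1 : ℕ) * V.valuation b₀ ^ (q.1.2 : ℕ)) := by
        refine mul_le_mul' ((V.valuation_le_one_iff _).2 (hV _)) (mul_le_mul' ?_ ?_)
        · exact pow_le_pow_left' hx _
        · exact pow_le_pow_left' hy _
    _ = V.valuation b₀ ^ ((q.1.1 : ℕ) + (q.1.2 : ℕ)) := by rw [one_mul, pow_add]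
    _ ≤ V.valuation b₀ ^ n := pow_le_pow_right' h1 q.2

include hV h1 hx hy in
theorem val_eq_or {n d M : ℕ} (hb : b₀ = 1 ∨ b₀ = x ∨ b₀ = y) (hnM : n ≤ M)
    {G G' : Mon n → R} {f : Mon d → R} (hcop : Cop G G' f M)
    (hf : aeval ![x, y] (pol f) = 0) :
    V.valuation (aeval ![x, y] (pol G)) = V.valuation b₀ ^ n ∨
      V.valuation (aeval ![x, y] (pol G')) = V.valuation b₀ ^ n := by
  have hb0 : 0 < V.valuation b₀ := lt_of_lt_of_le zero_lt_one h1
  -- a monomial of the largest value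
  have hq : ∃ q : Mon M, V.valuation (aeval ![x, y] (mono R q)) = V.valuation b₀ ^ M := by
    have hm : ∀ q : Mon M, aeval ![x, y] (mono R q) = x ^ (q.1.1 : ℕ) * y ^ (q.1.2 : ℕ) := by
      intro q
      unfold mono
      rw [map_mul, map_pow, map_pow, aeval_X, aeval_X]
      rfl
    rcases hb with rfl | rfl | rfl
    · refine ⟨⟨(0, 0), by simp⟩, ?_⟩
      rw [hm]
      simp
    · refine ⟨⟨(Fin.last M, 0), by simp⟩, ?_⟩
      rw [hm]
      simp
    · refine ⟨⟨(0, Fin.last M), by simp⟩, ?_⟩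
      rw [hm]
      simp
  obtain ⟨q, hq⟩ := hq
  obtain ⟨A, B, D, hABD⟩ := hcop q
  have h2 := congrArg (aeval ![x, y]) hABD
  rw [map_add, map_add, map_mul, map_mul, map_mul, hf, mul_zero, add_zero] at h2
  have hA := val_pol_le hV h1 hx hy A
  have hB := val_pol_le hV h1 hx hy B
  have h3 : V.valuation b₀ ^ M ≤ max (V.valuation b₀ ^ (M - n) * V.valuation (aeval ![x, y] (pol G)))
      (V.valuation b₀ ^ (M - n) * V.valuation (aeval ![x, y] (pol G'))) := by
    rw [← hq, ← h2]
    refine (V.valuation.map_add _ _).trans (max_le_max ?_ ?_)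
    · rw [map_mul]; exact mul_le_mul' hA le_rfl
    · rw [map_mul]; exact mul_le_mul' hB le_rfl
  have h4 : V.valuation b₀ ^ M = V.valuation b₀ ^ (M - n) * V.valuation b₀ ^ n := by
    rw [← pow_add, Nat.sub_add_cancel hnM]
  have hpos : 0 < V.valuation b₀ ^ (M - n) := pow_pos hb0 _
  rw [h4] at h3
  rcases le_max_iff.1 h3 with h5 | h5
  · exact Or.inl (le_antisymm (val_pol_le hV h1 hx hy G) ((mul_le_mul_iff_right₀ hpos).1 h5))
  · exact Or.inr (le_antisymm (val_pol_le hV h1 hx hy G') ((mul_le_mul_iff_right₀ hpos).1 h5))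

omit [Algebra R Ω] in
theorem exists_b0 (V : ValuationSubring Ω) (x y : Ω) : ∃ b₀ : Ω, (b₀ = 1 ∨ b₀ = x ∨ b₀ = y) ∧
    1 ≤ V.valuation b₀ ∧ V.valuation x ≤ V.valuation b₀ ∧ V.valuation y ≤ V.valuation b₀ := by
  rcases le_total (V.valuation x) (V.valuation y) with h | h
  · rcases le_total 1 (V.valuation y) with h' | h'
    · exact ⟨y, Or.inr (Or.inr rfl), h', h, le_rfl⟩
    · exact ⟨1, Or.inl rfl, by rw [map_one], by rw [map_one]; exact h.trans h', by rwa [map_one]⟩
  · rcases le_total 1 (V.valuation x) with h' | h'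
    · exact ⟨x, Or.inr (Or.inl rfl), h', le_rfl, h⟩
    · exact ⟨1, Or.inl rfl, by rw [map_one], by rwa [map_one], by rw [map_one]; exact h.trans h'⟩

include hV in
/-- the value of `G_i / G_j` is the `p`-th power of the value of a function -/
theorem exists_val {n d p r M nH : ℕ} (hd : d = p * r) (hnM : n ≤ M) {f : Mon d → R}
    (hf : aeval ![x, y] (pol f) = 0) {G : Fin d → Mon n → R} {W : Mon (r * n) → R}
    {H : Mon nH → R} {T : R} (hT : T ≠ 0)
    (hprod : ∏ i, pol (G i) = C T * pol W ^ p + pol H * pol f)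
    (hcop : ∀ i j, i ≠ j → Cop (G i) (G j) f M)
    (hG0 : ∀ i, aeval ![x, y] (pol (G i)) ≠ 0) {i j : Fin d} (hij : i ≠ j) :
    ∃ b : Ω, (∀ σ : Ω →+* Ω, (∀ c : R, σ (algebraMap R Ω c) = algebraMap R Ω c) → σ x = x →
        σ y = y → σ b = b) ∧
      V.valuation (aeval ![x, y] (pol (G i))) =
        V.valuation b ^ p * V.valuation (aeval ![x, y] (pol (G j))) := by
  classical
  obtain ⟨b₀, hb, h1, hx, hy⟩ := exists_b0 V x y
  have hb0 : V.valuation b₀ ≠ 0 := (lt_of_lt_of_le zero_lt_one h1).ne'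
  have hp1 := congrArg (aeval ![x, y]) hprod
  rw [map_prod, map_add, map_mul, map_mul, hf, mul_zero, add_zero, map_pow, aeval_C] at hp1
  set w := aeval ![x, y] (pol W) with hw
  have hTv : V.valuation (algebraMap R Ω T) = 1 := by
    refine le_antisymm ((V.valuation_le_one_iff _).2 (hV _)) ?_
    have h2 := (V.valuation_le_one_iff _).2 (hV T⁻¹)
    rw [map_inv₀, map_inv₀] at h2
    have h3 : V.valuation (algebraMap R Ω T) ≠ 0 :=
      (Valuation.ne_zero_iff _).2 (by rwa [Ne, map_eq_zero])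
    exact (inv_le_one₀ (zero_lt_iff.2 h3)).1 h2
  have hp2 : ∏ i, V.valuation (aeval ![x, y] (pol (G i))) = V.valuation w ^ p := by
    rw [← map_prod, hp1, map_mul, map_pow, hTv, one_mul]
  have hw0 : V.valuation w ≠ 0 := by
    intro h0
    rw [h0] at hp2
    have hp0 : p ≠ 0 := by
      rintro rfl
      rw [zero_mul] at hd
      subst hd
      exact i.elim0
    rw [zero_pow hp0] at hp2
    obtain ⟨l, -, hl⟩ := Finset.prod_eq_zero_iff.1 hp2
    exact hG0 l ((Valuation.zero_iff _).1 hl)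
  have hfix : ∀ σ : Ω →+* Ω, (∀ c : R, σ (algebraMap R Ω c) = algebraMap R Ω c) → σ x = x →
      σ y = y → σ b₀ = b₀ ∧ σ w = w := by
    intro σ hσ hσx hσy
    constructor
    · rcases hb with rfl | rfl | rfl
      · exact map_one σ
      · exact hσx
      · exact hσy
    · rw [hw, aeval_pol, map_sum]
      refine Finset.sum_congr rfl fun q _ => ?_
      rw [map_mul, map_mul, map_pow, map_pow, hσ, hσx, hσy]
  -- the product of the values when one is small
  have hsmall : ∀ l : Fin d, V.valuation (aeval ![x, y] (pol (G l))) ≠ V.valuation b₀ ^ n →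
      ∀ l', l' ≠ l → V.valuation (aeval ![x, y] (pol (G l'))) = V.valuation b₀ ^ n := by
    intro l hl l' hl'
    rcases val_eq_or hV h1 hx hy hb hnM (hcop l l' (Ne.symm hl')) hf with h | h
    · exact absurd h hl
    · exact h
  have hprodl : ∀ l : Fin d, V.valuation (aeval ![x, y] (pol (G l))) ≠ V.valuation b₀ ^ n →
      V.valuation (aeval ![x, y] (pol (G l))) * (V.valuation b₀ ^ n) ^ (d - 1) =
        V.valuation w ^ p := by
    intro l hl
    rw [← hp2, ← Finset.mul_prod_erase Finset.univ _ (Finset.mem_univ l)]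
    congr 1
    rw [Finset.prod_congr rfl (fun l' hl' => hsmall l hl l' (Finset.mem_erase.1 hl').1),
      Finset.prod_const, Finset.card_erase_of_mem (Finset.mem_univ l), Finset.card_univ,
      Fintype.card_fin]
  have hd0 : 0 < d := lt_of_le_of_lt (Nat.zero_le _) i.2
  have hpow : (V.valuation b₀ ^ n) ^ (d - 1) * V.valuation b₀ ^ n =
      (V.valuation b₀ ^ (r * n)) ^ p := by
    rw [← pow_succ, Nat.sub_add_cancel hd0, ← pow_mul, ← pow_mul, hd]
    congr 1
    ring
  by_cases hi : V.valuation (aeval ![x, y] (pol (G i))) = V.valuation b₀ ^ n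
  · by_cases hj : V.valuation (aeval ![x, y] (pol (G j))) = V.valuation b₀ ^ n
    · refine ⟨1, fun σ _ _ _ => map_one σ, ?_⟩
      rw [hi, hj, map_one, one_pow, one_mul]
    · refine ⟨b₀ ^ (r * n) / w, fun σ hσ hσx hσy => ?_, ?_⟩
      · rw [map_div₀, map_pow, (hfix σ hσ hσx hσy).1, (hfix σ hσ hσx hσy).2]
      · have h2 := hprodl j hj
        have h3 : V.valuation (aeval ![x, y] (pol (G j))) ≠ 0 := (Valuation.ne_zero_iff _).2 (hG0 j)
        rw [hi, map_div₀, map_pow, div_pow, ← h2, ← hpow]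
        field_simp
  · refine ⟨w / b₀ ^ (r * n), fun σ hσ hσx hσy => ?_, ?_⟩
    · rw [map_div₀, map_pow, (hfix σ hσ hσx hσy).1, (hfix σ hσ hσx hσy).2]
    · have h2 := hprodl i hi
      rw [hsmall i hi j (Ne.symm hij), map_div₀, map_pow, div_pow, ← h2, ← hpow]
      field_simp

end val

section kur

variable {k K : Type u} [Field k] [Field K] [Algebra k K] {x y : K}

/-- **The functions `(G_i / G_j) ^ (1 / p)` are unramified.** -/
theorem root_mem_Kur {n d p r M nH : ℕ} (hp : 0 < p) (hd : d = p * r) (hnM : n ≤ M)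
    {f : Mon d → kbar k K}
    (hf : aeval ![algebraMap K (AlgebraicClosure K) x, algebraMap K (AlgebraicClosure K) y]
      (pol f) = 0) {G : Fin d → Mon n → kbar k K} {W : Mon (r * n) → kbar k K}
    {H : Mon nH → kbar k K} {T : kbar k K} (hT : T ≠ 0)
    (hprod : ∏ i, pol (G i) = C T * pol W ^ p + pol H * pol f)
    (hcop : ∀ i j, i ≠ j → Cop (G i) (G j) f M)
    (hG0 : ∀ i, aeval ![algebraMap K (AlgebraicClosure K) x, algebraMap K (AlgebraicClosure K) y]
      (pol (G i)) ≠ 0) {i j : Fin d} (hij : i ≠ j) {w : AlgebraicClosure K}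
    (hw : w ^ p * aeval ![algebraMap K (AlgebraicClosure K) x,
      algebraMap K (AlgebraicClosure K) y] (pol (G j)) =
      aeval ![algebraMap K (AlgebraicClosure K) x, algebraMap K (AlgebraicClosure K) y]
        (pol (G i))) : w ∈ Kur k K := by
  intro V hV σ hσ
  have hV' : ∀ c : kbar k K, algebraMap (kbar k K) (AlgebraicClosure K) c ∈ V := fun c =>
    const_mem hV (mem_algebraicClosure_iff.1 c.2)
  obtain ⟨b, hb, hval⟩ := exists_val hV' hd hnM hf hT hprod hcop hG0 hij
  have hσc : ∀ c : kbar k K, σ (algebraMap (kbar k K) (AlgebraicClosure K) c) =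
      algebraMap (kbar k K) (AlgebraicClosure K) c := fun c =>
    inertia_const hV hσ (mem_algebraicClosure_iff.1 c.2)
  have hσG : ∀ l, σ (aeval ![algebraMap K (AlgebraicClosure K) x,
      algebraMap K (AlgebraicClosure K) y] (pol (G l))) =
      aeval ![algebraMap K (AlgebraicClosure K) x, algebraMap K (AlgebraicClosure K) y]
        (pol (G l)) := by
    intro l
    rw [aeval_pol, map_sum]
    refine Finset.sum_congr rfl fun q _ => ?_
    rw [map_mul, map_mul, map_pow, map_pow, hσc, σ.commutes, σ.commutes]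
  refine unit_crit hV hσ (b := b) (N := p) ?_ ?_ hp ?_
  · exact hb (σ : AlgebraicClosure K →+* AlgebraicClosure K) hσc (σ.commutes x) (σ.commutes y)
  · rw [← hw, map_mul, map_pow] at hval
    have h1 : V.valuation (aeval ![algebraMap K (AlgebraicClosure K) x,
        algebraMap K (AlgebraicClosure K) y] (pol (G j))) ≠ 0 := (Valuation.ne_zero_iff _).2 (hG0 j)
    have h2 := mul_right_cancel₀ h1 hval
    exact (pow_left_inj₀ zero_le zero_le hp.ne').1 h2
  · have h1 : w ^ p = aeval ![algebraMap K (AlgebraicClosure K) x,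
        algebraMap K (AlgebraicClosure K) y] (pol (G i)) /
        aeval ![algebraMap K (AlgebraicClosure K) x,
        algebraMap K (AlgebraicClosure K) y] (pol (G j)) := by
      rw [← hw, mul_div_cancel_right₀ _ (hG0 j)]
    rw [h1, map_div₀, hσG, hσG]

end kur

end Pool.Agent.PL
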