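import Pool.Agent.Helper13.GC.C4
import Pool.Agent.Helper13.PL.Defs
import Pool.Agent.Helper13.PL.K1

/-!
# Project PLANE, block L: polynomials in two variables, good reduction
-/

universe u v

set_option linter.unusedSectionVars false

namespace Pool.Agent.PL

open Polynomial Pool.Agent.PC Pool.Agent.Helper91.Sect Pool.Agent.LT Pool.Agent.GC

section conv

variable {k : Type u} [Field k]

/-- polynomials in `x`, `y` as polynomials in `y` over `k[x]` -/
noncomputable def toXY (k : Type u) [Field k] : MvPolynomial (Fin 2) k →ₐ[k] k[X][X] :=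
  MvPolynomial.aeval ![C X, X]

theorem toXY_X0 : toXY k (MvPolynomial.X 0) = C X := by
  unfold toXY
  rw [MvPolynomial.aeval_X]
  rfl

theorem toXY_X1 : toXY k (MvPolynomial.X 1) = X := by
  unfold toXY
  rw [MvPolynomial.aeval_X]
  rfl

theorem eval_toXY {K : Type v} [Field K] [Algebra k K] (x y : K) (g : MvPolynomial (Fin 2) k) :
    eval₂ (aeval x : k[X] →ₐ[k] K).toRingHom y (toXY k g) = MvPolynomial.aeval ![x, y] g := by
  induction g using MvPolynomial.induction_on with
  | C a =>
    unfold toXY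
    rw [MvPolynomial.aeval_C, MvPolynomial.aeval_C]
    have h1 : algebraMap k k[X][X] a = C (C a) := rfl
    rw [h1, eval₂_C]
    change aeval x (C a) = _
    rw [aeval_C]
  | add p q hp hq => rw [map_add, eval₂_add, hp, hq, map_add]
  | mul_X p i hp =>
    rw [map_mul, eval₂_mul, hp, map_mul]
    congr 1
    fin_cases i
    · change eval₂ _ _ (toXY k (MvPolynomial.X 0)) = MvPolynomial.aeval ![x, y] (MvPolynomial.X 0)
      rw [toXY_X0, eval₂_C, MvPolynomial.aeval_X]
      change aeval x X = x
      rw [aeval_X]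
    · change eval₂ _ _ (toXY k (MvPolynomial.X 1)) = MvPolynomial.aeval ![x, y] (MvPolynomial.X 1)
      rw [toXY_X1, eval₂_X, MvPolynomial.aeval_X]
      rfl

theorem derivative_toXY (g : MvPolynomial (Fin 2) k) :
    derivative (toXY k g) = toXY k (MvPolynomial.pderiv 1 g) := by
  induction g using MvPolynomial.induction_on with
  | C a =>
    rw [MvPolynomial.pderiv_C, map_zero]
    unfold toXY
    rw [MvPolynomial.aeval_C]
    have h1 : algebraMap k k[X][X] a = C (C a) := rfl
    rw [h1, derivative_C]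
  | add p q hp hq => rw [map_add, derivative_add, hp, hq, map_add, map_add]
  | mul_X p i hp =>
    rw [map_mul, derivative_mul, hp, Derivation.leibniz, map_add, smul_eq_mul, smul_eq_mul, map_mul,
      map_mul]
    fin_cases i
    · change _ * toXY k (MvPolynomial.X 0) + _ * derivative (toXY k (MvPolynomial.X 0)) =
        _ * toXY k (MvPolynomial.pderiv 1 (MvPolynomial.X 0)) + toXY k (MvPolynomial.X 0) * _
      rw [toXY_X0, derivative_C, MvPolynomial.pderiv_X_of_ne (by decide), map_zero]
      ring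
    · change _ * toXY k (MvPolynomial.X 1) + _ * derivative (toXY k (MvPolynomial.X 1)) =
        _ * toXY k (MvPolynomial.pderiv 1 (MvPolynomial.X 1)) + toXY k (MvPolynomial.X 1) * _
      rw [toXY_X1, derivative_X, MvPolynomial.pderiv_X_self, map_one]
      ring

theorem toXY_monomial (s : Fin 2 →₀ ℕ) (c : k) :
    toXY k (MvPolynomial.monomial s c) = C (C c * X ^ s 0) * X ^ s 1 := by
  unfold toXY
  rw [MvPolynomial.aeval_monomial, Finsupp.prod_fintype _ _ (fun i => pow_zero _),
    Fin.prod_univ_two]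
  change algebraMap k k[X][X] c * (C X ^ s 0 * X ^ s 1) = _
  have h1 : algebraMap k k[X][X] c = C (C c) := rfl
  rw [h1, C_mul, C_pow]
  ring

/-- the coefficients are coefficients -/
theorem toXY_coeff_mem {A : Type v} [Semiring A] (φ : k →+* A) (S : Subsemiring A)
    {g : MvPolynomial (Fin 2) k} (hg : ∀ s, φ (g.coeff s) ∈ S) (i j : ℕ) :
    φ (((toXY k g).coeff i).coeff j) ∈ S := by
  have h1 : toXY k g = ∑ s ∈ g.support, C (C (g.coeff s) * X ^ s 0) * X ^ s 1 := by
    conv_lhs => rw [MvPolynomial.as_sum g]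
    rw [map_sum]
    exact Finset.sum_congr rfl fun s _ => toXY_monomial s _
  rw [h1, finsetSum_coeff, finsetSum_coeff, map_sum]
  refine S.sum_mem fun s _ => ?_
  rw [coeff_C_mul_X_pow]
  split_ifs with h2
  · rw [coeff_C_mul_X_pow]
    split_ifs with h3
    · exact hg s
    · rw [map_zero]
      exact S.zero_mem
  · rw [coeff_zero, map_zero]
    exact S.zero_mem

theorem toXY_pol {d : ℕ} (f : Mon d → k) :
    toXY k (pol f) = ∑ q : Mon d, C (C (f q) * X ^ (q.1.1 : ℕ)) * X ^ (q.1.2 : ℕ) := by
  unfold pol mono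
  rw [map_sum]
  refine Finset.sum_congr rfl fun q _ => ?_
  rw [map_mul, map_mul, map_pow, map_pow, toXY_X0, toXY_X1]
  have h1 : toXY k (MvPolynomial.C (f q)) = C (C (f q)) := by
    unfold toXY
    rw [MvPolynomial.aeval_C]
    rfl
  rw [h1, C_mul, C_pow]
  ring

theorem natDegree_toXY_pol {d : ℕ} (f : Mon d → k) : (toXY k (pol f)).natDegree ≤ d := by
  rw [toXY_pol]
  refine natDegree_sum_le_of_forall_le _ _ fun q _ => ?_
  refine (natDegree_C_mul_X_pow_le _ _).trans ?_
  exact Nat.lt_succ_iff.1 q.1.2.2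

theorem coeff_toXY_pol {d : ℕ} (f : Mon d → k) :
    (toXY k (pol f)).coeff d = C (f (topY d)) := by
  rw [toXY_pol, finsetSum_coeff, Finset.sum_eq_single (topY d)]
  · rw [coeff_C_mul_X_pow, if_pos (by simp [topY])]
    simp [topY]
  · intro q _ hq
    rw [coeff_C_mul_X_pow, if_neg]
    intro h1
    apply hq
    have h2 := q.2
    apply Subtype.ext
    refine Prod.ext ?_ ?_
    · apply Fin.ext
      change (q.1.1 : ℕ) = 0
      omega
    · apply Fin.ext
      change (q.1.2 : ℕ) = d
      exact h1.symm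
  · intro h
    exact absurd (Finset.mem_univ _) h

theorem toXY_aeval (R : k[X]) : toXY k (aeval (MvPolynomial.X 0) R) = C R := by
  rw [← aeval_algHom_apply, toXY_X0]
  induction R using Polynomial.induction_on' with
  | add p q hp hq => rw [map_add, hp, hq, C_add]
  | monomial n a =>
    rw [aeval_monomial, ← C_mul_X_pow_eq_monomial, C_mul, C_pow]
    rfl

end conv

section val

variable {R : Type u} {Ω : Type v} [Field R] [Field Ω] [Algebra R Ω]

/-- values of polynomials with integral coefficients -/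
theorem aeval_mem {P : ValuationSubring Ω} {g : MvPolynomial (Fin 2) R} {x y : Ω}
    (hg : ∀ s, algebraMap R Ω (g.coeff s) ∈ P) (hx : x ∈ P) (hy : y ∈ P) :
    MvPolynomial.aeval ![x, y] g ∈ P := by
  rw [MvPolynomial.as_sum g, map_sum]
  refine P.toSubring.sum_mem fun s _ => ?_
  rw [MvPolynomial.aeval_monomial, Finsupp.prod_fintype _ _ (fun i => pow_zero _),
    Fin.prod_univ_two]
  exact P.toSubring.mul_mem (hg s) (P.toSubring.mul_mem (P.toSubring.pow_mem hx _)
    (P.toSubring.pow_mem hy _))

theorem aeval_pol_mem {P : ValuationSubring Ω} {n : ℕ} {g : Mon n → R} {x y : Ω}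
    (hg : ∀ q, algebraMap R Ω (g q) ∈ P) (hx : x ∈ P) (hy : y ∈ P) :
    MvPolynomial.aeval ![x, y] (pol g) ∈ P := by
  rw [aeval_pol]
  refine P.toSubring.sum_mem fun q _ => ?_
  exact P.toSubring.mul_mem (hg q) (P.toSubring.mul_mem (P.toSubring.pow_mem hx _)
    (P.toSubring.pow_mem hy _))

end val

section unit

/-- a root of unity congruent to `1` is `1` -/
theorem mu_eq_one {C : Type u} [Field C] {V : ValuationSubring C} {p : ℕ} (hp : (p : C)⁻¹ ∈ V)
    (hp0 : (p : C) ≠ 0) {ζ : C} (hζ : ζ ^ p = 1) (h : V.valuation (ζ - 1) < 1) : ζ = 1 := by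
  by_contra hne
  have hζV : ζ ∈ V := by
    have h1 : ζ = (ζ - 1) + 1 := by ring
    rw [h1]
    exact V.add_mem _ _ ((V.valuation_le_one_iff _).1 h.le) V.one_mem
  have h1 : ∑ i ∈ Finset.range p, ζ ^ i = 0 := by
    have h2 := geom_sum_mul ζ p
    rw [hζ, sub_self] at h2
    exact (mul_eq_zero.1 h2).resolve_right (sub_ne_zero.2 hne)
  have h3 : ∀ i : ℕ, V.valuation (ζ ^ i - 1) < 1 := by
    intro i
    have h4 : ζ ^ i - 1 = (∑ j ∈ Finset.range i, ζ ^ j) * (ζ - 1) := (geom_sum_mul ζ i).symm
    rw [h4, map_mul]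
    have h5 : V.valuation (∑ j ∈ Finset.range i, ζ ^ j) ≤ 1 :=
      (V.valuation_le_one_iff _).2 (V.toSubring.sum_mem fun j _ => V.toSubring.pow_mem hζV j)
    calc V.valuation (∑ j ∈ Finset.range i, ζ ^ j) * V.valuation (ζ - 1)
        ≤ 1 * V.valuation (ζ - 1) := mul_le_mul' h5 le_rfl
      _ < 1 := by rw [one_mul]; exact h
  have h6 : V.valuation (p : C) < 1 := by
    have h7 : (p : C) = -∑ i ∈ Finset.range p, (ζ ^ i - 1) := by
      rw [Finset.sum_sub_distrib, h1]
      simp
    rw [h7, Valuation.map_neg]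
    exact V.valuation.map_sum_lt one_ne_zero fun i _ => h3 i
  have h8 := (V.valuation_le_one_iff _).2 hp
  rw [map_inv₀] at h8
  have h9 : 1 ≤ V.valuation (p : C) :=
    (inv_le_one₀ (zero_lt_iff.2 ((Valuation.ne_zero_iff _).2 hp0))).1 h8
  exact absurd h6 (not_lt.2 h9)

variable {k K : Type u} [Field k] [Field K] [Algebra k K]

theorem not_mem_nonunits {C : Type u} [Field C] {W : ValuationSubring C} {a : C} (ha : a ≠ 0)
    (h : a⁻¹ ∈ W) : a ∉ W.nonunits := by
  intro h1
  rw [ValuationSubring.mem_nonunits_iff_or] at h1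
  exact h1.elim ha fun h2 => h2 h

/-- the discriminant of the certificate is a unit -/
theorem goodRed_of_cert [CharZero k] {W : ValuationSubring (kbar k K)}
    (hres : CharZero (IsLocalRing.ResidueField W)) {R U U' : k[X]} (hdeg : 1 ≤ R.natDegree)
    (hsep : U * R + U' * derivative R = 1)
    (hR : ∀ i, algebraMap k (kbar k K) (R.coeff i) ∈ W)
    (hlead : (algebraMap k (kbar k K) R.leadingCoeff)⁻¹ ∈ W)
    (hU : ∀ i, algebraMap k (kbar k K) (U.coeff i) ∈ W)
    (hU' : ∀ i, algebraMap k (kbar k K) (U'.coeff i) ∈ W) : GoodRed W R := by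
  classical
  set φ := algebraMap k (kbar k K) with hφ
  have hR0 : R ≠ 0 := by
    rintro rfl
    simp at hdeg
  have hlc0 : φ R.leadingCoeff ≠ 0 := (_root_.map_ne_zero φ).2 (leadingCoeff_ne_zero.2 hR0)
  have hlcu : φ R.leadingCoeff ∉ W.nonunits := not_mem_nonunits hlc0 hlead
  -- lifts
  have hlift : ∀ q : k[X], (∀ i, φ (q.coeff i) ∈ W) → ∃ q₁ : W[X],
      q₁.map (algebraMap W (kbar k K)) = q.map φ := by
    intro q hq
    exact exists_lift W (q.map φ) fun n => by rw [coeff_map]; exact hq n
  obtain ⟨R₁, hR₁⟩ := hlift R hR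
  obtain ⟨U₁, hU₁⟩ := hlift U hU
  obtain ⟨U₂, hU₂⟩ := hlift U' hU'
  have hinj : Function.Injective (algebraMap W (kbar k K)) := IsFractionRing.injective W _
  have hbez : U₁ * R₁ + U₂ * derivative R₁ = 1 := by
    apply Polynomial.map_injective _ hinj
    rw [Polynomial.map_add, Polynomial.map_mul, Polynomial.map_mul, ← derivative_map, hR₁, hU₁, hU₂,
      Polynomial.map_one, derivative_map, ← Polynomial.map_mul, ← Polynomial.map_mul,
      ← Polynomial.map_add, hsep, Polynomial.map_one]
  have hnat : R₁.natDegree = R.natDegree := by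
    rw [← natDegree_map_eq_of_injective hinj R₁, hR₁, natDegree_map_eq_of_injective φ.injective]
  have hlc : algebraMap W (kbar k K) R₁.leadingCoeff = φ R.leadingCoeff := by
    rw [leadingCoeff, hnat, ← coeff_map, hR₁, coeff_map]
    rfl
  set res := IsLocalRing.residue W with hresd
  have hlcres : res R₁.leadingCoeff ≠ 0 := by
    intro h0
    rw [IsLocalRing.residue_eq_zero_iff] at h0
    apply hlcu
    rw [← hlc, ValuationSubring.mem_nonunits_iff_exists_mem_maximalIdeal]
    exact ⟨R₁.leadingCoeff.2, h0⟩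
  have hnat2 : (R₁.map res).natDegree = R₁.natDegree := natDegree_map_of_leadingCoeff_ne_zero _ hlcres
  have hsep2 : (R₁.map res).Separable := by
    refine ⟨U₁.map res, U₂.map res, ?_⟩
    rw [derivative_map, ← Polynomial.map_mul, ← Polynomial.map_mul, ← Polynomial.map_add, hbez,
      Polynomial.map_one]
  -- the resultant
  set N := R.natDegree with hN
  have hrk : CharZero (kbar k K) := charZero_of_injective_algebraMap (algebraMap k (kbar k K)).injective
  have hder : (derivative (R₁.map res)).natDegree = N - 1 := by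
    rw [natDegree_derivative, hnat2, hnat]
  have h1 : resultant (R₁.map res) (derivative (R₁.map res)) N (N - 1) ≠ 0 := by
    have h2 : N = (R₁.map res).natDegree := by rw [hnat2, hnat]
    rw [← hder]
    conv_lhs => rw [h2]
    rw [Ne, resultant_eq_zero_iff]
    intro h3
    exact h3.2 hsep2
  rw [derivative_map, resultant_map_map] at h1
  have h2 : algebraMap W (kbar k K) (resultant R₁ (derivative R₁) N (N - 1)) =
      φ (resultant R (derivative R) N (N - 1)) := by
    rw [← resultant_map_map, ← resultant_map_map, ← derivative_map, hR₁, derivative_map]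
  have h3 : φ (resultant R (derivative R) N (N - 1)) ∉ W.nonunits := by
    rw [← h2, ValuationSubring.mem_nonunits_iff_exists_mem_maximalIdeal]
    rintro ⟨h4, h5⟩
    apply h1
    rw [IsLocalRing.residue_eq_zero_iff]
    exact h5
  have h4 := resultant_deriv (f := R) (natDegree_pos_iff_degree_pos.1 hdeg)
  rw [← hN] at h4
  rw [h4, map_mul, map_mul, map_pow, map_neg, map_one] at h3
  refine ⟨hR, hlcu, fun h5 => h3 ?_⟩
  rw [ValuationSubring.mem_nonunits_iff] at h5 ⊢
  rw [map_mul, map_mul, map_pow, Valuation.map_neg, map_one, one_pow, one_mul]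
  calc W.valuation (φ R.leadingCoeff) * W.valuation (φ R.discr)
      ≤ 1 * W.valuation (φ R.discr) :=
        mul_le_mul' ((W.valuation_le_one_iff _).2 (hR _)) le_rfl
    _ < 1 := by rw [one_mul]; exact h5

end unit

end Pool.Agent.PL
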