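import Pool.Agent.Helper13.GC.C4
import Pool.Agent.Helper13.GC.C8
import Pool.Agent.Helper13.LG.G3b

/-!
# Plane curves at good places: inertia acts trivially on the residues of the maximal unramified extension

`K = k(x, y)`, `F(x, y) = 0` with `F ∈ k[X][Y]` monic in `Y`, `A F + B F' = D` with `D ∈ k[X]`, and `D` divides a
power of the separable polynomial `g`.
-/

universe u

set_option linter.unusedSectionVars false

namespace Pool.Agent.PL

open VC Polynomial Pool.Agent.LT Pool.Agent.SC Pool.Agent.Helper91.Sect Pool.Agent Pool.Agent.GC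

/-- The good polynomial of a plane curve. -/
theorem plane_goodPoly {k K₀ : Type u} [Field k] [Field K₀] [Algebra k K₀] {x y : K₀}
    {F A B : k[X][X]} {D Q g : k[X]} {N : ℕ} (hF : F.Monic)
    (hxy : eval₂ (aeval x : k[X] →ₐ[k] K₀).toRingHom y F = 0)
    (hid : A * F + B * derivative F = C D) (hD : D * Q = g ^ N) {S : Finset k}
    (hSF : ∀ i j, (F.coeff i).coeff j ∈ S) (hSB : ∀ i j, (B.coeff i).coeff j ∈ S)
    (hSQ : ∀ i, Q.coeff i ∈ S) : GoodPoly (1 : K₀) x y g S := by
  classical
  intro Ω _ _ P hSP hxP hgP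
  set φ : K₀ →+* Ω := algebraMap K₀ Ω with hφ
  have hval : ∀ r : k[X], (∀ n, r.coeff n ∈ S) → φ (aeval x r) ∈ P := by
    intro r hr
    rw [aeval_eq_sum_range, map_sum]
    refine P.toSubring.sum_mem fun n hn => ?_
    rw [Algebra.smul_def, map_mul, map_pow]
    exact P.toSubring.mul_mem (hSP _ (hr n)) (P.toSubring.pow_mem hxP n)
  have hginv : (φ (aeval x g))⁻¹ ∈ P := by
    rw [P.mem_nonunits_iff, not_lt] at hgP
    rw [← P.valuation_le_one_iff, map_inv₀]
    exact inv_le_one_of_one_le₀ hgP
  have hgne : φ (aeval x g) ≠ 0 := by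
    intro h0
    apply hgP
    rw [h0, P.mem_nonunits_iff, map_zero]
    exact zero_lt_one
  have hDu : φ (aeval x D) * (φ (aeval x Q) * (φ (aeval x g))⁻¹ ^ N) = 1 := by
    have h1 : φ (aeval x D) * φ (aeval x Q) = φ (aeval x g) ^ N := by
      rw [← map_mul, ← map_mul, ← map_pow, ← map_pow, hD]
    rw [← mul_assoc, h1, ← mul_pow, mul_inv_cancel₀ hgne, one_pow]
  set δ : Ω := φ (aeval x Q) * (φ (aeval x g))⁻¹ ^ N with hδ
  have hδP : δ ∈ P := P.toSubring.mul_mem (hval Q hSQ) (P.toSubring.pow_mem hginv N)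
  -- the polynomials over `Ω`
  let ι : k[X] →+* Ω := φ.comp (aeval x : k[X] →ₐ[k] K₀).toRingHom
  have hι : ∀ r : k[X], ι r = φ (aeval x r) := fun _ => rfl
  have hyroot : (F.map ι).eval (φ y) = 0 := by
    rw [eval_map, ← hom_eval₂, hxy, map_zero]
  obtain ⟨m, hm1, hm2⟩ := exists_lift_monic P (F.map ι) (hF.map ι) (fun n => by
    rw [coeff_map, hι]
    exact hval _ (hSF n))
  have hyP : φ y ∈ P := by
    apply mem_of_root P hm2
    rw [hm1, hyroot]
  refine ⟨?_, ?_, hyP, ?_⟩
  · rw [map_one]; exact P.one_mem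
  · rw [map_one, P.mem_nonunits_iff, map_one]
    exact lt_irrefl _
  intro σ hσk hσx hσy
  obtain ⟨b, hb⟩ := exists_lift P (C δ * B.map ι) (fun n => by
    rw [coeff_C_mul, coeff_map, hι]
    exact P.toSubring.mul_mem hδP (hval _ (hSB n)))
  have hinj := IsFractionRing.injective P Ω
  have hup : ∀ (r : P[X]), algebraMap P Ω (r.eval ⟨φ y, hyP⟩) =
      (r.map (algebraMap P Ω)).eval (φ y) := by
    intro r
    rw [eval_map]
    exact (eval₂_at_apply (algebraMap P Ω) (⟨φ y, hyP⟩ : P)).symm
  have hmz0 : m.eval ⟨φ y, hyP⟩ = 0 := by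
    apply hinj
    rw [hup, hm1, hyroot, map_zero]
  have hbm : b.eval ⟨φ y, hyP⟩ * m.derivative.eval ⟨φ y, hyP⟩ = 1 := by
    apply hinj
    rw [map_mul, hup, hup, ← derivative_map, hm1, hb, derivative_map, map_one, eval_mul, eval_C]
    have h1 := congrArg (fun p : k[X][X] => (p.map ι).eval (φ y)) hid
    simp only [Polynomial.map_add, Polynomial.map_mul, eval_add, eval_mul, map_C, eval_C, hyroot,
      mul_zero, zero_add] at h1
    rw [mul_assoc, h1, hι, mul_comm]
    exact hDu
  refine root_fixed P (m := m) (b := b) ⟨φ y, hyP⟩ hmz0 hbm (σ (φ y)) ?_ hσy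
  rw [hm1]
  have hσι : ∀ r : k[X], σ (ι r) = ι r := by
    intro r
    rw [hι, aeval_eq_sum_range, map_sum, map_sum]
    refine Finset.sum_congr rfl fun n _ => ?_
    rw [Algebra.smul_def, map_mul, map_pow, map_mul, map_pow, hσk, hσx]
  have h1 : (F.map ι).map σ = F.map ι := by
    ext n
    rw [coeff_map, coeff_map, hσι]
  rw [← h1, eval_map, eval₂_at_apply, hyroot, map_zero]

/-- **Inertia at good places acts trivially on the residues of the maximal unramified extension.** -/
theorem inert_trivial_plane {k₁ k K : Type u} [Field k₁] [CharZero k₁] [Field k] [Field K]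
    [Algebra k₁ k] [Algebra k K] [Algebra k₁ K] [IsScalarTower k₁ k K]
    (hF₁ : ∃ S : Finset k₁, Subfield.closure (S : Set k₁) = ⊤)
    (t : k) (hfin : FiniteDimensional (IntermediateField.adjoin k₁ {t}) k)
    {x y : K} (hx : Transcendental k x) (hgen : IntermediateField.adjoin k {x, y} = ⊤)
    {F A B : k[X][X]} {D Q g : k[X]} {N : ℕ} (hF : F.Monic)
    (hxy : eval₂ (aeval x : k[X] →ₐ[k] K).toRingHom y F = 0)
    (hid : A * F + B * derivative F = C D) (hD : D * Q = g ^ N)
    (hg1 : 1 ≤ g.natDegree) (hgs : g.Separable)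
    (s : GaloisSection k K)
    {W : ValuationSubring (kbar k K)} (hW : W ≠ ⊤)
    (hk₁ : ∀ c : k₁, algebraMap k₁ (kbar k K) c ∈ W) (hgW : GoodRed W g)
    (hWF : ∀ i j, algebraMap k (kbar k K) ((F.coeff i).coeff j) ∈ W)
    (hWB : ∀ i j, algebraMap k (kbar k K) ((B.coeff i).coeff j) ∈ W)
    (hWQ : ∀ i, algebraMap k (kbar k K) (Q.coeff i) ∈ W)
    {V : ValuationSubring (UU k K)}
    (hV : Gauss (algebraicClosure k₁ (kbar k K)) W (toU (k := k) (K := K) x) V)
    {τ : Gk k K} (hτ : InInert W τ) {z : UU k K} (hz : z ∈ V) : actU s τ z - z ∈ V.nonunits := by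
  classical
  have hac : IsAlgClosed (algebraicClosure k₁ (kbar k K)) :=
    (inferInstance : IsAlgClosure k₁ (algebraicClosure k₁ (kbar k K))).isAlgClosed
  have hk0 : CharZero k := charZero_of_injective_algebraMap (algebraMap k₁ k).injective
  -- the finite set of coefficients
  let S : Finset k := insert 0 ((F.support.biUnion fun i => (F.coeff i).support.image (F.coeff i).coeff) ∪
    (B.support.biUnion fun i => (B.coeff i).support.image (B.coeff i).coeff) ∪
    Q.support.image Q.coeff)
  have hcoef : ∀ (G : k[X][X]) (i j : ℕ), (G.coeff i).coeff j = 0 ∨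
      (G.coeff i).coeff j ∈ G.support.biUnion fun i => (G.coeff i).support.image (G.coeff i).coeff := by
    intro G i j
    by_cases h0 : (G.coeff i).coeff j = 0
    · exact Or.inl h0
    · right
      rw [Finset.mem_biUnion]
      refine ⟨i, ?_, Finset.mem_image.2 ⟨j, mem_support_iff.2 h0, rfl⟩⟩
      rw [mem_support_iff]
      intro h1
      rw [h1, coeff_zero] at h0
      exact h0 rfl
  have hSF : ∀ i j, (F.coeff i).coeff j ∈ S := by
    intro i j
    rcases hcoef F i j with h | h
    · rw [h]; exact Finset.mem_insert_self _ _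
    · exact Finset.mem_insert_of_mem (Finset.mem_union_left _ (Finset.mem_union_left _ h))
  have hSB : ∀ i j, (B.coeff i).coeff j ∈ S := by
    intro i j
    rcases hcoef B i j with h | h
    · rw [h]; exact Finset.mem_insert_self _ _
    · exact Finset.mem_insert_of_mem (Finset.mem_union_left _ (Finset.mem_union_right _ h))
  have hSQ : ∀ i, Q.coeff i ∈ S := by
    intro i
    by_cases h0 : Q.coeff i = 0
    · rw [h0]; exact Finset.mem_insert_self _ _
    · exact Finset.mem_insert_of_mem (Finset.mem_union_right _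
        (Finset.mem_image.2 ⟨i, mem_support_iff.2 h0, rfl⟩))
  have hSW : ∀ c ∈ S, algebraMap k (kbar k K) c ∈ W := by
    intro c hc
    rcases Finset.mem_insert.1 hc with rfl | hc
    · rw [map_zero]; exact W.zero_mem
    rcases Finset.mem_union.1 hc with hc | hc
    · rcases Finset.mem_union.1 hc with hc | hc
      · obtain ⟨i, -, h1⟩ := Finset.mem_biUnion.1 hc
        obtain ⟨j, -, rfl⟩ := Finset.mem_image.1 h1
        exact hWF i j
      · obtain ⟨i, -, h1⟩ := Finset.mem_biUnion.1 hc
        obtain ⟨j, -, rfl⟩ := Finset.mem_image.1 h1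
        exact hWB i j
    · obtain ⟨j, -, rfl⟩ := Finset.mem_image.1 hc
      exact hWQ j
  -- the function field
  have hff : IsFunctionField k K := by
    refine ⟨x, hx, ?_⟩
    have hyint : IsIntegral (IntermediateField.adjoin k {x}) y := by
      let ψ : k[X] →+* IntermediateField.adjoin k {x} :=
        (aeval (IntermediateField.AdjoinSimple.gen k x) : k[X] →ₐ[k] _).toRingHom
      refine ⟨F.map ψ, hF.map ψ, ?_⟩
      rw [eval₂_map]
      have e1 : (algebraMap (IntermediateField.adjoin k {x}) K).comp ψ =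
          (aeval x : k[X] →ₐ[k] K).toRingHom := by
        refine RingHom.ext fun r => ?_
        change algebraMap (IntermediateField.adjoin k {x}) K
          (aeval (IntermediateField.AdjoinSimple.gen k x) r) = aeval x r
        rw [← aeval_algebraMap_apply, IntermediateField.AdjoinSimple.algebraMap_gen]
      rw [e1]
      exact hxy
    have h1 : IntermediateField.adjoin (IntermediateField.adjoin k {x}) {y} = ⊤ := by
      have h2 := IntermediateField.adjoin_adjoin_left k ({x} : Set K) {y}
      apply IntermediateField.restrictScalars_injective k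
      rw [h2, IntermediateField.restrictScalars_top, ← hgen]
      rfl
    have h2 := IntermediateField.adjoin.finiteDimensional hyint
    rw [h1] at h2
    exact Module.Finite.equiv (IntermediateField.topEquiv
      (F := IntermediateField.adjoin k {x}) (E := K)).toLinearEquiv
  have h : CycE (K₀ := K) (K := K) 1 (1 : k) (1 : K) x y g S (1 : K) := by
    refine ⟨one_pos, one_ne_zero, one_ne_zero, hff, hx, hgen, ?_, ?_, hg1, hgs,
      plane_goodPoly hF hxy hid hD hSF hSB hSQ⟩
    · rw [eq_top_iff]
      intro z _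
      exact (IntermediateField.adjoin K {(1 : K)}).algebraMap_mem z
    · rw [map_one, one_pow, mul_one]; rfl
  obtain ⟨t', hb⟩ := exists_base' (K := K) t hfin hW hk₁
  let iUX : Algebra (UU k K) (XX (algebraMap K K x) (rootsB K g)) := algUX h.UU_le
  have s1 : IsScalarTower (kbar k K) (UU k K) (XX (algebraMap K K x) (rootsB K g)) :=
    IsScalarTower.of_algebraMap_eq fun _ => rfl
  have s2 : IsScalarTower (algebraicClosure k₁ (kbar k K)) (UU k K)
      (XX (algebraMap K K x) (rootsB K g)) := IsScalarTower.of_algebraMap_eq fun _ => rfl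
  have hu : CSetup (algebraicClosure k₁ (kbar k K)) (XX (algebraMap K K x) (rootsB K g)) W t'
    (rootsB K g) (toU (k := k) (K := K) (algebraMap K K x)) (LL k K K) (MM k K) := h.csetup hb hgW hk0
  have ha := locAct' s hF₁ t hfin hW hk₁ (algebraMap K K x)
  exact trivialC ha hu hV (τ := τ) hτ (fun z hz hzM =>
    h.inert_trivial s hb hgW hSW (by rw [map_one]; exact W.one_mem) (by
      rw [map_one, W.mem_nonunits_iff, map_one]
      exact lt_irrefl _) hV hτ hz hzM) z hz

end Pool.Agent.PL
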