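import Mathlib

/-!
# Project PLANE: the final contradiction
-/

universe u

namespace Pool.Agent.PL

/-- **The final contradiction.**  `τ` moves `α`, `τ'` agrees with `τ` on the algebraic elements and fixes
everything of level zero, the `ρ i j l` are transpositions which commute with `τ`, and `T i j l` are internal
automorphisms which agree with `ρ i j l` on the algebraic elements. -/
theorem no_z {S : Type u} [Field S] {p d : ℕ} (hd : 3 ≤ d)
    {z e g : Fin d → Fin d → S} {α : S} (hz0 : ∀ i j, i ≠ j → z i j ≠ 0)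
    (hzeg : ∀ i j, i ≠ j → z i j = e i j * g i j)
    (τ τ' : S ≃+* S) (hτα : τ α ≠ α) (hα : τ' α = τ α)
    (ρ T : Fin d → Fin d → Fin d → S ≃+* S)
    (hτe : ∀ i j, i ≠ j → τ' (e i j) = τ (e i j))
    (hτρe : ∀ i j l, i ≠ j → j ≠ l → i ≠ l → τ' (ρ i j l (e i l)) = τ (ρ i j l (e i l)))
    (hcomm : ∀ i j l, i ≠ j → j ≠ l → i ≠ l → τ (ρ i j l (e i l)) = ρ i j l (τ (e i l)))
    (hρμ : ∀ i j l, i ≠ j → j ≠ l → i ≠ l → ∀ ξ : S, ξ ^ p = 1 → ρ i j l ξ = ξ)
    (hTe : ∀ i j l, i ≠ j → j ≠ l → i ≠ l → T i j l (e i l) = ρ i j l (e i l))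
    (fpow : ∀ i j, i ≠ j → τ' (z i j ^ p) = z i j ^ p)
    (fcoc : ∀ i j l, i ≠ j → j ≠ l → i ≠ l → τ' (z i j * z j l / z i l) = z i j * z j l / z i l)
    {i₀ : Fin d} (fprod : τ' (α / ∏ j ∈ Finset.univ.erase i₀, z j i₀) =
      α / ∏ j ∈ Finset.univ.erase i₀, z j i₀)
    (fg : ∀ i j, i ≠ j → τ' (g i j) = g i j)
    (fTg : ∀ i j l, i ≠ j → j ≠ l → i ≠ l → τ' (T i j l (g i l)) = T i j l (g i l))
    (fTz : ∀ i j l, i ≠ j → j ≠ l → i ≠ l →
      τ' (T i j l (z i l) / z j l) = T i j l (z i l) / z j l) : False := by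
  classical
  let c : Fin d → Fin d → S := fun i j => τ' (z i j) / z i j
  have hc : ∀ i j, i ≠ j → τ' (z i j) = c i j * z i j := fun i j hij =>
    (div_mul_cancel₀ _ (hz0 i j hij)).symm
  have hcp : ∀ i j, i ≠ j → c i j ^ p = 1 := by
    intro i j hij
    change (τ' (z i j) / z i j) ^ p = 1
    rw [div_pow, ← map_pow, fpow i j hij]
    exact div_self (pow_ne_zero _ (hz0 i j hij))
  have hc0 : ∀ i j, i ≠ j → c i j ≠ 0 := fun i j hij =>
    div_ne_zero (fun h => hz0 i j hij ((map_eq_zero τ').1 h)) (hz0 i j hij)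
  have he0 : ∀ i j, i ≠ j → e i j ≠ 0 ∧ g i j ≠ 0 := by
    intro i j hij
    have h1 := hz0 i j hij
    rw [hzeg i j hij] at h1
    exact ⟨left_ne_zero_of_mul h1, right_ne_zero_of_mul h1⟩
  -- in terms of `τ` and `e`
  have hce : ∀ i j, i ≠ j → τ (e i j) = c i j * e i j := by
    intro i j hij
    have h1 := hc i j hij
    rw [hzeg i j hij, map_mul, hτe i j hij, fg i j hij, ← mul_assoc] at h1
    exact mul_right_cancel₀ (he0 i j hij).2 h1
  -- the cocycle relation
  have hcoc : ∀ i j l, i ≠ j → j ≠ l → i ≠ l → c i j * c j l = c i l := by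
    intro i j l hij hjl hil
    have h1 := fcoc i j l hij hjl hil
    rw [map_div₀, map_mul, hc i j hij, hc j l hjl, hc i l hil] at h1
    have hz1 := hz0 i j hij
    have hz2 := hz0 j l hjl
    have hz3 := hz0 i l hil
    have hc3 := hc0 i l hil
    field_simp at h1
    exact h1
  -- invariance under transpositions
  have htr : ∀ i j l, i ≠ j → j ≠ l → i ≠ l → c i l = c j l := by
    intro i j l hij hjl hil
    have h1 : τ' (T i j l (z i l)) = c i l * T i j l (z i l) := by
      rw [hzeg i l hil, map_mul, map_mul, hTe i j l hij hjl hil, hτρe i j l hij hjl hil,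
        hcomm i j l hij hjl hil, hce i l hil, map_mul, hρμ i j l hij hjl hil _ (hcp i l hil),
        fTg i j l hij hjl hil]
      ring
    have h2 : τ' (T i j l (z i l)) = c j l * T i j l (z i l) := by
      have h3 : T i j l (z i l) = T i j l (z i l) / z j l * z j l :=
        (div_mul_cancel₀ _ (hz0 j l hjl)).symm
      rw [h3, map_mul, fTz i j l hij hjl hil, hc j l hjl]
      ring
    have h4 : T i j l (z i l) ≠ 0 := fun h => hz0 i l hil ((map_eq_zero (T i j l)).1 h)
    exact mul_right_cancel₀ h4 (h1.symm.trans h2)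
  -- all `c i j` are one
  have hone : ∀ i j, i ≠ j → c i j = 1 := by
    intro i j hij
    obtain ⟨l, hli, hlj⟩ : ∃ l : Fin d, l ≠ i ∧ l ≠ j := by
      by_contra hcon
      push Not at hcon
      have h1 : (Finset.univ : Finset (Fin d)) ⊆ {i, j} := by
        intro l _
        rw [Finset.mem_insert, Finset.mem_singleton]
        by_cases hl : l = i
        · exact Or.inl hl
        · exact Or.inr (hcon l hl)
      have h2 := Finset.card_le_card h1
      rw [Finset.card_univ, Fintype.card_fin] at h2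
      have h3 := Finset.card_le_two (a := i) (b := j)
      omega
    have h1 := hcoc i j l hij (Ne.symm hlj) (Ne.symm hli)
    rw [htr i j l hij (Ne.symm hlj) (Ne.symm hli)] at h1
    exact mul_eq_right₀ (hc0 j l (Ne.symm hlj)) |>.1 h1
  -- the product relation
  apply hτα
  have hP0 : ∏ j ∈ Finset.univ.erase i₀, z j i₀ ≠ 0 :=
    Finset.prod_ne_zero_iff.2 fun j hj => hz0 j i₀ (Finset.mem_erase.1 hj).1
  have h1 := fprod
  rw [map_div₀, map_prod, hα] at h1
  have h2 : ∏ j ∈ Finset.univ.erase i₀, τ' (z j i₀) = ∏ j ∈ Finset.univ.erase i₀, z j i₀ := by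
    refine Finset.prod_congr rfl fun j hj => ?_
    have hj1 := (Finset.mem_erase.1 hj).1
    rw [hc j i₀ hj1, hone j i₀ hj1, one_mul]
  rw [h2] at h1
  exact (div_left_inj' hP0).1 h1

end Pool.Agent.PL
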