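import Pool.Agent.Helper13.PL.NF5
import Pool.Agent.Helper13.PL.NF3
import Pool.Agent.Helper13.PL.NF1
import Pool.Agent.Helper13.PL.S1
import Pool.Agent.Helper97.PLN.Geo
import Pool.Agent.Helper37.PC.Gsep
import Pool.Agent.Helper45.PLN.Disc
import Pool.Agent.Helper37.TH.V3

/-!
# Project PLANE: the set of the curves with constants is thin
-/

universe u v w

namespace Pool.Agent.PL

open Pool.Agent.PC Pool.Agent.Helper37.UL UL TH

/-- `exists_internal` for a family indexed by a finite type -/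
theorem exists_internal_fin {J : Type v} {U : Ultrafilter J} {C : Type u} [Field C] {S : Type w}
    [Field S] {π : (J → C) →+* S} [IsAlgClosed C] [CharZero C] (h : UP U π) {k : Subfield C}
    (hC : ∀ x : C, IsAlgebraic k x) {k0 : Subfield S} (hk0 : k0 ≤ h.gsub k)
    (hrel : ∀ x ∈ h.gsub k, IsAlgebraic k0 x → x ∈ k0) (ρ : S ≃+* S) (hρ : ∀ y ∈ k0, ρ y = y)
    {I : Type} [Finite I] {ψ : I → S} (hψ : ∀ i, IsAlgebraic k0 (ψ i)) :
    ∃ T' : S ≃+* S, UP.Internal π k T' ∧ ∀ i, T' (ψ i) = ρ (ψ i) := by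
  obtain ⟨n, ⟨e⟩⟩ := Finite.exists_equiv_fin I
  obtain ⟨T', h1, h2⟩ := exists_internal h hC hk0 hrel ρ hρ (ψ := fun i => ψ (e.symm i))
    fun i => hψ _
  refine ⟨T', h1, fun i => ?_⟩
  have h3 := h2 (e i)
  rwa [e.symm_apply_apply] at h3

/-- automorphisms over `F` and values of polynomials -/
theorem map_aevalF {F C : Type*} [Field F] [Field C] [Algebra F C] {σ : C ≃+* C}
    (hσ : ∀ a : F, σ (algebraMap F C a) = algebraMap F C a) (P : Polynomial F) (y : C) :
    σ (Polynomial.aeval y P) = Polynomial.aeval (σ y) P := by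
  rw [Polynomial.aeval_eq_sum_range, Polynomial.aeval_eq_sum_range, map_sum]
  refine Finset.sum_congr rfl fun i _ => ?_
  rw [Algebra.smul_def, Algebra.smul_def, map_mul, map_pow, hσ]

/-- **There is no family of curves with constants which is not thin.** -/
theorem no_family {J F k C : Type u} [Field F] [CharZero F] [Field k] [Algebra F k] [Field C]
    [Algebra k C] [Algebra F C] [IsScalarTower F k C] [IsAlgClosure k C]
    {T q : k} (hT : Transcendental F T) (hq : IsAlgebraic (IntermediateField.adjoin F {T}) q)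
    (htop : IntermediateField.adjoin F {T, q} = ⊤)
    {κ : Subfield C} (hκ : ∀ c : C, c ∈ κ ↔ IsAlgebraic F c)
    (hs : TH.SplitAt κ (algebraMap k C T) (algebraMap k C q))
    {p d r : ℕ} (hp : p.Prime) (hd : d = p * r) (hd3 : 3 ≤ d) {m : ℕ} {w : Fin (m + 2) → k}
    (hw0 : w 0 = 1) (hw1 : w 1 = T) {vv : J → Mon d × Fin (m + 2) → F}
    (hnt : ¬ IsThin (Set.range vv)) (hlev : ∀ a, HasLev F C p r (sysW w (vv a))) : False := by
  classical
  have hCcl : IsAlgClosed C := IsAlgClosure.isAlgClosed k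
  have hC0 : CharZero C := charZero_of_injective_algebraMap (algebraMap F C).injective
  obtain ⟨U, hUF, hUQ⟩ := exists_ultra_thin vv hnt
  obtain ⟨S, _, π, h⟩ := exists_up.{u, u} U C
  have hSa : IsAlgClosed S := h.isAlgClosed
  have hS0 : CharZero S := h.charZero
  obtain ⟨k0, κ0, hκGκ0, hκ0κ', hκ0cl, hκ0G, hκ0k0, hxκ0, htk0, hqk0, hkk0, hxk0, hk0K0, hqκ0,
    hk0Kst, hrel, hk0B0, hB0Kg, hrelB⟩ := exists_fields h hUF hUQ hT hq htop hκ
  have hU : ∀ Ψ : MvPolynomial (Mon d × Fin (m + 2)) C, Ψ ≠ 0 →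
      ∀ᶠ j in (U : Filter J), MvPolynomial.eval (fun i => algebraMap F C (vv j i)) Ψ ≠ 0 :=
    gen_extend hUF
  set T₁ : C := algebraMap k C T with hT₁
  set q₁ : C := algebraMap k C q with hq₁
  set t' : S := UP.cst π T₁ with ht'
  set q' : S := UP.cst π q₁ with hq'
  set κG : Subfield S := κ.map (UP.cst π) with hκG
  set x' : Mon d × Fin (m + 2) → S := xg π fun j i => algebraMap F C (vv j i) with hx'
  set E : Subfield S := Subfield.closure ((κG : Set S) ∪ {t', q'}) with hE
  set K0 : Subfield S := Subfield.closure ((E : Set S) ∪ Set.range x') with hK0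
  set B0 : Subfield S := Subfield.closure ((κ0 : Set S) ∪ {t', q'}) with hB0
  set Kg : Subfield S := h.gsub (Subfield.closure ((κ : Set C) ∪ {T₁, q₁})) with hKg
  -- the field `C`
  have hκcl : ∀ x : C, IsAlgebraic κ x → x ∈ κ := by
    intro x hx
    have h0 : κ = (algebraicClosure F C).toSubfield := by
      ext y
      rw [hκ]
      exact mem_algebraicClosure_iff.symm
    rw [hκ]
    have h1 : IsAlgebraic (algebraicClosure F C) x := by
      rw [h0] at hx
      exact hx
    exact (isIntegral_trans (R := F) (A := algebraicClosure F C) _ h1.isIntegral).isAlgebraic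
  have hFκ : (algebraMap F C).fieldRange ≤ κ := by
    rintro _ ⟨c, rfl⟩
    exact (hκ _).2 (isAlgebraic_algebraMap c)
  have hTκ : Transcendental κ T₁ := Pool.Agent.TD.kappa_transc_one hκ hT
  have hTκ' : AlgebraicIndependent κ ![T₁] := by
    rw [algebraicIndependent_unique_type_iff]
    exact hTκ
  have hgκ : gen (algebraMap F C).fieldRange ![T₁] ≤
      Subfield.closure ((κ : Set C) ∪ {T₁}) := by
    unfold gen
    rw [Matrix.range_cons, Matrix.range_empty, Set.union_empty]
    exact Subfield.closure_mono (Set.union_subset_union_left _ hFκ)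
  have hkC := kC_eq (C := C) htop
  have hqalg : IsAlgebraic (Subfield.closure ((κ : Set C) ∪ {T₁})) q₁ :=
    isAlgebraic_mono hgκ (q_alg hq)
  have halg : ∀ x : C, IsAlgebraic (Subfield.closure ((κ : Set C) ∪ {T₁})) x := by
    intro x
    refine alg_trans (A := (algebraMap k C).fieldRange) ?_ (C_alg x)
    rw [hkC]
    refine alg_closure ?_
    rintro y (hy | hy)
    · exact isAlgebraic_algebraMap (⟨y, hgκ hy⟩ : Subfield.closure ((κ : Set C) ∪ {T₁}))
    · rw [Set.mem_singleton_iff.1 hy]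
      exact hqalg
  have hkκ : ∀ a : k, algebraMap k C a ∈ Subfield.closure ((κ : Set C) ∪ {T₁, q₁}) := by
    intro a
    have h1 : (algebraMap k C).fieldRange ≤ Subfield.closure ((κ : Set C) ∪ {T₁, q₁}) := by
      rw [hkC, Subfield.closure_le]
      rintro y (hy | hy)
      · refine Subfield.closure_mono ?_ (hgκ hy)
        rintro z (hz | hz)
        · exact Or.inl hz
        · rw [Set.mem_singleton_iff.1 hz]
          exact Or.inr (Or.inl rfl)
      · rw [Set.mem_singleton_iff.1 hy]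
        exact Subfield.subset_closure (Or.inr (Or.inr rfl))
    exact h1 ⟨a, rfl⟩
  have hC : ∀ x : C, IsAlgebraic (algebraMap k C).fieldRange x := fun x => C_alg x
  have hkC2 : (algebraMap k C).fieldRange ≤ Subfield.closure ((κ : Set C) ∪ {T₁, q₁}) := by
    rintro _ ⟨a, rfl⟩
    exact hkκ a
  have hT0 : T ≠ 0 := by
    rintro rfl
    exact hT isAlgebraic_zero
  -- the fields of the ultrapower
  have hκGcl : ∀ y : S, IsAlgebraic κG y → y ∈ κG := fun y hy => map_closed hκcl (UP.cst π) hy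
  have hTG : Transcendental κG t' := by
    intro hh
    have h1 : Transcendental (h.gsub κ) t' := (h.algInd hTκ').transcendental 0
    exact h1 (isAlgebraic_mono (hκGκ0.trans hκ0κ') hh)
  have hcE : ∀ x ∈ Subfield.closure ((κ : Set C) ∪ {T₁, q₁}), UP.cst π x ∈ E := by
    intro x hx
    have h1 : Subfield.closure ((κ : Set C) ∪ {T₁, q₁}) ≤ E.comap (UP.cst π) := by
      rw [Subfield.closure_le]
      rintro y (hy | hy | hy)
      · exact Subfield.subset_closure (Or.inl ⟨y, hy, rfl⟩)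
      · rw [hy]
        exact Subfield.subset_closure (Or.inr (Or.inl rfl))
      · rw [Set.mem_singleton_iff.1 hy]
        exact Subfield.subset_closure (Or.inr (Or.inr rfl))
    exact h1 hx
  have hEc : E ≤ (UP.cst π).fieldRange := by
    rw [hE, Subfield.closure_le]
    rintro y (⟨z, -, rfl⟩ | hy | hy)
    · exact ⟨z, rfl⟩
    · exact ⟨T₁, hy.symm⟩
    · exact ⟨q₁, (Set.mem_singleton_iff.1 hy).symm⟩
  have hxE : AlgebraicIndependent E x' := algInd_mono hEc (algInd_xgC h hU)
  let w' : Fin (m + 2) → S := fun e => UP.cst π (algebraMap k C (w e))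
  have hwE : ∀ e, w' e ∈ E := fun e => hcE _ (hkκ _)
  have hw0' : w' 0 = 1 := by
    change UP.cst π (algebraMap k C (w 0)) = 1
    rw [hw0, map_one, map_one]
  have hw1' : w' 1 = t' := by
    change UP.cst π (algebraMap k C (w 1)) = t'
    rw [hw1]
  have hEK0 : E ≤ K0 := fun x hx => Subfield.subset_closure (Or.inl hx)
  have hκGK0 : κG ≤ K0 := fun x hx => hEK0 (Subfield.subset_closure (Or.inl hx))
  have htK0 : t' ∈ K0 := hEK0 (Subfield.subset_closure (Or.inr (Or.inl rfl)))
  have hqK0 : q' ∈ K0 := hEK0 (Subfield.subset_closure (Or.inr (Or.inr rfl)))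
  have hk0K0' : k0 ≤ K0 := hk0K0
  have aK : ∀ y : S, IsAlgebraic K0 y → IsAlgebraic k0 y := by
    intro y hy
    refine alg_trans (A := K0) ?_ hy
    refine alg_closure ?_
    rintro z (hz | ⟨i, rfl⟩)
    · refine alg_closure (X := (κG : Set S) ∪ {t', q'}) ?_ z hz
      rintro v (hv | hv | hv)
      · exact hκ0k0 _ (hκGκ0 hv)
      · rw [hv]
        exact isAlgebraic_algebraMap (⟨t', htk0⟩ : k0)
      · rw [Set.mem_singleton_iff.1 hv]
        exact isAlgebraic_algebraMap (⟨q', hqk0⟩ : k0)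
    · exact isAlgebraic_algebraMap (⟨_, hxk0 i⟩ : k0)
  have aC : ∀ y : S, IsAlgebraic k0 y → IsAlgebraic (Subfield.closure ((κ0 : Set S) ∪ {t'})) y := by
    intro y hy
    refine alg_trans (A := B0) ?_ (isAlgebraic_mono hk0B0 hy)
    refine alg_closure ?_
    rintro v (hv | hv | hv)
    · exact isAlgebraic_algebraMap (⟨v, Subfield.subset_closure (Or.inl hv)⟩ :
        Subfield.closure ((κ0 : Set S) ∪ {t'}))
    · rw [hv]
      exact isAlgebraic_algebraMap (⟨t', Subfield.subset_closure (Or.inr rfl)⟩ :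
        Subfield.closure ((κ0 : Set S) ∪ {t'}))
    · rw [Set.mem_singleton_iff.1 hv]
      exact hqκ0
  have aB : ∀ y : S, IsAlgebraic k0 y → IsAlgebraic B0 y := fun y hy => isAlgebraic_mono hk0B0 hy
  have aKst : ∀ y : S, IsAlgebraic k0 y → IsAlgebraic (h.gsub (algebraMap k C).fieldRange) y :=
    fun y hy => isAlgebraic_mono hk0Kst hy
  have aa : ∀ y ∈ k0, IsAlgebraic k0 y := fun y hy => isAlgebraic_algebraMap (⟨y, hy⟩ : k0)
  -- the generic curve
  obtain ⟨M, G₀, W₀, H₀, D₀, D₁, c₀, τ, hM, aG, aW, aH, aD, aD', ac, hprod, hcop, hnrm, τK0, τκ,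
    τG, τW, τα, htr⟩ := geo (κ := κG) (E := E) hκGcl hTG (SplitAt.map (UP.cst π) hs) rfl hp
    hd hd3 hxE rfl hwE hw0' hw1'
  let f : J → Mon d → k := fun a => sysW w (vv a)
  let f' : Mon d → S := fun a => ∑ e, x' (a, e) * w' e
  have hf' : ∀ a, (π fun j => algebraMap k C (f j a)) = f' a := by
    intro a
    have h1 : (fun j => algebraMap k C (f j a)) =
        ∑ e : Fin (m + 2), (fun j => algebraMap F C (vv j (a, e))) *
          (fun _ => algebraMap k C (w e)) := by
      funext j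
      change algebraMap k C (∑ e, algebraMap F k (vv j (a, e)) * w e) = _
      rw [map_sum, Finset.sum_apply]
      refine Finset.sum_congr rfl fun e _ => ?_
      rw [map_mul, ← IsScalarTower.algebraMap_apply]
      rfl
    rw [h1, map_sum]
    refine Finset.sum_congr rfl fun e _ => ?_
    rw [map_mul]
    rfl
  have hf'k0 : ∀ a, f' a ∈ k0 := fun a =>
    Subfield.sum_mem _ fun e _ => Subfield.mul_mem _ (hxk0 _) (hkk0 _)
  -- representatives
  obtain ⟨G₁, hG₁⟩ := lift_C h (fun q : Fin d × Mon (1 + p * d) => G₀ q.1 q.2)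
  let G : J → Fin d → Mon (1 + p * d) → C := fun a i q => G₁ a (i, q)
  have hG : ∀ i q, (π fun a => G a i q) = G₀ i q := fun i q => hG₁ (i, q)
  obtain ⟨W, hW⟩ := lift_C h W₀
  obtain ⟨H, hH⟩ := lift_C h H₀
  obtain ⟨D₂, hD₂⟩ := lift_C h (fun q : Fin d × Mon M => D₀ q.1 q.2)
  let D : J → Fin d → Mon M → C := fun a i q => D₂ a (i, q)
  have hD : ∀ i q, (π fun a => D a i q) = D₀ i q := fun i q => hD₂ (i, q)
  obtain ⟨D₃, hD₃⟩ := lift_C h (fun q : Fin d × Mon M => D₁ q.1 q.2)
  let D' : J → Fin d → Mon M → C := fun a i q => D₃ a (i, q)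
  have hD' : ∀ i q, (π fun a => D' a i q) = D₁ i q := fun i q => hD₃ (i, q)
  obtain ⟨c₁, hc₁⟩ := lift_C h (fun q : Fin d × Fin (M + 1) => c₀ q.1 q.2)
  let c : J → Fin d → Fin (M + 1) → C := fun a i q => c₁ a (i, q)
  have hc : ∀ i q, (π fun a => c a i q) = c₀ i q := fun i q => hc₁ (i, q)
  have eG : ∀ i, (fun q => π fun a => G a i q) = G₀ i := fun i => funext (hG i)
  have eW : (fun q => π fun a => W a q) = W₀ := funext hW
  have eH : (fun q => π fun a => H a q) = H₀ := funext hH
  have eD : ∀ i, (fun q => π fun a => D a i q) = D₀ i := fun i => funext (hD i)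
  have eD' : ∀ i, (fun q => π fun a => D' a i q) = D₁ i := fun i => funext (hD' i)
  have ec : ∀ i, (fun q => π fun a => c a i q) = c₀ i := fun i => funext (hc i)
  have ef : (fun q => π fun a => algebraMap k C (f a q)) = f' := funext hf'
  have ev1 : ∀ᶠ a in (U : Filter J), ∏ i, pol (G a i) =
      MvPolynomial.C (algebraMap k C T) * pol (W a) ^ p +
      pol (H a) * pol (fun q => algebraMap k C (f a q)) := by
    refine ev_prod h (f := fun a q => algebraMap k C (f a q)) ?_
    simp only [eG]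
    rw [eW, eH, ef]
    exact hprod
  have ev2 : ∀ᶠ a in (U : Filter J), ∀ i j, i ≠ j →
      Cop (G a i) (G a j) (fun q => algebraMap k C (f a q)) M := by
    rw [Filter.eventually_all]
    intro i
    rw [Filter.eventually_all]
    intro j
    by_cases hij : i = j
    · exact Filter.Eventually.of_forall fun a hh => absurd hij hh
    · have h1 : ∀ᶠ a in (U : Filter J),
          Cop (G a i) (G a j) (fun q => algebraMap k C (f a q)) M := by
        unfold Cop
        rw [Filter.eventually_all]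
        intro q
        obtain ⟨A, B, D, hid⟩ := hcop i j hij q
        obtain ⟨A', hA'⟩ := lift_C h A
        obtain ⟨B', hB'⟩ := lift_C h B
        obtain ⟨D', hD'⟩ := lift_C h D
        have h2 := ev_cop h (G := fun a => G a i) (G' := fun a => G a j)
          (f := fun a q => algebraMap k C (f a q)) (A := A') (B := B') (D := D') (q := q) (by
          rw [funext hA', funext hB', funext hD', eG, eG, ef]
          exact hid)
        filter_upwards [h2] with a ha
        exact ⟨A' a, B' a, D' a, ha⟩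
      filter_upwards [h1] with a ha _
      exact ha
  have hl : ∀ i, ∃ l, c₀ i l ≠ 0 := fun i => Function.ne_iff.1 (hnrm i).1
  have ev3 : ∀ᶠ a in (U : Filter J), ∀ i, c a i ≠ 0 := by
    rw [Filter.eventually_all]
    intro i
    obtain ⟨l, hl⟩ := hl i
    rw [← hc, h.ne0] at hl
    filter_upwards [hl] with a ha hh
    apply ha
    rw [hh]
    rfl
  have ev4 : ∀ᶠ a in (U : Filter J), ∀ i, pol (D a i) * pol (G a i) +
      pol (D' a i) * pol (fun q => algebraMap k C (f a q)) = polX (c a i) := by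
    rw [Filter.eventually_all]
    intro i
    refine ev_nrm h (G := fun a => G a i) (f := fun a q => algebraMap k C (f a q))
      (D := fun a => D a i) (D' := fun a => D' a i) (c := fun a => c a i) ?_
    rw [eD, eG, eD', ef, ec]
    exact (hnrm i).2
  -- the constants
  have ev5 : ∀ᶠ a in (U : Filter J), ∃ z : Fin d → Fin d → C,
      LevZ p (G a) (W a) T z ∧ LevI F (f a) (G a) (D a) (c a) z := by
    filter_upwards [ev1, ev2, ev3, ev4] with a h1 h2 h3 h4
    exact hlev a hM hT0 h1 h2 h3 h4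
  obtain ⟨z, hz⟩ := ev5.choice
  have aG' : ∀ i q, IsAlgebraic k0 (π fun a => G a i q) := fun i q => by
    rw [hG]; exact aK _ (aG i q)
  have aW' : ∀ q, IsAlgebraic k0 (π fun a => W a q) := fun q => by
    rw [hW]; exact aK _ (aW q)
  obtain ⟨zne, zpow, zcoc, zprod, zequi⟩ := rels h hp.ne_zero hC (fun i q => aKst _ (aG' i q))
    (fun q => aKst _ (aW' q)) (hz.mono fun a ha => ha.1)
  -- the branch locus
  obtain ⟨hf0, hfs⟩ := generic_sep (d := d) (by omega) hxE hwE hw0'
  obtain ⟨N, M₁, e₁, R₀, U₀, V₀, A₀, B₀, hN, hR0, hRk, hUk, hVk, hAk, hBk, hid1, hid2⟩ :=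
    exists_disc (k0 := k0) (f := f') (by omega) hf'k0 hf0 hfs
  obtain ⟨R, hR⟩ := lift_k h (fun i => hk0Kst (hRk i))
  obtain ⟨V, hV⟩ := lift_k h (fun i => hk0Kst (hUk i))
  obtain ⟨V', hV'⟩ := lift_k h (fun i => hk0Kst (hVk i))
  obtain ⟨A, hA⟩ := lift_k h (fun i => hk0Kst (hAk i))
  obtain ⟨B, hB⟩ := lift_k h (fun i => hk0Kst (hBk i))
  have ev6 : ∀ᶠ a in (U : Filter J),
      polX (V a) * polX (R a) + polX (V' a) * MvPolynomial.pderiv 0 (polX (R a)) = 1 := by
    have h1 := ev_sep h (R := fun a q => algebraMap k C (R a q))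
      (V := fun a q => algebraMap k C (V a q)) (V' := fun a q => algebraMap k C (V' a q)) (by
      rw [funext hR, funext hV, funext hV']
      exact hid1)
    filter_upwards [h1] with a ha
    exact desc_sep ha
  have ev7 : ∀ᶠ a in (U : Filter J),
      pol (A a) * pol (f a) + pol (B a) * MvPolynomial.pderiv 1 (pol (f a)) =
        polX (R a) ^ e₁ := by
    have h1 := ev_disc h (f := fun a q => algebraMap k C (f a q))
      (A := fun a q => algebraMap k C (A a q)) (B := fun a q => algebraMap k C (B a q))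
      (R := fun a q => algebraMap k C (R a q)) (e := e₁) (by
      rw [funext hA, funext hB, funext hR, ef]
      exact hid2)
    filter_upwards [h1] with a ha
    exact desc_disc ha
  have hev : ∀ᶠ a in (U : Filter J),
      (polX (V a) * polX (R a) + polX (V' a) * MvPolynomial.pderiv 0 (polX (R a)) = 1 ∧
      pol (A a) * pol (f a) + pol (B a) * MvPolynomial.pderiv 1 (pol (f a)) =
        polX (R a) ^ e₁) ∧
      LevZ p (G a) (W a) T (z a) ∧ LevI F (f a) (G a) (D a) (c a) (z a) := by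
    filter_upwards [ev6, ev7, hz] with a h1 h2 h3
    exact ⟨⟨h1, h2⟩, h3⟩
  have hFκ' : ∀ a : F, algebraMap k C (algebraMap F k a) ∈ κ := fun a =>
    hFκ ⟨a, IsScalarTower.algebraMap_apply F k C a⟩
  -- factorisation
  have heg := exists_eg h hp hκcl hFκ' hTκ halg hkκ hκ0κ' hκ0cl hκ0k0 htk0 (f := f) (G := G)
    (W := W) (D := D) (c := c) (z := z) (A := A) (B := B) (R := R) (U := V) (U' := V') (e := e₁)
    (T₀ := T)
    (fun q => by rw [hf']; exact aC _ (aa _ (hf'k0 q)))
    (fun q => by rw [hB]; exact aC _ (aa _ (hBk q)))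
    (fun q => by rw [hR]; exact aC _ (aa _ (hRk q)))
    (fun q => by rw [hV]; exact aC _ (aa _ (hUk q)))
    (fun q => by rw [hV']; exact aC _ (aa _ (hVk q)))
    (fun i q => aC _ (aG' i q))
    (fun i q => by rw [hD]; exact aC _ (aK _ (aD i q)))
    (fun i q => by rw [hc]; exact aC _ (aK _ (ac i q)))
    hqκ0
    (by rw [hf']; exact hf0)
    (by rw [hR]; exact hR0)
    (fun i => by
      obtain ⟨l, hl⟩ := hl i
      exact ⟨l, by rw [hc]; exact hl⟩)
    hN hev
  have heg' : ∀ i j, ∃ e₀ g : S, IsAlgebraic k0 e₀ ∧ (i ≠ j →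
      g ∈ Subfield.closure ((h.gsub (Subfield.closure ((κ : Set C) ∪ {T₁})) : Set S) ∪
        insert q' ((Set.range fun q => π fun a => G a i q) ∪
          Set.range fun q => π fun a => G a j q)) ∧
      (π fun a => z a i j) = e₀ * g) := by
    intro i j
    by_cases hij : i = j
    · exact ⟨0, 0, isAlgebraic_zero, fun hh => absurd hij hh⟩
    · obtain ⟨e₀, g, h1, h2, h3⟩ := heg i j hij
      exact ⟨e₀, g, h1, fun _ => ⟨h2, h3⟩⟩
  choose ee gg haee hegg using heg'
  -- the transpositions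
  have htr' : ∀ i j l, ∃ ρ : S ≃+* S, (∀ y ∈ K0, ρ y = y) ∧
      (∀ y, IsAlgebraic K0 y → τ (ρ y) = ρ (τ y)) ∧ (i ≠ j → j ≠ l → i ≠ l →
        (∀ a, ρ (G₀ i a) = G₀ j a) ∧ ∀ a, ρ (G₀ l a) = G₀ l a) := by
    intro i j l
    by_cases hh : i ≠ j ∧ j ≠ l ∧ i ≠ l
    · obtain ⟨ρ, h1, h2, h3, h4⟩ := htr i j l hh.1 hh.2.1 hh.2.2
      exact ⟨ρ, h1, h4, fun _ _ _ => ⟨h2, h3⟩⟩
    · exact ⟨RingEquiv.refl S, fun _ _ => rfl, fun _ _ => rfl,
        fun h1 h2 h3 => absurd ⟨h1, h2, h3⟩ hh⟩
  choose ρ ρK0 ρc ρG using htr'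
  -- the internal automorphisms
  have hTex : ∀ i j l, ∃ T' : S ≃+* S, UP.Internal π (algebraMap k C).fieldRange T' ∧
      (∀ q, T' (G₀ i q) = ρ i j l (G₀ i q)) ∧ (∀ q, T' (G₀ l q) = ρ i j l (G₀ l q)) ∧
      T' (ee i l) = ρ i j l (ee i l) := by
    intro i j l
    obtain ⟨T', h1, h2⟩ := exists_internal_fin h hC hk0Kst hrel (ρ i j l)
      (fun y hy => ρK0 i j l y (hk0K0' hy))
      (ψ := fun o : Option (Mon (1 + p * d) ⊕ Mon (1 + p * d)) =>
        o.elim (ee i l) (Sum.elim (G₀ i) (G₀ l))) (by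
        rintro (_ | (q | q))
        · exact haee i l
        · exact aK _ (aG i q)
        · exact aK _ (aG l q))
    exact ⟨T', h1, fun q => h2 (some (Sum.inl q)), fun q => h2 (some (Sum.inr q)), h2 none⟩
  choose TT TTI TTi TTl TTe using hTex
  obtain ⟨α, hα⟩ : ∃ α : C, α ^ p = T₁ := IsAlgClosed.exists_pow_nat_eq T₁ hp.pos
  have hα' : UP.cst π α ^ p = t' := by rw [← map_pow, hα]
  -- the automorphism over the large field
  have hτB : ∀ y ∈ B0, τ y = y := by
    refine fix_closure ?_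
    rintro v (hv | hv | hv)
    · exact τκ v (hκ0G v hv)
    · rw [hv]
      exact τK0 _ htK0
    · rw [Set.mem_singleton_iff.1 hv]
      exact τK0 _ hqK0
  obtain ⟨τ', hτ'Kg, hτ'⟩ := lift_conj (B := B0) (K' := Kg) hB0Kg hrelB
    (I := (Fin d × Mon (1 + p * d)) ⊕ (Mon (r * (1 + p * d)) ⊕ (Unit ⊕ ((Fin d × Fin d) ⊕
      (Fin d × Fin d × Fin d)))))
    (Sum.elim (fun q => G₀ q.1 q.2) (Sum.elim W₀ (Sum.elim (fun _ => UP.cst π α)
      (Sum.elim (fun q => ee q.1 q.2) (fun q => ρ q.1 q.2.1 q.2.2 (ee q.1 q.2.2)))))) (by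
      rintro (q | (q | (q | (q | q))))
      · exact aB _ (aK _ (aG _ _))
      · exact aB _ (aK _ (aW _))
      · refine aB _ (IsAlgebraic.of_pow hp.pos ?_)
        change IsAlgebraic k0 (UP.cst π α ^ p)
        rw [hα']
        exact aa _ htk0
      · exact aB _ (haee _ _)
      · exact aB _ (alg_map (fun y hy => ρK0 _ _ _ y (hk0K0' hy)) (haee _ _))) τ hτB
  have τ'G : ∀ i q, τ' (G₀ i q) = G₀ i q := fun i q => (hτ' (Sum.inl (i, q))).trans (τG i q)
  have τ'W : ∀ q, τ' (W₀ q) = W₀ q := fun q => (hτ' (Sum.inr (Sum.inl q))).trans (τW q)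
  have τ'α : τ' (UP.cst π α) = τ (UP.cst π α) := hτ' (Sum.inr (Sum.inr (Sum.inl ())))
  have τ'e : ∀ i j, τ' (ee i j) = τ (ee i j) := fun i j =>
    hτ' (Sum.inr (Sum.inr (Sum.inr (Sum.inl (i, j)))))
  have τ'ρ : ∀ i j l, τ' (ρ i j l (ee i l)) = τ (ρ i j l (ee i l)) := fun i j l =>
    hτ' (Sum.inr (Sum.inr (Sum.inr (Sum.inr (i, j, l)))))
  have hκKg : h.gsub (Subfield.closure ((κ : Set C) ∪ {T₁})) ≤ Kg := by
    refine h.gsub_mono (Subfield.closure_mono ?_)
    rintro x (hx | hx)
    · exact Or.inl hx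
    · rw [Set.mem_singleton_iff.1 hx]
      exact Or.inr (Or.inl rfl)
  have hqKg : q' ∈ Kg := h.const_mem_gsub.mpr (Subfield.subset_closure (Or.inr (Or.inr rfl)))
  have hmuκ : ∀ ξ ∈ mu C p, ξ ∈ κ := by
    intro ξ hξ
    apply hκcl
    apply IsAlgebraic.of_pow hp.pos
    have h1 : ξ ^ p = 1 := hξ
    rw [h1]
    exact isAlgebraic_one
  have hFx : Fx k h p τ' := by
    refine ⟨fun y hy => hτ'Kg y (h.gsub_mono hkC2 hy), fun ξ hξ => hτ'Kg _ ?_⟩
    exact h.const_mem_gsub.mpr (Subfield.subset_closure (Or.inl (hmuκ ξ hξ)))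
  -- the images of the elements of the fields of pairs
  let FP : Fin d → Fin d → Subfield S := fun i j => Subfield.closure
      ((h.gsub (Subfield.closure ((κ : Set C) ∪ {T₁})) : Set S) ∪
        insert q' ((Set.range fun q => π fun a => G a i q) ∪
          Set.range fun q => π fun a => G a j q))
  have hfixc : ∀ i j, ∀ y ∈ FP i j, τ' y = y := by
    intro i j
    refine fix_closure ?_
    rintro y (hy | hy | ⟨q, rfl⟩ | ⟨q, rfl⟩)
    · exact hτ'Kg y (hκKg hy)
    · rw [hy]
      exact hτ'Kg q' hqKg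
    · simp only [hG]
      exact τ'G i q
    · simp only [hG]
      exact τ'G j q
  have hTTG : ∀ i j l, i ≠ j → j ≠ l → i ≠ l → (∀ q, TT i j l (G₀ i q) = G₀ j q) ∧
      ∀ q, TT i j l (G₀ l q) = G₀ l q := by
    intro i j l h1 h2 h3
    obtain ⟨h4, h5⟩ := ρG i j l h1 h2 h3
    exact ⟨fun q => (TTi i j l q).trans (h4 q), fun q => (TTl i j l q).trans (h5 q)⟩
  have hTTm : ∀ i j l, i ≠ j → j ≠ l → i ≠ l → ∀ y ∈ FP i l, TT i j l y ∈ FP j l := by
    intro i j l h1 h2 h3
    obtain ⟨h4, h5⟩ := hTTG i j l h1 h2 h3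
    have h6 : FP i l ≤ (FP j l).comap (TT i j l : S →+* S) := by
      change Subfield.closure _ ≤ _
      rw [Subfield.closure_le]
      rintro y (hy | hy | ⟨q, rfl⟩ | ⟨q, rfl⟩)
      · refine Subfield.subset_closure (Or.inl ?_)
        refine UP.Internal.maps h (TTI i j l) ?_ hy
        intro σ hσ x hx
        have hσκ : ∀ y ∈ κ, σ y ∈ κ := by
          intro y hy
          rw [hκ] at hy ⊢
          obtain ⟨P, hP0, hP⟩ := hy
          refine ⟨P, hP0, ?_⟩
          have h7 : σ (Polynomial.aeval y P) = Polynomial.aeval (σ y) P := map_aevalF (fun a =>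
            hσ _ ⟨algebraMap F k a, (IsScalarTower.algebraMap_apply F k C a).symm⟩) P y
          rw [← h7, hP, map_zero]
        have h8 : Subfield.closure ((κ : Set C) ∪ {T₁}) ≤
            (Subfield.closure ((κ : Set C) ∪ {T₁})).comap (σ : C →+* C) := by
          rw [Subfield.closure_le]
          rintro y (hy | hy)
          · exact Subfield.subset_closure (Or.inl (hσκ y hy))
          · rw [Set.mem_singleton_iff.1 hy]
            change σ T₁ ∈ Subfield.closure ((κ : Set C) ∪ {T₁})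
            rw [hσ T₁ ⟨T, rfl⟩]
            exact Subfield.subset_closure (Or.inr rfl)
        exact h8 hx
      · rw [hy]
        change TT i j l q' ∈ FP j l
        rw [UP.Internal.fix h (TTI i j l) (hk0Kst hqk0)]
        exact Subfield.subset_closure (Or.inr (Or.inl rfl))
      · change TT i j l (π fun a => G a i q) ∈ FP j l
        rw [hG, h4, ← hG]
        exact Subfield.subset_closure (Or.inr (Or.inr (Or.inl ⟨q, rfl⟩)))
      · change TT i j l (π fun a => G a l q) ∈ FP j l
        rw [hG, h5, ← hG]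
        exact Subfield.subset_closure (Or.inr (Or.inr (Or.inr ⟨q, rfl⟩)))
    exact fun y hy => h6 hy
  -- the contradiction
  have i₀ : Fin d := ⟨0, by omega⟩
  refine no_z (S := S) (p := p) (d := d) hd3 (z := fun i j => π fun a => z a i j) (e := ee)
    (g := gg) (α := UP.cst π α) zne (fun i j hij => (hegg i j hij).2) τ τ' (τα _ hα') τ'α ρ TT
    (fun i j _ => τ'e i j) (fun i j l _ _ _ => τ'ρ i j l)
    (fun i j l _ _ _ => ρc i j l _ (isAlgebraic_mono hk0K0' (haee i l))) ?_
    (fun i j l _ _ _ => TTe i j l) ?_ ?_ (i₀ := i₀) ?_ ?_ ?_ ?_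
  · intro i j l _ _ _ ξ hξ
    apply ρK0
    apply hκGK0
    apply hκGcl
    apply IsAlgebraic.of_pow hp.pos
    rw [hξ]
    exact isAlgebraic_one
  · intro i j hij
    refine zpow i j hij τ' hFx ?_ ?_
    · intro q
      rw [hG]
      exact τ'G i q
    · intro q
      rw [hG]
      exact τ'G j q
  · intro i j l h1 h2 h3
    refine zcoc i j l h1 h2 h3 τ' hFx ?_ ?_ ?_
    · intro q
      rw [hG]
      exact τ'G i q
    · intro q
      rw [hG]
      exact τ'G j q
    · intro q
      rw [hG]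
      exact τ'G l q
  · refine zprod α hα i₀ τ' hFx ?_ ?_
    · intro i q
      rw [hG]
      exact τ'G i q
    · intro q
      rw [hW]
      exact τ'W q
  · intro i j hij
    exact hfixc i j _ (hegg i j hij).1
  · intro i j l h1 h2 h3
    exact hfixc j l _ (hTTm i j l h1 h2 h3 _ (hegg i l h3).1)
  · intro i j l h1 h2 h3
    obtain ⟨h4, h5⟩ := hTTG i j l h1 h2 h3
    refine zequi (TT i j l) (TTI i j l) i l j l h3 h2 ?_ ?_ τ' hFx ?_ ?_
    · intro q
      rw [hG, hG]
      exact h4 q
    · intro q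
      rw [hG]
      exact h5 q
    · intro q
      rw [hG]
      exact τ'G j q
    · intro q
      rw [hG]
      exact τ'G l q

end Pool.Agent.PL
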