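import Pool.Agent.Helper13.TD.DCR

/-!
# Bounded data over function fields of one variable: any number of generators

`κ` is algebraically closed, `C` is an algebraic closure of `κ(T')`, and `z ^ p` is in the field generated
over `κ(T')` by the `rt j`, which satisfy relations of bounded degrees.  `z` is fixed by the inertia groups over this
field of all valuation rings above `t₀`, for all `t₀` which are not zeros of the polynomial `bad`.
-/

set_option linter.unusedVariables false

universe u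

namespace Pool.Agent.PL

open Polynomial Pool.Agent.Helper91.Sect Pool.Agent.Helper37.UL VC FF IntermediateField
open Pool.Agent.TD

/-- **Bounded data**, with any number of generators. -/
theorem data_coreN (r D m' M p : ℕ) (hp : p.Prime) (hD : 0 < D) :
    ∃ B : ℕ, 0 < B ∧
    ∀ {C : Type u} [Field C] [CharZero C] [IsAlgClosed C]
      (κ : Subfield C) (hcl : IsAlgClosed κ) {T' : C} (htr : Transcendental κ T')
      (halg : ∀ x : C, IsAlgebraic (IntermediateField.adjoin κ {T'}) x)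
      {rt : Fin r → C} {f : Fin r → κ[X][X]} (hf0 : ∀ j, f j ≠ 0) (hfD : ∀ j, (f j).natDegree ≤ D)
      (hfm : ∀ j i, ((f j).coeff i).natDegree ≤ m')
      (hfrt : ∀ j, eval₂ (aeval T' : κ[X] →ₐ[κ] C).toRingHom (rt j) (f j) = 0)
      {z : C} (hz0 : z ≠ 0)
      (hzp : z ^ p ∈ IntermediateField.adjoin κ (insert T' (Set.range rt)))
      {bad : κ[X]} (hbad0 : bad ≠ 0) (hbadd : bad.natDegree ≤ M)
      (hin : ∀ V : ValuationSubring C, (∀ c ∈ κ, c ∈ V) → ∀ t₀ : κ,
        V.valuation (T' - t₀) < 1 → bad.eval t₀ ≠ 0 →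
        ∀ σ : C ≃+* C, Inert (IntermediateField.adjoin κ (insert T' (Set.range rt))).toSubfield V σ →
          σ z = z),
      DataR κ (Subfield.closure ((κ : Set C) ∪ {T'})) T' D 0 p B
        (fun (_ : Fin (0 + 1)) (l : Fin (M + 1)) => ((bad.coeff l : κ) : C)) rt z := by
  classical
  set e := M with he_def
  set N := _root_.UL.bndN r D m' e with hN
  set B₀ := _root_.UL.bndC r D m' (p * N) + _root_.UL.bndC r D m' N + D ^ r + D ^ r * (p * N) with hB₀
  refine ⟨B₀ + 1, Nat.succ_pos _, ?_⟩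
  intro C _ _ _ κ hcl T' htr halg rt f hf0 hfD hfm hfrt z hz0 hzp bad hbad0 hbadd hin
  -- the function field
  let E : IntermediateField κ C := IntermediateField.adjoin κ (insert T' (Set.range rt))
  have hTM : T' ∈ E := IntermediateField.subset_adjoin _ _ (by simp)
  have hrM : ∀ j, rt j ∈ E := fun j => IntermediateField.subset_adjoin _ _ (by simp)
  let tM : E := ⟨T', hTM⟩
  let rM : Fin r → E := fun j => ⟨rt j, hrM j⟩
  have hκM : ∀ c ∈ κ, c ∈ E := fun c hc => E.algebraMap_mem ⟨c, hc⟩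
  have htM : Transcendental κ tM := by
    intro h
    exact htr (h.algebraMap (A := C))
  have hgen : IntermediateField.adjoin κ (insert tM (Set.range rM)) = ⊤ := by
    apply IntermediateField.lift_injective E
    rw [IntermediateField.lift_adjoin, IntermediateField.lift_top]
    rw [Set.image_insert_eq, ← Set.range_comp]
    rfl
  have hfx : ∀ j, eval₂ (aeval tM : κ[X] →ₐ[κ] E).toRingHom (rM j) (f j) = 0 := by
    intro j
    apply E.val.injective
    rw [map_zero, ← hfrt j]
    have h1 := Polynomial.hom_eval₂ (f j) (aeval tM : κ[X] →ₐ[κ] E).toRingHom E.val.toRingHom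
      (rM j)
    refine h1.trans ?_
    congr 1
    refine RingHom.ext fun q => ?_
    exact _root_.UL.coe_aeval tM q
  choose cf hcf1 hcf2 hcf3 using fun j => exists_rel_exact (hf0 j) (hfD j) (hfm j) (hfx j)
  have hcf : ∀ j, ∀ i ≤ D, (cf j i).natDegree ≤ m' := fun j i _ => hcf1 j i
  have htop : IntermediateField.adjoin κ⟮tM⟯ (Set.range rM) = ⊤ := by
    have h2 := IntermediateField.adjoin_adjoin_left κ ({tM} : Set E) (Set.range rM)
    apply IntermediateField.restrictScalars_injective κ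
    rw [h2, IntermediateField.restrictScalars_top, ← hgen]
    rfl
  have hspan := _root_.UL.span_roots htM hD cf hcf2 rM hcf3 htop
  have hfin : FiniteDimensional κ⟮tM⟯ E :=
    Module.Finite.of_fg_top ⟨(Set.finite_range _).toFinset, by
      rw [Set.Finite.coe_toFinset]; exact hspan⟩
  have hFM : IsFunctionField κ E := ⟨tM, htM, hfin⟩
  have hrank := _root_.UL.finrank_le htM hD cf hcf2 rM hcf3 htop
  let δ : E := ⟨z ^ p, hzp⟩
  have hδ : δ ≠ 0 := by
    intro h
    exact pow_ne_zero p hz0 (congrArg Subtype.val h)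
  -- `C` is an algebraic closure of `E`
  have hCM : IsAlgClosure E C := by
    refine ⟨inferInstance, ⟨fun x => ?_⟩⟩
    have hle : (IntermediateField.adjoin κ {T'}).toSubfield ≤ E.toSubfield := by
      have h1 : IntermediateField.adjoin κ {T'} ≤ E := by
        rw [IntermediateField.adjoin_simple_le_iff]
        exact hTM
      exact h1
    exact isAlgebraic_mono (K := (IntermediateField.adjoin κ {T'}).toSubfield)
      (K' := E.toSubfield) hle (halg x)
  have hM0 : CharZero E := charZero_of_injective_algebraMap (algebraMap κ E).injective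
  -- the divisibility
  have hdvd : ∀ (P : Place κ E) (t₀ : κ), tM - algebraMap κ E t₀ ∈ P.ring.nonunits →
      bad.eval t₀ ≠ 0 → (p : ℤ) ∣ ord P.ring δ := by
    intro P t₀ hP ht₀
    by_contra hord
    obtain ⟨V, τ, hV1, hV2, hV3, hV4, hτ⟩ := _root_.UL.exists_inert (C := C) hFM P hp hδ hord
      (w := z) rfl
    apply hτ
    have hκV : ∀ c ∈ κ, c ∈ V := fun c hc => hV1 _ (P.algebraMap_mem ⟨c, hc⟩)
    refine hin V hκV t₀ (hV2 _ hP) ht₀ τ.toRingEquiv ⟨?_, hV3, hV4⟩
    intro x hx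
    exact τ.commutes ⟨x, hx⟩
  have hdiv : ∀ z ∉ bad.roots.toFinset, ∀ Q : Place κ E, tM - algebraMap κ E z ∈ Q.ring.nonunits →
      (p : ℤ) ∣ ord Q.ring δ := by
    intro z hz Q hQ
    refine hdvd Q z hQ ?_
    intro h0
    apply hz
    rw [Multiset.mem_toFinset, mem_roots hbad0]
    exact h0
  obtain ⟨g₁, g₂, hg₁, hg₂, hr₁, hr₂, hA₁, hA₂, hq, hor⟩ := _root_.UL.exists_pair_roots hFM htM hD cf
    hcf hcf2 rM hcf3 htop (s := e) hp.pos bad.roots.toFinset
    ((Multiset.toFinset_card_le _).trans ((card_roots' bad).trans hbadd)) hδ hdiv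
  obtain ⟨χ₁, hχ₁1, hχ₁2, hχ₁3, hχ₁4, hχ₁5⟩ := _root_.UL.exists_chi hFM htM
    (mul_ne_zero hδ (pow_ne_zero p hg₁)) hr₁ hA₁
  obtain ⟨χ₂, hχ₂1, hχ₂2, hχ₂3, hχ₂4, hχ₂5⟩ := _root_.UL.exists_chi hFM htM
    (mul_ne_zero hδ (pow_ne_zero p hg₂)) hr₂ hA₂
  have hle1 : Module.finrank κ⟮tM⟯ E * (p * N) ≤ B₀ := by
    have := Nat.mul_le_mul_right (p * N) hrank
    omega
  have hle2 : Module.finrank κ⟮tM⟯ E ≤ B₀ := by omega
  -- coordinates of `g₁`
  have hG : ∃ G : (Fin r → Fin D) → E, (∀ β, G β ∈ κ⟮tM⟯) ∧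
      g₁ = ∑ β, G β * ∏ j, rM j ^ (β j : ℕ) := by
    have h1 : g₁ ∈ Submodule.span κ⟮tM⟯ (Set.range fun b : Fin r → Fin D =>
        ∏ j, rM j ^ (b j : ℕ)) := by rw [hspan]; trivial
    rw [Submodule.mem_span_range_iff_exists_fun] at h1
    obtain ⟨c, hc⟩ := h1
    refine ⟨fun β => (c β : κ⟮tM⟯), fun β => Subtype.coe_prop _, ?_⟩
    rw [← hc]
    refine Finset.sum_congr rfl fun β _ => ?_
    rw [Algebra.smul_def]
    rfl
  obtain ⟨G, hG1, hG2⟩ := hG
  obtain ⟨c, hc, hceq, hcv⟩ := _root_.UL.exists_coeffs (B := B₀ + 1) hχ₁1 (hχ₁2.trans (by omega))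
    (fun i => (hχ₁3 i).trans (hle1.trans (Nat.le_succ _))) hχ₁4
  obtain ⟨c', hc', hceq', hcv'⟩ := _root_.UL.exists_coeffs (B := B₀ + 1) hχ₂1 (hχ₂2.trans (by omega))
    (fun i => (hχ₂3 i).trans (hle1.trans (Nat.le_succ _))) hχ₂4
  have e1 : ((δ * g₁ ^ p : E) : C) = (z * (g₁ : C)) ^ p := by
    rw [mul_pow]; rfl
  have e2 : ((δ * g₂ ^ p : E) : C) = (z * (g₁ : C) * ((g₂ / g₁ : E) : C)) ^ p := by
    have h1 : (g₁ : C) * ((g₂ / g₁ : E) : C) = (g₂ : C) := by
      have h2 : g₁ * (g₂ / g₁) = g₂ := mul_div_cancel₀ g₂ hg₁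
      exact congrArg Subtype.val h2
    rw [mul_assoc, h1, mul_pow]; rfl
  have hrtC : (fun j => (rM j : C)) = rt := rfl
  refine ⟨(g₁ : C), ((g₂ / g₁ : E) : C), fun β => (G β : C), c, c', ?_, ?_, ?_, ?_, ?_, ?_, hc, hc',
    ?_, ?_, ?_⟩
  · intro h; exact hg₁ (Subtype.ext h)
  · intro h; exact div_ne_zero hg₂ hg₁ (Subtype.ext h)
  · intro β
    have h1 : (κ⟮tM⟯ : IntermediateField κ E).toSubfield ≤
        (Subfield.closure ((κ : Set C) ∪ {T'})).comap E.val.toRingHom := by
      rw [IntermediateField.adjoin_toSubfield, Subfield.closure_le]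
      rintro x (⟨y, rfl⟩ | hx)
      · exact Subfield.subset_closure (Or.inl y.2)
      · rw [Set.mem_singleton_iff.mp hx]
        exact Subfield.subset_closure (Or.inr rfl)
    exact h1 (hG1 β)
  · have h1 := congrArg (E.val : E → C) hG2
    change (g₁ : C) = _ at h1
    rw [h1, map_sum]
    refine Finset.sum_congr rfl fun β _ => ?_
    rw [map_mul, map_prod]
    rfl
  · rw [← e1, ← hrtC]
    exact cpxR_of_coords (N := _root_.UL.bndC r D m' (p * N)) (by omega)
      (_root_.UL.exists_coords_roots hFM htM hD cf hcf hcf2 rM hcf3 htop _ hA₁)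
  · rw [← hrtC]
    exact cpxR_of_coords (N := _root_.UL.bndC r D m' N) (by omega)
      (_root_.UL.exists_coords_roots hFM htM hD cf hcf hcf2 rM hcf3 htop _ hq)
  · rw [← e1]; exact hceq
  · rw [← e2]; exact hceq'
  · intro t₀ ht₀ hgood i hi
    obtain ⟨hl, -⟩ := hgood
    let s₀ : κ := ⟨t₀, ht₀⟩
    have hb : bad.eval s₀ ≠ 0 := by
      intro h0
      apply hl
      rw [eval_eq_sum_range' (n := M + 1) (by omega), Finset.sum_range] at h0
      have h5 := congrArg (κ.subtype) h0
      rw [map_sum, map_zero] at h5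
      rw [← h5]
      refine Finset.sum_congr rfl fun l _ => ?_
      rw [map_mul, map_pow]
      rfl
    have ht₀S : s₀ ∉ bad.roots.toFinset := by
      intro h
      rw [Multiset.mem_toFinset, mem_roots hbad0] at h
      exact hb h
    rcases hor s₀ ht₀S with h | h
    · exact Or.inl (hcv s₀ (hχ₁5 s₀ h) i hi)
    · exact Or.inr (hcv' s₀ (hχ₂5 s₀ h) i hi)

end Pool.Agent.PL
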