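import Mathlib

/-!
# Project PL: finite group theory
-/

set_option autoImplicit false

namespace Pool.Agent.PL13

open MulAction

/-- (G1) if `Γ / K` is commutative then the centralizer of every element has at least `[Γ : K]`
elements. -/
theorem index_le_centralizer {Γ : Type*} [Group Γ] [Finite Γ] (K : Subgroup Γ)
    (hK : ∀ a b : Γ, a * b * a⁻¹ * b⁻¹ ∈ K) (s : Γ) :
    K.index ≤ Nat.card (Subgroup.centralizer {s}) := by
  classical
  -- the conjugates of `s` are in the coset `K s`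
  have h1 : Nat.card (orbit (ConjAct Γ) s) * Nat.card (stabilizer (ConjAct Γ) s) =
      Nat.card (ConjAct Γ) := by
    have := Fintype.ofFinite Γ
    have : Fintype (ConjAct Γ) := Fintype.ofFinite _
    rw [Nat.card_eq_fintype_card, Nat.card_eq_fintype_card, Nat.card_eq_fintype_card]
    exact card_orbit_mul_card_stabilizer_eq_card_group (ConjAct Γ) s
  have h2 : Nat.card (orbit (ConjAct Γ) s) ≤ Nat.card K := by
    refine Nat.card_le_card_of_injective (fun x : orbit (ConjAct Γ) s =>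
      (⟨(x : Γ) * s⁻¹, ?_⟩ : K)) ?_
    · obtain ⟨g, hg⟩ := x.2
      have h3 : (x : Γ) = ConjAct.ofConjAct g * s * (ConjAct.ofConjAct g)⁻¹ := by
        rw [← hg]
        exact ConjAct.smul_def g s
      rw [h3]
      exact hK _ _
    · intro x y hxy
      have h3 := congrArg Subtype.val hxy
      exact Subtype.ext (mul_right_cancel h3)
  have h3 : Nat.card (stabilizer (ConjAct Γ) s) = Nat.card (Subgroup.centralizer {s}) := by
    refine Nat.card_congr ((ConjAct.ofConjAct (G := Γ)).toEquiv.subtypeEquiv fun g => ?_)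
    rw [mem_stabilizer_iff, ConjAct.smul_def, Subgroup.mem_centralizer_singleton_iff]
    constructor
    · intro h
      have h4 := congrArg (· * ConjAct.ofConjAct g) h
      simp only [inv_mul_cancel_right] at h4
      exact h4
    · intro h
      have h4 : ConjAct.ofConjAct g * s = s * ConjAct.ofConjAct g := h
      rw [h4, mul_inv_cancel_right]
  have h4 : Nat.card K * K.index = Nat.card Γ := K.card_mul_index
  have h5 : Nat.card (ConjAct Γ) = Nat.card Γ := rfl
  rw [h3, h5] at h1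
  have h6 : 0 < Nat.card K := Nat.card_pos
  by_contra hlt
  rw [not_le] at hlt
  have h7 : Nat.card (orbit (ConjAct Γ) s) * Nat.card (Subgroup.centralizer {s}) <
      Nat.card K * K.index :=
    lt_of_le_of_lt (Nat.mul_le_mul_right _ h2) (Nat.mul_lt_mul_of_pos_left hlt h6)
  omega

/-- (G2) the fixed points of a stabilizer -/
theorem card_fix_dvd {Γ Ω : Type*} [Group Γ] [Finite Γ] [MulAction Γ Ω] [IsPretransitive Γ Ω]
    {ℓ : ℕ} [Fact ℓ.Prime] (hΓ : IsPGroup ℓ Γ) (ω₀ : Ω)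
    (hS : Nat.card (stabilizer Γ ω₀) = ℓ) (hne : Nat.card Γ ≠ ℓ) :
    ℓ ∣ Nat.card {ω : Ω // ∀ g ∈ stabilizer Γ ω₀, g • ω = ω} := by
  classical
  have hfin : Finite Ω := Finite.of_surjective (fun g : Γ => g • ω₀) fun ω => exists_smul_eq Γ ω₀ ω
  have h1 : Nat.card Ω * ℓ = Nat.card Γ := by
    have h2 : (orbit Γ ω₀) = Set.univ := orbit_eq_univ Γ ω₀
    have h3 : Nat.card (orbit Γ ω₀) * Nat.card (stabilizer Γ ω₀) = Nat.card Γ := by
      have := Fintype.ofFinite Γ
      have := Fintype.ofFinite Ω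
      rw [Nat.card_eq_fintype_card, Nat.card_eq_fintype_card, Nat.card_eq_fintype_card]
      exact card_orbit_mul_card_stabilizer_eq_card_group Γ ω₀
    rw [h2, hS, Nat.card_congr (Equiv.Set.univ Ω)] at h3
    exact h3
  have hp : IsPGroup ℓ (stabilizer Γ ω₀) := hΓ.to_subgroup _
  have h4 := hp.card_modEq_card_fixedPoints Ω
  have h5 : ℓ ∣ Nat.card Ω := by
    obtain ⟨n, hn⟩ := IsPGroup.iff_card.1 hΓ
    have hpr : ℓ.Prime := Fact.out
    have hn2 : 2 ≤ n := by
      rcases n with _ | _ | n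
      · rw [pow_zero] at hn
        rw [hn] at h1
        have h6 : ℓ ∣ 1 := ⟨Nat.card Ω, by rw [mul_comm]; exact h1.symm⟩
        exact absurd (Nat.dvd_one.1 h6) hpr.one_lt.ne'
      · exact absurd (by rw [hn, zero_add, pow_one]) hne
      · omega
    obtain ⟨m, rfl⟩ : ∃ m, n = m + 2 := ⟨n - 2, by omega⟩
    refine ⟨ℓ ^ m, ?_⟩
    have h6 : Nat.card Ω * ℓ = (ℓ * ℓ ^ m) * ℓ := by
      rw [h1, hn]
      ring
    exact Nat.eq_of_mul_eq_mul_right hpr.pos h6
  have h6 : Nat.card {ω : Ω // ∀ g ∈ stabilizer Γ ω₀, g • ω = ω} =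
      Nat.card (fixedPoints (stabilizer Γ ω₀) Ω) := by
    refine Nat.card_congr (Equiv.subtypeEquivRight fun ω => ?_)
    constructor
    · intro h g
      exact h g g.2
    · intro h g hg
      exact h ⟨g, hg⟩
  rw [h6]
  exact (Nat.modEq_zero_iff_dvd.1 (h4.symm.trans (Nat.modEq_zero_iff_dvd.2 h5)))

/-- (G2') the number of the fixed points of a cyclic stabilizer -/
theorem index_le_fix {Γ Ω : Type*} [Group Γ] [Finite Γ] [MulAction Γ Ω] [Finite Ω] (ω₀ : Ω) (s : Γ)
    (hs : ∀ g ∈ stabilizer Γ ω₀, g ∈ Subgroup.zpowers s) (K : Subgroup Γ)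
    (hK : ∀ a b : Γ, a * b * a⁻¹ * b⁻¹ ∈ K) :
    K.index ≤ Nat.card (stabilizer Γ ω₀) *
      Nat.card {ω : Ω // ∀ g ∈ stabilizer Γ ω₀, g • ω = ω} := by
  classical
  refine (index_le_centralizer K hK s).trans ?_
  -- the orbit of `ω₀` under the centralizer
  let C := Subgroup.centralizer {s}
  have h1 : Nat.card (orbit C ω₀) * Nat.card (stabilizer C ω₀) = Nat.card C := by
    have := Fintype.ofFinite C
    have := Fintype.ofFinite Ω
    rw [Nat.card_eq_fintype_card, Nat.card_eq_fintype_card, Nat.card_eq_fintype_card]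
    exact card_orbit_mul_card_stabilizer_eq_card_group C ω₀
  have h2 : Nat.card (stabilizer C ω₀) ≤ Nat.card (stabilizer Γ ω₀) := by
    refine Nat.card_le_card_of_injective (fun g : stabilizer C ω₀ =>
      (⟨((g : C) : Γ), g.2⟩ : stabilizer Γ ω₀)) ?_
    intro g g' h
    have h' := congrArg Subtype.val h
    exact Subtype.ext (Subtype.ext h')
  have h3 : Nat.card (orbit C ω₀) ≤ Nat.card {ω : Ω // ∀ g ∈ stabilizer Γ ω₀, g • ω = ω} := by
    refine Nat.card_le_card_of_injective (fun x : orbit C ω₀ =>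
      (⟨(x : Ω), ?_⟩ : {ω : Ω // ∀ g ∈ stabilizer Γ ω₀, g • ω = ω})) ?_
    · intro g hg
      obtain ⟨c, hc⟩ := x.2
      have h4 : g * (c : Γ) = (c : Γ) * g := by
        obtain ⟨n, rfl⟩ := hs g hg
        have h5 : Commute s (c : Γ) := by
          have := Subgroup.mem_centralizer_singleton_iff.1 c.2
          exact this.symm
        exact h5.zpow_left n
      rw [← hc]
      change g • ((c : Γ) • ω₀) = (c : Γ) • ω₀
      rw [← mul_smul, h4, mul_smul, hg]
    · intro x y h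
      have h' := congrArg Subtype.val h
      exact Subtype.ext h'
  calc Nat.card (Subgroup.centralizer {s}) = Nat.card (orbit C ω₀) * Nat.card (stabilizer C ω₀) :=
        h1.symm
    _ ≤ Nat.card {ω : Ω // ∀ g ∈ stabilizer Γ ω₀, g • ω = ω} * Nat.card (stabilizer Γ ω₀) :=
        Nat.mul_le_mul h3 h2
    _ = _ := mul_comm _ _

/-- (G3) the barycentre: `Z` is commutative of exponent `ℓ` and simply transitive on `Ω`, `G` acts on
`Ω` and normalises `Z`; if a finite nonempty stable subset has a number of elements prime to `ℓ` then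
there is a fixed point. -/
theorem exists_fixed_of_torsor {Z G Ω : Type*} [CommGroup Z] [Group G] [MulAction Z Ω]
    [MulAction G Ω] {ℓ : ℕ} (hℓ : ℓ.Prime) (hZ : ∀ z : Z, z ^ ℓ = 1)
    (htr : ∀ ω ω' : Ω, ∃ z : Z, z • ω = ω') (hfr : ∀ (z : Z) (ω : Ω), z • ω = ω → z = 1)
    (hno : ∀ (g : G) (z : Z), ∃ z' : Z, ∀ ω : Ω, g • (z • ω) = z' • (g • ω))
    (O : Finset Ω) (hO : ∀ (g : G), ∀ ω ∈ O, g • ω ∈ O) (hne : O.Nonempty) (hcard : ¬ ℓ ∣ O.card) :
    ∃ ω : Ω, ∀ g : G, g • ω = ω := by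
  classical
  obtain ⟨ω₀, hω₀⟩ := hne
  choose z hz using fun ω => htr ω₀ ω
  choose c hc using hno
  -- `c g` is multiplicative
  have huniq : ∀ (a b : Z) (ω : Ω), a • ω = b • ω → a = b := by
    intro a b ω h
    have h1 : (b⁻¹ * a) • ω = ω := by rw [mul_smul, h, inv_smul_smul]
    have h2 := hfr _ _ h1
    rw [inv_mul_eq_one] at h2
    exact h2.symm
  have hcmul : ∀ (g : G) (a b : Z), c g (a * b) = c g a * c g b := by
    intro g a b
    refine huniq _ _ (g • ω₀) ?_
    rw [← hc g (a * b) ω₀, mul_smul, hc g a, hc g b, mul_smul]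
  let φ : G → Z →* Z := fun g =>
    { toFun := c g
      map_one' := by
        refine huniq _ _ (g • ω₀) ?_
        rw [← hc g 1 ω₀, one_smul, one_smul]
      map_mul' := hcmul g }
  -- the relation `z (g ω) = c g (z ω) * z (g ω₀)`
  have hrel : ∀ (g : G) (ω : Ω), z (g • ω) = c g (z ω) * z (g • ω₀) := by
    intro g ω
    refine huniq _ _ ω₀ ?_
    rw [hz (g • ω), mul_smul, hz (g • ω₀), ← hc g (z ω) ω₀, hz ω]
  obtain ⟨m', hm'⟩ : ∃ m' : ℕ, O.card * m' ≡ 1 [MOD ℓ] := by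
    have hco : Nat.Coprime O.card ℓ := (Nat.Prime.coprime_iff_not_dvd hℓ).2 hcard |>.symm
    obtain ⟨m', hm'⟩ := Nat.exists_mul_mod_eq_one_of_coprime hco hℓ.one_lt
    exact ⟨m', by rw [Nat.ModEq, hm'.2, Nat.mod_eq_of_lt hℓ.one_lt]⟩
  have hpow : ∀ a : Z, (a ^ O.card) ^ m' = a := by
    intro a
    rw [← pow_mul]
    have h1 : orderOf a ∣ ℓ := orderOf_dvd_of_pow_eq_one (hZ a)
    have h2 : O.card * m' ≡ 1 [MOD orderOf a] := hm'.of_dvd h1
    have h3 := pow_eq_pow_iff_modEq.2 h2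
    rw [h3, pow_one]
  refine ⟨(∏ ω ∈ O, z ω) ^ m' • ω₀, fun g => ?_⟩
  rw [hc g, ← hz (g • ω₀), ← mul_smul]
  congr 1
  have h1 : c g ((∏ ω ∈ O, z ω) ^ m') = (∏ ω ∈ O, c g (z ω)) ^ m' := by
    change φ g _ = _
    rw [map_pow, map_prod]
    rfl
  have h2 : ∏ ω ∈ O, c g (z ω) = (∏ ω ∈ O, z ω) * (z (g • ω₀) ^ O.card)⁻¹ := by
    have h3 : ∏ ω ∈ O, z (g • ω) = ∏ ω ∈ O, z ω := by
      refine Finset.prod_bij (fun ω _ => g • ω) (fun ω hω => hO g ω hω) ?_ ?_ ?_
      · intro a _ b _ h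
        exact smul_left_cancel g h
      · intro b hb
        exact ⟨g⁻¹ • b, hO g⁻¹ b hb, smul_inv_smul g b⟩
      · intro a _
        rfl
    rw [← h3, Finset.prod_congr rfl fun ω _ => hrel g ω, Finset.prod_mul_distrib,
      Finset.prod_const, mul_inv_cancel_right]
  rw [h1, h2, mul_pow, inv_pow, hpow, inv_mul_cancel_right]

/-- (G3') the barycentre, with the index of a subgroup. -/
theorem exists_fixed_of_index {Z G Ω : Type*} [CommGroup Z] [Group G] [MulAction Z Ω]
    [MulAction G Ω] {ℓ : ℕ} (hℓ : ℓ.Prime) (hZ : ∀ z : Z, z ^ ℓ = 1)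
    (htr : ∀ ω ω' : Ω, ∃ z : Z, z • ω = ω') (hfr : ∀ (z : Z) (ω : Ω), z • ω = ω → z = 1)
    (hno : ∀ (g : G) (z : Z), ∃ z' : Z, ∀ ω : Ω, g • (z • ω) = z' • (g • ω))
    (H : Subgroup G) (hH : ¬ ℓ ∣ H.index) (ω₀ : Ω) (hω₀ : ∀ g ∈ H, g • ω₀ = ω₀) :
    ∃ ω : Ω, ∀ g : G, g • ω = ω := by
  classical
  have h1 : H ≤ stabilizer G ω₀ := fun g hg => hω₀ g hg
  have h2 : (stabilizer G ω₀).index ∣ H.index := Subgroup.index_dvd_of_le h1
  have h3 : ¬ ℓ ∣ (stabilizer G ω₀).index := fun h => hH (h.trans h2)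
  have h4 : (stabilizer G ω₀).index ≠ 0 := by
    intro h
    rw [h] at h3
    exact h3 (dvd_zero _)
  have h5 : Nat.card (orbit G ω₀) = (stabilizer G ω₀).index :=
    (Nat.card_congr (orbitEquivQuotientStabilizer G ω₀))
  have h6 : Finite (orbit G ω₀) := Nat.finite_of_card_ne_zero (by rw [h5]; exact h4)
  have h7 : (orbit G ω₀).Finite := h6
  refine exists_fixed_of_torsor (G := G) hℓ hZ htr hfr hno h7.toFinset ?_ ?_ ?_
  · intro g ω hω
    rw [Set.Finite.mem_toFinset] at hω ⊢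
    obtain ⟨g', rfl⟩ := hω
    exact ⟨g * g', mul_smul g g' ω₀⟩
  · exact ⟨ω₀, by rw [Set.Finite.mem_toFinset]; exact mem_orbit_self ω₀⟩
  · rw [← Nat.card_eq_card_finite_toFinset h7, h5]
    exact h3

/-- an automorphism of prime order `q ≠ ℓ` of a finite `ℓ`-group which is trivial modulo the Frattini
subgroup is trivial -/
theorem eq_one_of_frattini {Γ : Type*} [Group Γ] [Finite Γ] {ℓ q : ℕ} [Fact ℓ.Prime] [Fact q.Prime]
    (hΓ : IsPGroup ℓ Γ) (hq : q ≠ ℓ) (γ : MulAut Γ) (hγq : γ ^ q = 1)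
    (hγ : ∀ x : Γ, x⁻¹ * γ x ∈ frattini Γ) : γ = 1 := by
  classical
  -- the subgroup of the fixed elements
  let F : Subgroup Γ :=
    { carrier := {x | γ x = x}
      mul_mem' := fun {a b} ha hb => by
        have ha' : γ a = a := ha
        have hb' : γ b = b := hb
        change γ (a * b) = a * b
        rw [map_mul, ha', hb']
      one_mem' := map_one γ
      inv_mem' := fun {a} ha => by
        have ha' : γ a = a := ha
        change γ a⁻¹ = a⁻¹
        rw [map_inv, ha'] }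
  have hF : F = ⊤ := by
    refine frattini_nongenerating ?_
    rw [eq_top_iff]
    intro x _
    have hst : ∀ y : Γ, x⁻¹ * y ∈ frattini Γ → x⁻¹ * γ y ∈ frattini Γ := by
      intro y hy
      have h2 := (frattini Γ).mul_mem hy (hγ y)
      have h3 : x⁻¹ * y * (y⁻¹ * γ y) = x⁻¹ * γ y := by group
      rwa [h3] at h2
    have hpw : ∀ (n : ℕ) (y : Γ), (γ ^ (n + 1)) y = γ ((γ ^ n) y) := by
      intro n y
      rw [pow_succ']
      rfl
    have hstn : ∀ (n : ℕ) (y : Γ), x⁻¹ * y ∈ frattini Γ → x⁻¹ * (γ ^ n) y ∈ frattini Γ := by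
      intro n
      induction n with
      | zero => intro y hy; exact hy
      | succ n ih =>
        intro y hy
        rw [hpw]
        exact hst _ (ih y hy)
    have hq0 : 0 < q := (Fact.out : q.Prime).pos
    have hq1 : q - 1 + 1 = q := Nat.sub_add_cancel hq0
    -- the permutation of the coset of `x`
    let σ : Equiv.Perm {y : Γ // x⁻¹ * y ∈ frattini Γ} :=
      { toFun := fun y => ⟨γ y, hst y y.2⟩
        invFun := fun y => ⟨(γ ^ (q - 1)) y, hstn _ y y.2⟩
        left_inv := fun y => by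
          apply Subtype.ext
          change (γ ^ (q - 1)) (γ (y : Γ)) = y
          have h1 : (γ ^ (q - 1)) (γ (y : Γ)) = (γ ^ (q - 1 + 1)) (y : Γ) := by
            rw [pow_succ]
            rfl
          rw [h1, hq1, hγq]
          rfl
        right_inv := fun y => by
          apply Subtype.ext
          change γ ((γ ^ (q - 1)) (y : Γ)) = y
          rw [← hpw, hq1, hγq]
          rfl }
    have hσ : ∀ (n : ℕ) (y : {y : Γ // x⁻¹ * y ∈ frattini Γ}),
        ((σ ^ n) y : Γ) = (γ ^ n) (y : Γ) := by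
      intro n
      induction n with
      | zero => intro y; rfl
      | succ n ih =>
        intro y
        rw [pow_succ', Equiv.Perm.mul_apply, hpw, ← ih]
        rfl
    have := Fintype.ofFinite {y : Γ // x⁻¹ * y ∈ frattini Γ}
    have hσq : σ ^ q ^ 1 = 1 := by
      rw [pow_one]
      apply Equiv.ext
      intro y
      apply Subtype.ext
      rw [hσ, hγq]
      rfl
    have hcard : Nat.card {y : Γ // x⁻¹ * y ∈ frattini Γ} = Nat.card (frattini Γ) :=
      Nat.card_congr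
        { toFun := fun y => ⟨x⁻¹ * y, y.2⟩
          invFun := fun y => ⟨x * y, by rw [inv_mul_cancel_left]; exact y.2⟩
          left_inv := fun y => Subtype.ext (mul_inv_cancel_left x (y : Γ))
          right_inv := fun y => Subtype.ext (inv_mul_cancel_left x (y : Γ)) }
    obtain ⟨m, hm⟩ := IsPGroup.iff_card.1 (hΓ.to_subgroup (frattini Γ))
    have hnd : ¬ q ∣ Fintype.card {y : Γ // x⁻¹ * y ∈ frattini Γ} := by
      rw [← Nat.card_eq_fintype_card, hcard, hm]
      intro h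
      exact hq ((Nat.prime_dvd_prime_iff_eq Fact.out Fact.out).1
        ((Fact.out : q.Prime).dvd_of_dvd_pow h))
    obtain ⟨y, hy⟩ := Equiv.Perm.exists_fixed_point_of_prime hnd hσq
    have hy' : γ (y : Γ) = y := congrArg Subtype.val hy
    have h1 : (y : Γ) ∈ F ⊔ frattini Γ := Subgroup.mem_sup_left hy'
    have h2 : (x⁻¹ * y)⁻¹ ∈ F ⊔ frattini Γ :=
      inv_mem (Subgroup.mem_sup_right y.2)
    have h3 : (y : Γ) * (x⁻¹ * y)⁻¹ = x := by group
    rw [← h3]
    exact mul_mem h1 h2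
  apply MulEquiv.ext
  intro x
  have h1 : x ∈ F := by rw [hF]; trivial
  exact h1

/-- (G4) Burnside: an automorphism of a finite `ℓ`-group, some `ℓ ^ m`-th power of which is trivial
modulo the Frattini subgroup, has order a power of `ℓ`. -/
theorem exists_pow_eq_one {Γ : Type*} [Group Γ] [Finite Γ] {ℓ : ℕ} [Fact ℓ.Prime]
    (hΓ : IsPGroup ℓ Γ) (α : MulAut Γ) (m : ℕ)
    (hα : ∀ x : Γ, x⁻¹ * (α ^ ℓ ^ m) x ∈ frattini Γ) : ∃ n : ℕ, α ^ ℓ ^ n = 1 := by
  classical
  have hpr : ℓ.Prime := Fact.out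
  have hfinA : Finite (MulAut Γ) := by
    refine Finite.of_injective (fun f : MulAut Γ => (f : Γ → Γ)) ?_
    intro f g h
    exact MulEquiv.ext fun x => congrFun h x
  let β : MulAut Γ := α ^ ℓ ^ m
  have hβfr : ∀ (n : ℕ) (x : Γ), x⁻¹ * (β ^ n) x ∈ frattini Γ := by
    intro n
    induction n with
    | zero =>
      intro x
      rw [pow_zero]
      change x⁻¹ * x ∈ frattini Γ
      rw [inv_mul_cancel]
      exact one_mem _
    | succ n ih =>
      intro x
      have h1 : (β ^ (n + 1)) x = β ((β ^ n) x) := by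
        rw [pow_succ']
        rfl
      rw [h1]
      have h2 := (frattini Γ).mul_mem (ih x) (hα ((β ^ n) x))
      have h3 : x⁻¹ * (β ^ n) x * (((β ^ n) x)⁻¹ * (α ^ ℓ ^ m) ((β ^ n) x)) =
        x⁻¹ * β ((β ^ n) x) := by group; rfl
      rwa [h3] at h2
  -- the order of `β` is a power of `ℓ`
  have hord : 0 < orderOf β := orderOf_pos β
  obtain ⟨a, n', hn', hn⟩ : ∃ a n' : ℕ, ¬ ℓ ∣ n' ∧ orderOf β = ℓ ^ a * n' :=
    Nat.exists_eq_pow_mul_and_not_dvd hord.ne' ℓ hpr.ne_one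
  have h1 : n' = 1 := by
    by_contra hne
    obtain ⟨q, hq, hqn⟩ := Nat.exists_prime_and_dvd hne
    have : Fact q.Prime := ⟨hq⟩
    obtain ⟨t, rfl⟩ := hqn
    have hq' : q ≠ ℓ := by
      rintro rfl
      exact hn' (dvd_mul_right _ _)
    let γ : MulAut Γ := β ^ (ℓ ^ a * t)
    have hγq : γ ^ q = 1 := by
      change (β ^ (ℓ ^ a * t)) ^ q = 1
      rw [← pow_mul]
      have h2 : ℓ ^ a * t * q = orderOf β := by rw [hn]; ring
      rw [h2, pow_orderOf_eq_one]
    have h2 : γ = 1 := eq_one_of_frattini hΓ hq' γ hγq (hβfr _)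
    have h3 : orderOf β ∣ ℓ ^ a * t := orderOf_dvd_of_pow_eq_one h2
    have h4 : 0 < ℓ ^ a * t := by
      rcases Nat.eq_zero_or_pos (ℓ ^ a * t) with h | h
      · exfalso
        rw [hn] at hord
        have h5 : ℓ ^ a * (q * t) = 0 := by
          rw [mul_left_comm, h, mul_zero]
        omega
      · exact h
    have h5 := Nat.le_of_dvd h4 h3
    rw [hn] at h5
    have h6 : ℓ ^ a * t * 2 ≤ ℓ ^ a * t * q := Nat.mul_le_mul_left _ hq.two_le
    have h7 : ℓ ^ a * (q * t) = ℓ ^ a * t * q := by ring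
    omega
  refine ⟨m + a, ?_⟩
  have h2 : β ^ ℓ ^ a = 1 := by
    rw [h1, mul_one] at hn
    rw [← hn, pow_orderOf_eq_one]
  rw [pow_add, pow_mul]
  exact h2

/-- (G5) a group which acts on a nontrivial finite `ℓ`-group through elements of order a power of `ℓ`
fixes an element of order `ℓ`. -/
theorem exists_fixed_order {A H : Type*} [Group A] [Group H] [Finite H] [MulDistribMulAction A H]
    {ℓ : ℕ} [Fact ℓ.Prime] (hH : IsPGroup ℓ H) (hne : ∃ h : H, h ≠ 1)
    (hA : ∀ a : A, ∃ n : ℕ, ∀ h : H, (a ^ ℓ ^ n) • h = h) :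
    ∃ h : H, h ≠ 1 ∧ h ^ ℓ = 1 ∧ ∀ a : A, a • h = h := by
  classical
  have hpr : ℓ.Prime := Fact.out
  let ρ : A →* Equiv.Perm H := MulAction.toPermHom A H
  have hP : IsPGroup ℓ ρ.range := by
    rintro ⟨_, ⟨a, rfl⟩⟩
    obtain ⟨n, hn⟩ := hA a
    refine ⟨n, ?_⟩
    apply Subtype.ext
    change (ρ a) ^ ℓ ^ n = 1
    rw [← map_pow]
    apply Equiv.ext
    intro h
    exact hn h
  have h1 := hP.card_modEq_card_fixedPoints H
  have hnt : Nontrivial H := by
    obtain ⟨h, hh⟩ := hne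
    exact ⟨h, 1, hh⟩
  have h2 : ℓ ∣ Nat.card H := by
    obtain ⟨n, hn⟩ := IsPGroup.iff_card.1 hH
    rcases n with _ | n
    · rw [pow_zero] at hn
      have := Finite.one_lt_card (α := H)
      omega
    · rw [hn, pow_succ]
      exact dvd_mul_left _ _
  obtain ⟨b, hb, hb1⟩ := hP.exists_fixed_point_of_prime_dvd_card_of_fixed_point H h2 (a := 1)
    (by
      rintro ⟨_, ⟨a, rfl⟩⟩
      change a • (1 : H) = 1
      exact smul_one a)
  have hbA : ∀ a : A, a • b = b := fun a => hb ⟨ρ a, ⟨a, rfl⟩⟩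
  obtain ⟨n, hn⟩ := hH b
  -- the smallest such power
  have hex : ∃ n : ℕ, b ^ ℓ ^ n = 1 := ⟨n, hn⟩
  let n₀ := Nat.find hex
  have hn₀ : b ^ ℓ ^ n₀ = 1 := Nat.find_spec hex
  have hn₀0 : n₀ ≠ 0 := by
    intro h0
    rw [h0, pow_zero, pow_one] at hn₀
    exact hb1 hn₀.symm
  obtain ⟨n₁, hn₁⟩ := Nat.exists_eq_succ_of_ne_zero hn₀0
  refine ⟨b ^ ℓ ^ n₁, ?_, ?_, ?_⟩
  · intro h
    have := Nat.find_min' hex h
    change n₀ ≤ n₁ at this
    omega
  · rw [← pow_mul, ← pow_succ, ← Nat.succ_eq_add_one, ← hn₁]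
    exact hn₀
  · intro a
    rw [smul_pow', hbA]

end Pool.Agent.PL13
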