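import Pool.Agent.Helper13.PL.K1
import Pool.Agent.Helper91.Section.Hilbert

/-!
# Project PLANE, block L: the constants attached to a Galois section of a plane curve
-/

universe u v

namespace Pool.Agent.PL

open MvPolynomial Pool.Agent.PC Pool.Agent.Helper91.Sect

section

variable {k K : Type u} [Field k] [Field K] [Algebra k K]

/-- an element of `kbar` which is fixed by all automorphisms fixing `A` is in `k(A)` -/
theorem mem_adjoin_of_fixed [CharZero k] {A : Set (kbar k K)} {z : kbar k K}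
    (h : ∀ σ : Gk k K, (∀ a ∈ A, σ a = a) → σ z = z) : z ∈ IntermediateField.adjoin k A := by
  have h1 := InfiniteGalois.fixedField_fixingSubgroup (K := kbar k K)
    (IntermediateField.adjoin k A)
  rw [← h1, IntermediateField.mem_fixedField_iff]
  intro σ hσ
  rw [IntermediateField.mem_fixingSubgroup_iff] at hσ
  exact h σ fun a ha => hσ a (IntermediateField.subset_adjoin k A ha)

theorem fix_adjoin {A : Set (kbar k K)} {σ : Gk k K} (hσ : ∀ a ∈ A, σ a = a) :
    σ ∈ (IntermediateField.adjoin k A).fixingSubgroup := by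
  have h3 : IntermediateField.adjoin k A ≤
      IntermediateField.fixedField (Subgroup.zpowers σ) := by
    rw [IntermediateField.adjoin_le_iff]
    intro z hz
    rw [SetLike.mem_coe, IntermediateField.mem_fixedField_iff]
    intro g hg
    rw [Subgroup.mem_zpowers_iff] at hg
    obtain ⟨n, rfl⟩ := hg
    have : σ ^ n ∈ MulAction.stabilizer (Gk k K) z := Subgroup.zpow_mem _ (hσ z hz) n
    exact this
  rw [IntermediateField.mem_fixingSubgroup_iff]
  intro z hz
  have h4 := h3 hz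
  rw [IntermediateField.mem_fixedField_iff] at h4
  exact h4 σ (Subgroup.mem_zpowers σ)

/-- the value of a polynomial at the point `(x, y)` -/
noncomputable def evP (x y : K) : MvPolynomial (Fin 2) (kbar k K) →ₐ[kbar k K]
    AlgebraicClosure K :=
  aeval ![algebraMap K (AlgebraicClosure K) x, algebraMap K (AlgebraicClosure K) y]

variable (s : GaloisSection k K) {x y : K}

theorem ext_pol {σ : Gk k K} {ρ : AlgebraicClosure K ≃ₐ[K] AlgebraicClosure K}
    (hρ : ∀ w : Kur k K, ρ w = s.toHom σ w) {n : ℕ} (g : Mon n → kbar k K) :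
    ρ (evP x y (pol g)) = evP x y (pol fun q => σ (g q)) := by
  unfold evP
  rw [aeval_pol, aeval_pol, map_sum]
  refine Finset.sum_congr rfl fun q _ => ?_
  rw [map_mul, map_mul, map_pow, map_pow, ρ.commutes, ρ.commutes]
  congr 1
  exact ext_const s hρ (g q)

/-- the set of roots of unity -/
abbrev mu (C : Type u) [Field C] (p : ℕ) : Set C := {ξ | ξ ^ p = 1}

theorem finite_mu (C : Type u) [Field C] {p : ℕ} (hp : p ≠ 0) : (mu C p).Finite := by
  classical
  refine Set.Finite.subset (Polynomial.nthRoots p (1 : C)).toFinset.finite_toSet ?_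
  intro ξ hξ
  rw [Finset.mem_coe, Multiset.mem_toFinset, Polynomial.mem_nthRoots (Nat.pos_of_ne_zero hp)]
  exact hξ

variable {p d n : ℕ} {G : Fin d → Mon n → kbar k K} {u : Fin d → AlgebraicClosure K}

/-- the constants `z i j` attached to the functions `u i / u j` -/
def IsZ (s : GaloisSection k K) (p : ℕ) (G : Fin d → Mon n → kbar k K)
    (u : Fin d → AlgebraicClosure K) (z : Fin d → Fin d → kbar k K) : Prop :=
  ∀ i j, i ≠ j → z i j ≠ 0 ∧ ∀ σ : Gk k K, (∀ ξ ∈ mu (kbar k K) p, σ ξ = ξ) →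
    (∀ q, σ (G i q) = G i q) → (∀ q, σ (G j q) = G j q) →
    ∀ ρ : AlgebraicClosure K ≃ₐ[K] AlgebraicClosure K, (∀ w : Kur k K, ρ w = s.toHom σ w) →
      ρ (u i / u j) * (z i j : AlgebraicClosure K) =
        ((σ (z i j) : kbar k K) : AlgebraicClosure K) * (u i / u j)

/-- a `p`-th root of unity in the algebraic closure of `K` is a constant -/
theorem exists_mu (hp : p ≠ 0) {ξ : AlgebraicClosure K} (h : ξ ^ p = 1) :
    ∃ ζ ∈ mu (kbar k K) p, (ζ : AlgebraicClosure K) = ξ := by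
  have h1 : IsAlgebraic k ξ := by
    apply IsAlgebraic.of_pow (Nat.pos_of_ne_zero hp)
    rw [h]
    exact isAlgebraic_one
  exact ⟨⟨ξ, mem_algebraicClosure_iff.2 h1⟩, Subtype.ext h, rfl⟩

theorem exists_z [CharZero k] (hp : p ≠ 0) (hu : ∀ i, u i ^ p = evP x y (pol (G i)))
    (hu0 : ∀ i, u i ≠ 0) (hK : ∀ i j, i ≠ j → u i / u j ∈ Kur k K) :
    ∃ z : Fin d → Fin d → kbar k K, IsZ s p G u z := by
  have key : ∀ i j, ∃ z : kbar k K, i ≠ j → z ≠ 0 ∧ ∀ σ : Gk k K,
      (∀ ξ ∈ mu (kbar k K) p, σ ξ = ξ) →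
    (∀ q, σ (G i q) = G i q) → (∀ q, σ (G j q) = G j q) →
    ∀ ρ : AlgebraicClosure K ≃ₐ[K] AlgebraicClosure K, (∀ w : Kur k K, ρ w = s.toHom σ w) →
      ρ (u i / u j) * (z : AlgebraicClosure K) =
        ((σ z : kbar k K) : AlgebraicClosure K) * (u i / u j) := by
    intro i j
    by_cases hij : i = j
    · exact ⟨0, fun h => absurd hij h⟩
    set A : Set (kbar k K) := mu (kbar k K) p ∪ (Set.range (G i) ∪ Set.range (G j)) with hA
    have hAf : A.Finite := (finite_mu _ hp).union ((Set.finite_range _).union (Set.finite_range _))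
    have hfd : FiniteDimensional k (IntermediateField.adjoin k A) := by
      have : Finite A := hAf
      exact IntermediateField.finiteDimensional_adjoin fun z _ => Algebra.IsIntegral.isIntegral z
    set g : Kur k K := ⟨u i / u j, hK i j hij⟩ with hg
    have hg0 : g ≠ 0 := by
      intro h0
      exact div_ne_zero (hu0 i) (hu0 j) (congrArg Subtype.val h0)
    have hfix : ∀ σ ∈ (IntermediateField.adjoin k A).fixingSubgroup,
        (∀ ξ ∈ mu (kbar k K) p, σ ξ = ξ) ∧ (∀ q, σ (G i q) = G i q) ∧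
        (∀ q, σ (G j q) = G j q) := by
      intro σ hσ
      rw [IntermediateField.mem_fixingSubgroup_iff] at hσ
      exact ⟨fun ξ hξ => hσ ξ (IntermediateField.subset_adjoin k A (Or.inl hξ)),
        fun q => hσ _ (IntermediateField.subset_adjoin k A (Or.inr (Or.inl ⟨q, rfl⟩))),
        fun q => hσ _ (IntermediateField.subset_adjoin k A (Or.inr (Or.inr ⟨q, rfl⟩)))⟩
    obtain ⟨e, he0, he⟩ := exists_fixed_mul s (IntermediateField.adjoin k A) g hg0 (by
      intro σ hσ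
      obtain ⟨h1, h2, h3⟩ := hfix σ hσ
      obtain ⟨ρ, hρ⟩ := exists_ext s σ
      have h4 : (ρ (u i / u j) / (u i / u j)) ^ p = 1 := by
        rw [div_pow, ← map_pow, div_pow, hu, hu, map_div₀, ext_pol s hρ, ext_pol s hρ]
        simp only [h2, h3]
        rw [← hu, ← hu]
        exact div_self (div_ne_zero (pow_ne_zero _ (hu0 i)) (pow_ne_zero _ (hu0 j)))
      obtain ⟨ζ, -, hζ⟩ := exists_mu (k := k) hp h4
      refine ⟨ζ, ?_⟩
      apply Subtype.ext
      rw [← hρ g]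
      change ρ (u i / u j) = (ζ : AlgebraicClosure K) * (u i / u j)
      rw [hζ, div_mul_cancel₀ _ (div_ne_zero (hu0 i) (hu0 j))])
    refine ⟨e⁻¹, fun _ => ⟨inv_ne_zero he0, ?_⟩⟩
    intro σ h1 h2 h3 ρ hρ
    have hσ : σ ∈ (IntermediateField.adjoin k A).fixingSubgroup := by
      apply fix_adjoin
      rintro a (ha | ⟨q, rfl⟩ | ⟨q, rfl⟩)
      · exact h1 a ha
      · exact h2 q
      · exact h3 q
    have h4 := congrArg Subtype.val (he σ hσ)
    rw [← hρ] at h4
    change ρ ((e : AlgebraicClosure K) * (u i / u j)) = (e : AlgebraicClosure K) * (u i / u j) at h4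
    rw [map_mul, ext_const s hρ] at h4
    have h5 : ((σ e : kbar k K) : AlgebraicClosure K) ≠ 0 := by
      intro h6
      exact he0 ((map_eq_zero σ).1 (Subtype.ext h6))
    have h6 : (e : AlgebraicClosure K) ≠ 0 := fun h7 => he0 (Subtype.ext h7)
    rw [map_inv₀]
    change ρ (u i / u j) * (e : AlgebraicClosure K)⁻¹ =
      ((σ e : kbar k K) : AlgebraicClosure K)⁻¹ * (u i / u j)
    rw [mul_inv_eq_iff_eq_mul₀ h6, eq_comm, mul_assoc, mul_comm (u i / u j), ← h4, ← mul_assoc,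
      inv_mul_cancel₀ h5, one_mul]
  choose z hz using key
  exact ⟨z, fun i j hij => hz i j hij⟩

variable {z : Fin d → Fin d → kbar k K}

/-- the `p`-th powers of the images of `u i / u j` -/
theorem ratio_pow (hu : ∀ i, u i ^ p = evP x y (pol (G i)))
    {σ : Gk k K} {ρ : AlgebraicClosure K ≃ₐ[K] AlgebraicClosure K}
    (hρ : ∀ w : Kur k K, ρ w = s.toHom σ w) {i j i' j' : Fin d}
    (hi : ∀ q, σ (G i q) = G i' q) (hj : ∀ q, σ (G j q) = G j' q) :
    (ρ (u i / u j)) ^ p = (u i' / u j') ^ p := by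
  rw [← map_pow, div_pow, hu, hu, map_div₀, ext_pol s hρ, ext_pol s hρ]
  simp only [hi, hj]
  rw [div_pow, hu, hu]

/-- the `p`-th powers -/
theorem z_pow [CharZero k] (hu : ∀ i, u i ^ p = evP x y (pol (G i))) (hu0 : ∀ i, u i ≠ 0)
    (hz : IsZ s p G u z) {i j : Fin d} (hij : i ≠ j) :
    z i j ^ p ∈ IntermediateField.adjoin k
      (mu (kbar k K) p ∪ (Set.range (G i) ∪ Set.range (G j))) := by
  apply mem_adjoin_of_fixed
  intro σ hσ
  obtain ⟨ρ, hρ⟩ := exists_ext s σ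
  have h2 : ∀ q, σ (G i q) = G i q := fun q => hσ _ (Or.inr (Or.inl ⟨q, rfl⟩))
  have h3 : ∀ q, σ (G j q) = G j q := fun q => hσ _ (Or.inr (Or.inr ⟨q, rfl⟩))
  obtain ⟨h0, h1⟩ := hz i j hij
  have h4 := congrArg (fun w => w ^ p) (h1 σ (fun ξ hξ => hσ _ (Or.inl hξ)) h2 h3 ρ hρ)
  simp only [mul_pow] at h4
  rw [ratio_pow s hu hρ h2 h3, mul_comm] at h4
  have h5 := mul_right_cancel₀ (pow_ne_zero p (div_ne_zero (hu0 i) (hu0 j))) h4
  apply Subtype.ext
  rw [map_pow]
  exact h5.symm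

/-- the cocycle relation -/
theorem z_coc [CharZero k] (hu0 : ∀ i, u i ≠ 0) (hz : IsZ s p G u z) {i j l : Fin d} (hij : i ≠ j)
    (hjl : j ≠ l) (hil : i ≠ l) : z i j * z j l / z i l ∈ IntermediateField.adjoin k
      (mu (kbar k K) p ∪ (Set.range (G i) ∪ Set.range (G j) ∪ Set.range (G l))) := by
  apply mem_adjoin_of_fixed
  intro σ hσ
  obtain ⟨ρ, hρ⟩ := exists_ext s σ
  have h2 : ∀ q, σ (G i q) = G i q := fun q => hσ _ (Or.inr (Or.inl (Or.inl ⟨q, rfl⟩)))
  have h3 : ∀ q, σ (G j q) = G j q := fun q => hσ _ (Or.inr (Or.inl (Or.inr ⟨q, rfl⟩)))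
  have h4 : ∀ q, σ (G l q) = G l q := fun q => hσ _ (Or.inr (Or.inr ⟨q, rfl⟩))
  have hμ : ∀ ξ ∈ mu (kbar k K) p, σ ξ = ξ := fun ξ hξ => hσ _ (Or.inl hξ)
  obtain ⟨n1, e1⟩ := hz i j hij
  obtain ⟨n2, e2⟩ := hz j l hjl
  obtain ⟨n3, e3⟩ := hz i l hil
  replace e1 := e1 σ hμ h2 h3 ρ hρ
  replace e2 := e2 σ hμ h3 h4 ρ hρ
  replace e3 := e3 σ hμ h2 h4 ρ hρ
  have hσ0 : ∀ w : kbar k K, w ≠ 0 → ((σ w : kbar k K) : AlgebraicClosure K) ≠ 0 := by
    intro w hw h6
    exact hw ((map_eq_zero σ).1 (Subtype.ext h6))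
  have hc0 : ∀ w : kbar k K, w ≠ 0 → (w : AlgebraicClosure K) ≠ 0 := fun w hw h7 =>
    hw (Subtype.ext h7)
  have hρ0 : ∀ w, ρ (u w) ≠ 0 := fun w h => hu0 w ((map_eq_zero ρ).1 h)
  rw [map_div₀] at e1 e2 e3
  have hui := hu0 i
  have huj := hu0 j
  have hul := hu0 l
  have hri := hρ0 i
  have hrj := hρ0 j
  have hrl := hρ0 l
  have hn1 := hc0 _ n1
  have hn2 := hc0 _ n2
  have hn3 := hc0 _ n3
  have hm1 := hσ0 _ n1
  have hm2 := hσ0 _ n2
  have hm3 := hσ0 _ n3
  apply Subtype.ext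
  rw [map_div₀, map_mul]
  change ((σ (z i j) : kbar k K) : AlgebraicClosure K) * ((σ (z j l) : kbar k K) : AlgebraicClosure K) /
    ((σ (z i l) : kbar k K) : AlgebraicClosure K) = (z i j : AlgebraicClosure K) *
    (z j l : AlgebraicClosure K) / (z i l : AlgebraicClosure K)
  have f1 : ((σ (z i j) : kbar k K) : AlgebraicClosure K) =
      ρ (u i) / ρ (u j) * (z i j : AlgebraicClosure K) / (u i / u j) := by
    rw [e1, mul_div_cancel_right₀ _ (div_ne_zero hui huj)]
  have f2 : ((σ (z j l) : kbar k K) : AlgebraicClosure K) =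
      ρ (u j) / ρ (u l) * (z j l : AlgebraicClosure K) / (u j / u l) := by
    rw [e2, mul_div_cancel_right₀ _ (div_ne_zero huj hul)]
  have f3 : ((σ (z i l) : kbar k K) : AlgebraicClosure K) =
      ρ (u i) / ρ (u l) * (z i l : AlgebraicClosure K) / (u i / u l) := by
    rw [e3, mul_div_cancel_right₀ _ (div_ne_zero hui hul)]
  rw [f1, f2, f3]
  field_simp

/-- equivariance -/
theorem z_equi [CharZero k] (hp : p ≠ 0) (hu : ∀ i, u i ^ p = evP x y (pol (G i)))
    (hu0 : ∀ i, u i ≠ 0) (hz : IsZ s p G u z) {τ : Gk k K} {i j i' j' : Fin d} (hij : i ≠ j) (hij' : i' ≠ j')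
    (hi : ∀ q, τ (G i q) = G i' q) (hj : ∀ q, τ (G j q) = G j' q) :
    τ (z i j) / z i' j' ∈ IntermediateField.adjoin k
      (mu (kbar k K) p ∪ (Set.range (G i') ∪ Set.range (G j'))) := by
  apply mem_adjoin_of_fixed
  intro σ hσ
  have h2 : ∀ q, σ (G i' q) = G i' q := fun q => hσ _ (Or.inr (Or.inl ⟨q, rfl⟩))
  have h3 : ∀ q, σ (G j' q) = G j' q := fun q => hσ _ (Or.inr (Or.inr ⟨q, rfl⟩))
  have hμ : ∀ ξ ∈ mu (kbar k K) p, σ ξ = ξ := fun ξ hξ => hσ _ (Or.inl hξ)
  -- the conjugate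
  set σ' : Gk k K := τ⁻¹ * σ * τ with hσ'
  have hinv : ∀ w : kbar k K, τ⁻¹ (τ w) = w := fun w => τ.symm_apply_apply w
  have hinv' : ∀ w : kbar k K, τ (τ⁻¹ w) = w := fun w => τ.apply_symm_apply w
  have hσ'a : ∀ w, σ' w = τ⁻¹ (σ (τ w)) := fun w => rfl
  have g2 : ∀ q, σ' (G i q) = G i q := by
    intro q
    rw [hσ'a, hi, h2, ← hi, hinv]
  have g3 : ∀ q, σ' (G j q) = G j q := by
    intro q
    rw [hσ'a, hj, h3, ← hj, hinv]
  have gμ : ∀ ξ ∈ mu (kbar k K) p, σ' ξ = ξ := by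
    intro ξ hξ
    have h4 : τ ξ ∈ mu (kbar k K) p := by
      change τ ξ ^ p = 1
      rw [← map_pow, hξ, map_one]
    rw [hσ'a, hμ _ h4, hinv]
  obtain ⟨ρ, hρ⟩ := exists_ext s σ
  obtain ⟨ρt, hρt⟩ := exists_ext s τ
  -- an extension of `s σ'`
  have hstab : ∀ w : Kur k K, ρt.symm (w : AlgebraicClosure K) =
      s.toHom τ⁻¹ w := by
    intro w
    rw [AlgEquiv.symm_apply_eq, hρt]
    have h4 : s.toHom τ (s.toHom τ⁻¹ w) = w := by
      change (s.toHom τ * s.toHom τ⁻¹) w = w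
      rw [← map_mul, mul_inv_cancel, map_one]
      rfl
    rw [h4]
  set ρ' : AlgebraicClosure K ≃ₐ[K] AlgebraicClosure K := (ρt.trans ρ).trans ρt.symm with hρ'def
  have hρ'' : ∀ w : Kur k K, ρ' w = s.toHom σ' w := by
    intro w
    change ρt.symm (ρ (ρt w)) = _
    rw [hρt, hρ, hstab, hσ', map_mul, map_mul]
    rfl
  obtain ⟨n1, e1⟩ := hz i j hij
  obtain ⟨n2, e2⟩ := hz i' j' hij'
  replace e1 := e1 σ' gμ g2 g3 ρ' hρ''
  replace e2 := e2 σ hμ h2 h3 ρ hρ
  -- `ρt (u i / u j) = ξ u i' / u j'`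
  have h5 : (ρt (u i / u j) / (u i' / u j')) ^ p = 1 := by
    rw [div_pow, ratio_pow s hu hρt hi hj]
    exact div_self (pow_ne_zero _ (div_ne_zero (hu0 _) (hu0 _)))
  obtain ⟨ζ, hζ, hζe⟩ := exists_mu (k := k) hp h5
  have hr0 : u i' / u j' ≠ 0 := div_ne_zero (hu0 _) (hu0 _)
  have h6 : ρt (u i / u j) = (ζ : AlgebraicClosure K) * (u i' / u j') := by
    rw [hζe, div_mul_cancel₀ _ hr0]
  -- apply `ρt` to `e1`
  have h7 := congrArg ρt e1
  rw [map_mul, map_mul, ext_const s hρt, ext_const s hρt, h6] at h7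
  have h8 : ρt (ρ' (u i / u j)) = ρ (ρt (u i / u j)) := by
    change ρt (ρt.symm (ρ (ρt (u i / u j)))) = _
    rw [AlgEquiv.apply_symm_apply]
  rw [h8, h6, map_mul, ext_const s hρ, hμ ζ hζ] at h7
  have h9 : τ (σ' (z i j)) = σ (τ (z i j)) := by rw [hσ'a, hinv']
  rw [h9] at h7
  -- `ρ (u i' / u j') * τ z = σ (τ z) * (u i' / u j')`
  have hζ0 : (ζ : AlgebraicClosure K) ≠ 0 := by
    intro h0
    have h10 : ζ = 0 := Subtype.ext h0
    rw [h10] at hζ
    change (0 : kbar k K) ^ p = 1 at hζ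
    rw [zero_pow hp] at hζ
    exact zero_ne_one hζ
  have h10 : ρ (u i' / u j') * ((τ (z i j) : kbar k K) : AlgebraicClosure K) =
      ((σ (τ (z i j)) : kbar k K) : AlgebraicClosure K) * (u i' / u j') := by
    apply mul_left_cancel₀ hζ0
    rw [← mul_assoc, h7]
    ring
  have hn2 : (z i' j' : AlgebraicClosure K) ≠ 0 := fun h => n2 (Subtype.ext h)
  have hm2 : ((σ (z i' j') : kbar k K) : AlgebraicClosure K) ≠ 0 := fun h =>
    n2 ((map_eq_zero σ).1 (Subtype.ext h))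
  apply Subtype.ext
  rw [map_div₀]
  change ((σ (τ (z i j)) : kbar k K) : AlgebraicClosure K) /
    ((σ (z i' j') : kbar k K) : AlgebraicClosure K) =
    ((τ (z i j) : kbar k K) : AlgebraicClosure K) / (z i' j' : AlgebraicClosure K)
  rw [div_eq_div_iff hm2 hn2]
  apply mul_right_cancel₀ hr0
  calc ((σ (τ (z i j)) : kbar k K) : AlgebraicClosure K) * (z i' j' : AlgebraicClosure K) *
        (u i' / u j') = (((σ (τ (z i j)) : kbar k K) : AlgebraicClosure K) * (u i' / u j')) *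
        (z i' j' : AlgebraicClosure K) := by ring
    _ = ((τ (z i j) : kbar k K) : AlgebraicClosure K) *
        (ρ (u i' / u j') * (z i' j' : AlgebraicClosure K)) := by rw [← h10]; ring
    _ = _ := by rw [e2]; ring

/-- the product relation -/
theorem z_prod [CharZero k] {r nW nH : ℕ} (hp : p ≠ 0) (hd : d = p * r)
    (hu : ∀ i, u i ^ p = evP x y (pol (G i)))
    (hu0 : ∀ i, u i ≠ 0) (hz : IsZ s p G u z) {f : Mon d → kbar k K} (hf : evP x y (pol f) = 0)
    {W : Mon nW → kbar k K} {H : Mon nH → kbar k K} {T α : kbar k K}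
    (hprod : ∏ i, pol (G i) = C T * pol W ^ p + pol H * pol f) (hα : α ^ p = T) (i : Fin d) :
    α / ∏ j ∈ Finset.univ.erase i, z j i ∈ IntermediateField.adjoin k
      (mu (kbar k K) p ∪ ((⋃ j, Set.range (G j)) ∪ Set.range W)) := by
  classical
  apply mem_adjoin_of_fixed
  intro σ hσ
  have h2 : ∀ j q, σ (G j q) = G j q := fun j q =>
    hσ _ (Or.inr (Or.inl (Set.mem_iUnion.2 ⟨j, q, rfl⟩)))
  have hW : ∀ q, σ (W q) = W q := fun q => hσ _ (Or.inr (Or.inr ⟨q, rfl⟩))
  have hμ : ∀ ξ ∈ mu (kbar k K) p, σ ξ = ξ := fun ξ hξ => hσ _ (Or.inl hξ)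
  obtain ⟨ρ, hρ⟩ := exists_ext s σ
  have hsum := congrArg (evP x y) hprod
  rw [map_prod, map_add, map_mul, map_mul, hf, mul_zero, add_zero, map_pow] at hsum
  have hcT : evP x y (C T) = ((T : kbar k K) : AlgebraicClosure K) := by
    unfold evP
    rw [aeval_C]
    rfl
  set w := evP x y (pol W) with hw
  have hρw : ρ w = w := by
    rw [hw, ext_pol s hρ]
    simp only [hW]
  have hρG : ∀ j, ρ (evP x y (pol (G j))) = evP x y (pol (G j)) := by
    intro j
    rw [ext_pol s hρ]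
    simp only [h2]
  have hP0 : ∏ j, u j ≠ 0 := Finset.prod_ne_zero_iff.2 fun j _ => hu0 j
  have hPp : (∏ j, u j) ^ p = ((α : kbar k K) * w : AlgebraicClosure K) ^ p := by
    rw [← Finset.prod_pow, Finset.prod_congr rfl fun j _ => hu j, hsum, hcT, mul_pow, ← hα]
    rfl
  have hαw0 : (α : AlgebraicClosure K) * w ≠ 0 := by
    intro h0
    rw [h0, zero_pow hp] at hPp
    exact pow_ne_zero p hP0 hPp
  have h5 : ((∏ j, u j) / ((α : AlgebraicClosure K) * w)) ^ p = 1 := by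
    rw [div_pow, hPp]
    exact div_self (pow_ne_zero _ hαw0)
  obtain ⟨ζ, hζ, hζe⟩ := exists_mu (k := k) hp h5
  have h6 : ∏ j, u j = (ζ : AlgebraicClosure K) * ((α : AlgebraicClosure K) * w) := by
    rw [hζe, div_mul_cancel₀ _ hαw0]
  have hα0 : (α : AlgebraicClosure K) ≠ 0 := left_ne_zero_of_mul hαw0
  -- the action of `ρ` on the product
  have h7 : ρ (∏ j, u j) * (α : AlgebraicClosure K) =
      ((σ α : kbar k K) : AlgebraicClosure K) * ∏ j, u j := by
    rw [h6, map_mul, map_mul, ext_const s hρ, ext_const s hρ, hμ ζ hζ, hρw]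
    ring
  -- the power of `u i`
  have h8 : ρ (u i ^ d) = u i ^ d := by
    rw [hd, pow_mul, map_pow, hu, hρG]
  -- the product over `j ≠ i`
  have h9 : ∀ v : Fin d → AlgebraicClosure K, v i ≠ 0 →
      ∏ j ∈ Finset.univ.erase i, v j / v i = (∏ j, v j) / v i ^ d := by
    intro v hv
    rw [Finset.prod_div_distrib, Finset.prod_const, Finset.card_erase_of_mem (Finset.mem_univ i),
      Finset.card_univ, Fintype.card_fin, ← Finset.mul_prod_erase Finset.univ v (Finset.mem_univ i)]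
    have hd0 : 0 < d := lt_of_le_of_lt (Nat.zero_le _) i.2
    obtain ⟨e, rfl⟩ : ∃ e, d = e + 1 := ⟨d - 1, by omega⟩
    rw [Nat.add_sub_cancel, pow_succ]
    field_simp
  have h10 : (∏ j ∈ Finset.univ.erase i, ρ (u j / u i)) *
      ∏ j ∈ Finset.univ.erase i, (z j i : AlgebraicClosure K) =
      (∏ j ∈ Finset.univ.erase i, ((σ (z j i) : kbar k K) : AlgebraicClosure K)) *
      ∏ j ∈ Finset.univ.erase i, (u j / u i) := by
    rw [← Finset.prod_mul_distrib, ← Finset.prod_mul_distrib]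
    refine Finset.prod_congr rfl fun j hj => ?_
    exact (hz j i (Finset.mem_erase.1 hj).1).2 σ hμ (h2 j) (h2 i) ρ hρ
  rw [← map_prod, h9 u (hu0 i), map_div₀, h8] at h10
  have hui : u i ^ d ≠ 0 := pow_ne_zero _ (hu0 i)
  have hZ0 : (∏ j ∈ Finset.univ.erase i, (z j i : AlgebraicClosure K)) ≠ 0 :=
    Finset.prod_ne_zero_iff.2 fun j hj h =>
      (hz j i (Finset.mem_erase.1 hj).1).1 (Subtype.ext h)
  have hZσ : (∏ j ∈ Finset.univ.erase i, ((σ (z j i) : kbar k K) : AlgebraicClosure K)) ≠ 0 :=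
    Finset.prod_ne_zero_iff.2 fun j hj h =>
      (hz j i (Finset.mem_erase.1 hj).1).1 ((map_eq_zero σ).1 (Subtype.ext h))
  have hcast : ∀ v : Fin d → kbar k K, ((∏ j ∈ Finset.univ.erase i, v j : kbar k K) :
      AlgebraicClosure K) = ∏ j ∈ Finset.univ.erase i, (v j : AlgebraicClosure K) := by
    intro v
    exact map_prod (algebraMap (kbar k K) (AlgebraicClosure K)) v _
  apply Subtype.ext
  rw [map_div₀, map_prod]
  change ((σ α : kbar k K) : AlgebraicClosure K) /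
    ((∏ j ∈ Finset.univ.erase i, σ (z j i) : kbar k K) : AlgebraicClosure K) =
    (α : AlgebraicClosure K) / ((∏ j ∈ Finset.univ.erase i, z j i : kbar k K) : AlgebraicClosure K)
  rw [hcast, hcast, div_eq_div_iff hZσ hZ0]
  have hPd : (∏ j, u j) / u i ^ d ≠ 0 := div_ne_zero hP0 hui
  apply mul_right_cancel₀ hPd
  calc ((σ α : kbar k K) : AlgebraicClosure K) *
        (∏ j ∈ Finset.univ.erase i, (z j i : AlgebraicClosure K)) * ((∏ j, u j) / u i ^ d)
      = (((σ α : kbar k K) : AlgebraicClosure K) * ∏ j, u j) *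
        (∏ j ∈ Finset.univ.erase i, (z j i : AlgebraicClosure K)) / u i ^ d := by ring
    _ = (α : AlgebraicClosure K) * (ρ (∏ j, u j) / u i ^ d *
        ∏ j ∈ Finset.univ.erase i, (z j i : AlgebraicClosure K)) := by rw [← h7]; ring
    _ = _ := by rw [h10]; ring

end

end Pool.Agent.PL
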