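import Pool.Agent.Helper13.PL.L2
import Pool.Agent.Helper13.PL.G1
import Pool.Agent.Helper13.PL.L1

/-!
# Project PLANE, block L: inertia at good places fixes the constants
-/

universe u v

set_option linter.unusedSectionVars false

namespace Pool.Agent.PL

open Polynomial Pool.Agent.PC Pool.Agent.Helper91.Sect Pool.Agent.LT Pool.Agent.GC Pool.Agent.SC

section conv

variable {k : Type u} [Field k]

theorem toXY_pol_coeff_mem {A : Type v} [Semiring A] (φ : k →+* A) (S : Subsemiring A) {d : ℕ}
    {f : Mon d → k} (hf : ∀ q, φ (f q) ∈ S) (i j : ℕ) :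
    φ (((toXY k (pol f)).coeff i).coeff j) ∈ S := by
  rw [toXY_pol, finsetSum_coeff, finsetSum_coeff, map_sum]
  refine S.sum_mem fun q _ => ?_
  rw [coeff_C_mul_X_pow]
  split_ifs with h2
  · rw [coeff_C_mul_X_pow]
    split_ifs with h3
    · exact hf q
    · rw [map_zero]
      exact S.zero_mem
  · rw [coeff_zero, map_zero]
    exact S.zero_mem

/-- the monic polynomial of a plane curve -/
noncomputable def monF {d : ℕ} (f : Mon d → k) : k[X][X] :=
  C (C (f (topY d))⁻¹) * toXY k (pol f)

theorem monF_monic {d : ℕ} {f : Mon d → k} (hf : f (topY d) ≠ 0) : (monF f).Monic := by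
  apply monic_of_natDegree_le_of_coeff_eq_one d
  · exact (natDegree_C_mul_le _ _).trans (natDegree_toXY_pol f)
  · unfold monF
    rw [coeff_C_mul, coeff_toXY_pol, ← C_mul, inv_mul_cancel₀ hf, C_1]

theorem monF_root {K : Type v} [Field K] [Algebra k K] {x y : K} {d : ℕ} {f : Mon d → k}
    (hxy : MvPolynomial.aeval ![x, y] (pol f) = 0) :
    eval₂ (aeval x : k[X] →ₐ[k] K).toRingHom y (monF f) = 0 := by
  unfold monF
  rw [eval₂_mul, eval_toXY, hxy, mul_zero]

theorem monF_cert {d : ℕ} {f : Mon d → k} {A B : MvPolynomial (Fin 2) k} {R U U' : k[X]} {e : ℕ}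
    (h : DiscCert f A B R U U' e) :
    (C (C (f (topY d))) * toXY k A) * monF f + (C (C (f (topY d))) * toXY k B) *
      derivative (monF f) = C (R ^ e) := by
  have h1 : C (C (f (topY d))) * C (C (f (topY d))⁻¹) = (1 : k[X][X]) := by
    rw [← C_mul, ← C_mul, mul_inv_cancel₀ h.lead, C_1, C_1]
  have h2 := congrArg (toXY k) h.eq
  rw [map_add, map_mul, map_mul, map_pow, toXY_aeval, ← derivative_toXY] at h2
  unfold monF
  rw [derivative_C_mul]
  calc C (C (f (topY d))) * toXY k A * (C (C (f (topY d))⁻¹) * toXY k (pol f)) +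
        C (C (f (topY d))) * toXY k B * (C (C (f (topY d))⁻¹) * derivative (toXY k (pol f)))
      = (C (C (f (topY d))) * C (C (f (topY d))⁻¹)) * (toXY k A * toXY k (pol f) +
        toXY k B * derivative (toXY k (pol f))) := by ring
    _ = _ := by rw [h1, one_mul, h2, C_pow]

end conv

section gauss

variable {k₁ k K : Type u} [Field k₁] [CharZero k₁] [Field k] [Field K]
  [Algebra k₁ k] [Algebra k K] [Algebra k₁ K] [IsScalarTower k₁ k K]

theorem coe_toU_const (c : k) : toU (k := k) (K := K) (algebraMap k K c) =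
    algebraMap (kbar k K) (UU k K) (algebraMap k (kbar k K) c) := by
  apply Subtype.ext
  change algebraMap K (AlgebraicClosure K) (algebraMap k K c) =
    algebraMap k (AlgebraicClosure K) c
  rw [← IsScalarTower.algebraMap_apply]

theorem transcendental_toU {x : K} (hx : Transcendental k x) :
    Transcendental (kbar k K) (toU (k := k) (K := K) x) := by
  intro h
  apply hx
  have h1 : IsAlgebraic (kbar k K) (algebraMap K (AlgebraicClosure K) x) := by
    have h2 : algebraMap K (AlgebraicClosure K) x =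
        algebraMap (UU k K) (AlgebraicClosure K) (toU (k := k) (K := K) x) := rfl
    rw [h2]
    exact h.algebraMap
  have h2 : IsAlgebraic k (algebraMap K (AlgebraicClosure K) x) :=
    h1.restrictScalars k
  exact (isAlgebraic_algebraMap_iff (algebraMap K (AlgebraicClosure K)).injective).1 h2

/-- values in `UU` -/
theorem coe_aeval_UU (x y : K) {n : ℕ} (g : Mon n → kbar k K) :
    ((MvPolynomial.aeval ![toU (k := k) (K := K) x, toU (k := k) (K := K) y] (pol g) : UU k K) :
      AlgebraicClosure K) = evP x y (pol g) := by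
  unfold evP
  rw [aeval_pol, aeval_pol]
  change (UU k K).val _ = _
  rw [map_sum]
  rfl

theorem y_mem {W : ValuationSubring (kbar k K)} {x y : K} {V : ValuationSubring (UU k K)}
    (hV : Gauss (algebraicClosure k₁ (kbar k K)) W (toU (k := k) (K := K) x) V) {F : k[X][X]} (hF : F.Monic)
    (hxy : eval₂ (aeval x : k[X] →ₐ[k] K).toRingHom y F = 0)
    (hWF : ∀ i j, algebraMap k (kbar k K) ((F.coeff i).coeff j) ∈ W) : toU (k := k) (K := K) y ∈ V := by
  let ι : k[X] →+* UU k K := (toU (k := k) (K := K)).comp (aeval x : k[X] →ₐ[k] K).toRingHom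
  have hι : ∀ r : k[X], ι r = toU (k := k) (K := K) (aeval x r) := fun _ => rfl
  have hval : ∀ r : k[X], (∀ n, algebraMap k (kbar k K) (r.coeff n) ∈ W) → ι r ∈ V := by
    intro r hr
    rw [hι, aeval_eq_sum_range, map_sum]
    refine V.toSubring.sum_mem fun n _ => ?_
    rw [Algebra.smul_def, map_mul, map_pow, coe_toU_const]
    exact V.toSubring.mul_mem ((hV.mem_iff _).2 (hr n)) (V.toSubring.pow_mem hV.x_mem n)
  have hroot : (F.map ι).eval (toU (k := k) (K := K) y) = 0 := by
    rw [eval_map, ← hom_eval₂, hxy, map_zero]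
  obtain ⟨m, hm1, hm2⟩ := exists_lift_monic V (F.map ι) (hF.map ι) (fun n => by
    rw [coeff_map]
    exact hval _ (hWF n))
  apply mem_of_root V hm2
  rw [hm1, hroot]

/-- `G (x, y)` is a unit -/
theorem val_eq_one {W : ValuationSubring (kbar k K)} {t' : kbar k K}
    (hb : Base (algebraicClosure k₁ (kbar k K)) W t') {x y : K} {V : ValuationSubring (UU k K)}
    (hV : Gauss (algebraicClosure k₁ (kbar k K)) W (toU (k := k) (K := K) x) V) (hy : toU (k := k) (K := K) y ∈ V)
    {d n : ℕ} {f : Mon d → k} (hxy : MvPolynomial.aeval ![x, y] (pol f) = 0)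
    {G : Mon n → kbar k K} {D D' : MvPolynomial (Fin 2) (kbar k K)} {c : (kbar k K)[X]}
    (hnrm : D * pol G + D' * pol (fun q => algebraMap k (kbar k K) (f q)) =
      aeval (MvPolynomial.X 0) c) (hG : UnitGood W G D c) :
    V.valuation (MvPolynomial.aeval ![toU (k := k) (K := K) x, toU (k := k) (K := K) y] (pol G)) = 1 := by
  have hac : IsAlgClosed (algebraicClosure k₁ (kbar k K)) :=
    (inferInstance : IsAlgClosure k₁ (algebraicClosure k₁ (kbar k K))).isAlgClosed
  have hf : MvPolynomial.aeval ![toU (k := k) (K := K) x, toU (k := k) (K := K) y]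
      (pol (fun q => algebraMap k (kbar k K) (f q))) = (0 : UU k K) := by
    have h1 := congrArg (toU (k := k) (K := K)) hxy
    rw [aeval_pol, map_sum, map_zero] at h1
    rw [aeval_pol, ← h1]
    refine Finset.sum_congr rfl fun q _ => ?_
    rw [map_mul, map_mul, map_pow, map_pow, coe_toU_const]
  have h1 := congrArg (MvPolynomial.aeval ![toU (k := k) (K := K) x, toU (k := k) (K := K) y]) hnrm
  rw [map_add, map_mul, map_mul, hf, mul_zero, add_zero] at h1
  have h2 : MvPolynomial.aeval ![toU (k := k) (K := K) x, toU (k := k) (K := K) y]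
      (aeval (MvPolynomial.X 0 : MvPolynomial (Fin 2) (kbar k K)) c) =
      aeval (toU (k := k) (K := K) x) c := by
    rw [← aeval_algHom_apply, MvPolynomial.aeval_X]
    rfl
  rw [h2] at h1
  have h3 : ¬ V.valuation (aeval (toU (k := k) (K := K) x) c) < 1 := by
    intro h4
    have h5 := (Gauss.val_poly_lt hb hV c 1 one_ne_zero).1 (by rw [map_one, map_one]; exact h4)
    obtain ⟨l, hl0, hl⟩ := hG.c_unit
    have h6 := h5 l
    rw [map_one] at h6
    have h7 := (W.valuation_le_one_iff _).2 hl
    rw [map_inv₀] at h7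
    have h8 : 1 ≤ W.valuation (c.coeff l) :=
      (inv_le_one₀ (zero_lt_iff.2 ((Valuation.ne_zero_iff _).2 hl0))).1 h7
    exact absurd h6 (not_lt.2 h8)
  rw [← h1, map_mul, not_lt] at h3
  have hDv : V.valuation (MvPolynomial.aeval ![toU (k := k) (K := K) x, toU (k := k) (K := K) y] D) ≤ 1 :=
    (V.valuation_le_one_iff _).2 (aeval_mem (fun s => (hV.mem_iff _).2 (hG.D_mem s)) hV.x_mem hy)
  have hGv : V.valuation (MvPolynomial.aeval ![toU (k := k) (K := K) x, toU (k := k) (K := K) y] (pol G)) ≤ 1 :=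
    (V.valuation_le_one_iff _).2 (aeval_pol_mem (fun q => (hV.mem_iff _).2 (hG.G_mem q)) hV.x_mem hy)
  refine le_antisymm hGv (h3.trans ?_)
  calc _ ≤ 1 * V.valuation (MvPolynomial.aeval ![toU (k := k) (K := K) x, toU (k := k) (K := K) y] (pol G)) :=
        mul_le_mul' hDv le_rfl
    _ = _ := one_mul _

/-- **Inertia at good places fixes the constants.** -/
theorem z_inert (hF₁ : ∃ S : Finset k₁, Subfield.closure (S : Set k₁) = ⊤)
    (t : k) (hfin : FiniteDimensional (IntermediateField.adjoin k₁ {t}) k)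
    {x y : K} (hx : Transcendental k x) (hgen : IntermediateField.adjoin k {x, y} = ⊤)
    {d : ℕ} {f : Mon d → k} (hxy : MvPolynomial.aeval ![x, y] (pol f) = 0)
    {A B : MvPolynomial (Fin 2) k} {R U U' : k[X]} {e : ℕ} (hcert : DiscCert f A B R U U' e)
    (s : GaloisSection k K)
    {p n : ℕ} (hp : p ≠ 0) {G : Fin d → Mon n → kbar k K} {u : Fin d → AlgebraicClosure K}
    (hu : ∀ i, u i ^ p = evP x y (pol (G i))) (hu0 : ∀ i, u i ≠ 0)
    (hK : ∀ i j, i ≠ j → u i / u j ∈ Kur k K) {z : Fin d → Fin d → kbar k K}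
    (hz : IsZ s p G u z)
    {W : ValuationSubring (kbar k K)} (hW : W ≠ ⊤)
    (hk₁ : ∀ c : k₁, algebraMap k₁ (kbar k K) c ∈ W)
    (hgood : DiscGood W f B R U U')
    {D D' : Fin d → MvPolynomial (Fin 2) (kbar k K)} {c : Fin d → (kbar k K)[X]}
    (hnrm : ∀ i, D i * pol (G i) + D' i * pol (fun q => algebraMap k (kbar k K) (f q)) =
      aeval (MvPolynomial.X 0) (c i))
    {i j : Fin d} (hij : i ≠ j) (hi : UnitGood W (G i) (D i) (c i))
    (hj : UnitGood W (G j) (D j) (c j))
    {τ : Gk k K} (hτ : InInert W τ) (hτi : ∀ q, τ (G i q) = G i q)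
    (hτj : ∀ q, τ (G j q) = G j q) : τ (z i j) = z i j := by
  classical
  have hk0 : CharZero k := charZero_of_injective_algebraMap (algebraMap k₁ k).injective
  have hkb0 : CharZero (kbar k K) :=
    charZero_of_injective_algebraMap (algebraMap k (kbar k K)).injective
  have hac : IsAlgClosed (algebraicClosure k₁ (kbar k K)) :=
    (inferInstance : IsAlgClosure k₁ (algebraicClosure k₁ (kbar k K))).isAlgClosed
  have hres : CharZero (IsLocalRing.ResidueField W) := by
    let φ : k₁ →+* W := (algebraMap k₁ (kbar k K)).codRestrict W.toSubring hk₁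
    exact charZero_of_injective_ringHom ((IsLocalRing.residue W).comp φ).injective
  have hp0 : (p : kbar k K) ≠ 0 := Nat.cast_ne_zero.2 hp
  have hpinv : (p : kbar k K)⁻¹ ∈ W := by
    have h1 := hk₁ ((p : k₁)⁻¹)
    rwa [map_inv₀, map_natCast] at h1
  -- the valuation ring of `UU`
  obtain ⟨t', hb⟩ := exists_base' (K := K) t hfin hW hk₁
  obtain ⟨V, hV⟩ := exists_gauss (N := UU k K) hb (transcendental_toU hx)
  -- the monic polynomial
  have hWF : ∀ i j, algebraMap k (kbar k K) (((monF f).coeff i).coeff j) ∈ W := by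
    intro i j
    unfold monF
    rw [coeff_C_mul, coeff_C_mul, map_mul, map_inv₀]
    exact W.mul_mem _ _ hgood.lead (toXY_pol_coeff_mem _ W.toSubring.toSubsemiring hgood.f_mem i j)
  have hWB : ∀ i j, algebraMap k (kbar k K)
      (((C (C (f (topY d))) * toXY k B).coeff i).coeff j) ∈ W := by
    intro i j
    rw [coeff_C_mul, coeff_C_mul, map_mul]
    exact W.mul_mem _ _ (hgood.f_mem _)
      (toXY_coeff_mem _ W.toSubring.toSubsemiring hgood.B_mem i j)
  have hWQ : ∀ i, algebraMap k (kbar k K) ((1 : k[X]).coeff i) ∈ W := by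
    intro i
    rw [coeff_one]
    split_ifs
    · rw [map_one]; exact W.one_mem
    · rw [map_zero]; exact W.zero_mem
  have hRsep : R.Separable := ⟨U, U', hcert.sep⟩
  have hy : toU (k := k) (K := K) y ∈ V := y_mem hV (monF_monic hcert.lead) (monF_root hxy) hWF
  -- the root
  have hwU : u i / u j ∈ UU k K := (mem_UU k K).2 (hK i j hij)
  set w : UU k K := ⟨u i / u j, hwU⟩ with hw
  have hvi := val_eq_one hb hV hy hxy (hnrm i) hi
  have hvj := val_eq_one hb hV hy hxy (hnrm j) hj
  have hwp : w ^ p * MvPolynomial.aeval ![toU (k := k) (K := K) x, toU (k := k) (K := K) y] (pol (G j)) =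
      MvPolynomial.aeval ![toU (k := k) (K := K) x, toU (k := k) (K := K) y] (pol (G i)) := by
    apply Subtype.ext
    change (u i / u j) ^ p * ((MvPolynomial.aeval ![toU (k := k) (K := K) x, toU (k := k) (K := K) y] (pol (G j)) :
      UU k K) : AlgebraicClosure K) = _
    rw [coe_aeval_UU, coe_aeval_UU, div_pow, hu, hu, div_mul_cancel₀]
    rw [← hu]
    exact pow_ne_zero _ (hu0 j)
  have hwv : V.valuation w = 1 := by
    have h1 := congrArg V.valuation hwp
    rw [map_mul, map_pow, hvi, hvj, mul_one] at h1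
    exact (pow_eq_one_iff_of_nonneg zero_le hp).1 h1
  have hwV : w ∈ V := (V.valuation_le_one_iff _).1 hwv.le
  have hgr : GoodRed W R := goodRed_of_cert hres hcert.deg hcert.sep hgood.R_mem hgood.R_lead
    hgood.U_mem hgood.U'_mem
  have h1 := inert_trivial_plane hF₁ t hfin hx hgen (monF_monic hcert.lead) (monF_root hxy)
    (monF_cert hcert) (mul_one (R ^ e)) hcert.deg hRsep s hW hk₁ hgr hWF hWB hWQ hV hτ hwV
  -- roots of unity are fixed
  have hμ : ∀ ξ ∈ mu (kbar k K) p, τ ξ = ξ := by
    intro ξ hξ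
    have hξ0 : ξ ≠ 0 := by
      rintro rfl
      change (0 : kbar k K) ^ p = 1 at hξ
      rw [zero_pow hp] at hξ
      exact zero_ne_one hξ
    have hξv : W.valuation ξ = 1 := by
      have h2 := congrArg W.valuation (hξ : ξ ^ p = 1)
      rw [map_pow, map_one] at h2
      exact (pow_eq_one_iff_of_nonneg zero_le hp).1 h2
    have h2 : (τ ξ / ξ) ^ p = 1 := by
      rw [div_pow, ← map_pow]
      have h3 : ξ ^ p = 1 := hξ
      rw [h3, map_one, div_one]
    have h3 : W.valuation (τ ξ / ξ - 1) < 1 := by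
      have h4 : τ ξ / ξ - 1 = (τ ξ - ξ) / ξ := by field_simp
      rw [h4, map_div₀, hξv, div_one]
      exact (W.mem_nonunits_iff).1 (hτ.2 ξ ((W.valuation_le_one_iff _).1 hξv.le))
    have h4 := mu_eq_one hpinv hp0 h2 h3
    rwa [div_eq_one_iff_eq hξ0] at h4
  -- the action
  obtain ⟨ρ, hρ⟩ := exists_ext s τ
  obtain ⟨hz0, hz1⟩ := hz i j hij
  have h2 := hz1 τ hμ hτi hτj ρ hρ
  have hzc : (z i j : AlgebraicClosure K) ≠ 0 := fun h => hz0 (Subtype.ext h)
  have hw0 : u i / u j ≠ 0 := div_ne_zero (hu0 i) (hu0 j)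
  have hact : actU s τ w = algebraMap (kbar k K) (UU k K) (τ (z i j) / z i j) * w := by
    apply Subtype.ext
    rw [coe_actU]
    rw [← hρ]
    change ρ (u i / u j) = ((τ (z i j) / z i j : kbar k K) : AlgebraicClosure K) * (u i / u j)
    have h3 : ((τ (z i j) / z i j : kbar k K) : AlgebraicClosure K) =
        ((τ (z i j) : kbar k K) : AlgebraicClosure K) / (z i j : AlgebraicClosure K) := rfl
    rw [h3, div_mul_eq_mul_div, ← h2, mul_div_cancel_right₀ _ hzc]
  have hζ : (τ (z i j) / z i j) ^ p = 1 := by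
    have h3 := congrArg (fun w => w ^ p) h2
    simp only [mul_pow] at h3
    rw [ratio_pow s hu hρ hτi hτj, mul_comm] at h3
    have h5 := mul_right_cancel₀ (pow_ne_zero p hw0) h3
    rw [div_pow]
    have h6 : τ (z i j) ^ p = z i j ^ p := Subtype.ext h5.symm
    rw [h6]
    exact div_self (pow_ne_zero _ hz0)
  have h3 : W.valuation (τ (z i j) / z i j - 1) < 1 := by
    rw [hact, ValuationSubring.mem_nonunits_iff] at h1
    have h4 : algebraMap (kbar k K) (UU k K) (τ (z i j) / z i j) * w - w =
        algebraMap (kbar k K) (UU k K) (τ (z i j) / z i j - 1) * w := by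
      rw [map_sub, map_one]; ring
    rw [h4, map_mul, hwv, mul_one] at h1
    exact (A1.val_lt_one_iff hV _).1 h1
  have h4 := mu_eq_one hpinv hp0 hζ h3
  rwa [div_eq_one_iff_eq hz0] at h4

end gauss

end Pool.Agent.PL
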