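import Pool.Agent.Helper13.PL.Lev
import Pool.Agent.Helper77.PLN.UP1

/-!
# Project PLANE: the relations in the ultrapower
-/

universe u v w

namespace Pool.Agent.PL

open Pool.Agent.PC Pool.Agent.Helper37.UL

variable {J : Type v} {U : Ultrafilter J} {k C : Type u} [Field k] [Field C] [Algebra k C]
  [IsAlgClosed C] [CharZero C] {S : Type w} [Field S] {π : (J → C) →+* S} (h : UP U π) {p : ℕ}

/-- automorphisms which fix the germs of functions into `k` and the `p`-th roots of unity -/
structure Fx (k : Type u) {C : Type u} [Field k] [Field C] [Algebra k C] {U : Ultrafilter J}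
    {S : Type w} [Field S] {π : (J → C) →+* S} (h : UP U π) (p : ℕ) (σ : S ≃+* S) : Prop where
  fix : ∀ y ∈ h.gsub (algebraMap k C).fieldRange, σ y = y
  mu : ∀ ξ ∈ mu C p, σ (UP.cst π ξ) = UP.cst π ξ

include h in
theorem fix_of_ev (hp : p ≠ 0) (hC : ∀ x : C, IsAlgebraic (algebraMap k C).fieldRange x)
    {I : Type} [Finite I] {v : J → I → C}
    (hv : ∀ i, IsAlgebraic (h.gsub (algebraMap k C).fieldRange) (π fun a => v a i)) {y : J → C}
    (hy : ∀ᶠ a in (U : Filter J), y a ∈ IntermediateField.adjoin k (mu C p ∪ Set.range (v a)))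
    {σ : S ≃+* S} (hσ : Fx k h p σ)
    (hσv : ∀ i, σ (π fun a => v a i) = π fun a => v a i) : σ (π y) = π y := by
  have hp0 : NeZero p := ⟨hp⟩
  have hpC : NeZero (p : C) := ⟨Nat.cast_ne_zero.mpr hp⟩
  obtain ⟨ζ, hζ⟩ := HasEnoughRootsOfUnity.exists_primitiveRoot C p
  let v' : J → Option I → C := fun a o => o.elim ζ (v a)
  have hfix : ∀ o, σ (π fun a => v' a o) = π fun a => v' a o := by
    intro o
    cases o with
    | none => exact hσ.mu ζ hζ.pow_eq_one
    | some i => exact hσv i
  have hv' : ∀ o, IsAlgebraic (h.gsub (algebraMap k C).fieldRange) (π fun a => v' a o) := by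
    intro o
    cases o with
    | none =>
      apply IsAlgebraic.of_pow (Nat.pos_of_ne_zero hp)
      have h1 : (π fun _ => ζ) ^ p = 1 := by
        rw [← map_pow, ← map_one π]
        congr 1
        funext a
        exact hζ.pow_eq_one
      change IsAlgebraic _ ((π fun _ => ζ) ^ p)
      rw [h1]
      exact isAlgebraic_one
    | some i => exact hv i
  have h1 := mem_closure h hC hv' (y := y) (by
    filter_upwards [hy] with a ha
    have h2 : (IntermediateField.adjoin k (mu C p ∪ Set.range (v a))).toSubfield ≤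
        Subfield.closure (((algebraMap k C).fieldRange : Set C) ∪ Set.range (v' a)) := by
      rw [IntermediateField.adjoin_toSubfield, Subfield.closure_le]
      rintro x (hx | hx | ⟨i, rfl⟩)
      · exact Subfield.subset_closure (Or.inl (by rw [RingHom.coe_fieldRange]; exact hx))
      · obtain ⟨n, -, hn⟩ := hζ.eq_pow_of_pow_eq_one hx
        have h5 : ζ ∈ Subfield.closure (((algebraMap k C).fieldRange : Set C) ∪
            Set.range (v' a)) := Subfield.subset_closure (Or.inr ⟨none, rfl⟩)
        rw [← hn]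
        exact Subfield.pow_mem _ h5 n
      · exact Subfield.subset_closure (Or.inr ⟨some i, rfl⟩)
    exact h2 ha)
  have h2 : Subfield.closure ((h.gsub (algebraMap k C).fieldRange : Set S) ∪
      Set.range fun i => π fun a => v' a i) ≤
      (RingEquiv.toRingHom σ).eqLocusField (RingHom.id S) := by
    rw [Subfield.closure_le]
    rintro x (hx | ⟨o, rfl⟩)
    · exact hσ.fix x hx
    · exact hfix o
  exact h2 h1

/-- **The relations in the ultrapower.** -/
theorem rels (hp : p ≠ 0) (hC : ∀ x : C, IsAlgebraic (algebraMap k C).fieldRange x)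
    {d n nW : ℕ} {G : J → Fin d → Mon n → C} {W : J → Mon nW → C} {T : k}
    {z : J → Fin d → Fin d → C}
    (hG : ∀ i q, IsAlgebraic (h.gsub (algebraMap k C).fieldRange) (π fun a => G a i q))
    (hW : ∀ q, IsAlgebraic (h.gsub (algebraMap k C).fieldRange) (π fun a => W a q))
    (hz : ∀ᶠ a in (U : Filter J), LevZ p (G a) (W a) T (z a)) :
    (∀ i j, i ≠ j → (π fun a => z a i j) ≠ 0) ∧
    (∀ i j, i ≠ j → ∀ σ : S ≃+* S, Fx k h p σ →
      (∀ q, σ (π fun a => G a i q) = π fun a => G a i q) →
      (∀ q, σ (π fun a => G a j q) = π fun a => G a j q) →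
      σ ((π fun a => z a i j) ^ p) = (π fun a => z a i j) ^ p) ∧
    (∀ i j l, i ≠ j → j ≠ l → i ≠ l → ∀ σ : S ≃+* S, Fx k h p σ →
      (∀ q, σ (π fun a => G a i q) = π fun a => G a i q) →
      (∀ q, σ (π fun a => G a j q) = π fun a => G a j q) →
      (∀ q, σ (π fun a => G a l q) = π fun a => G a l q) →
      σ ((π fun a => z a i j) * (π fun a => z a j l) / (π fun a => z a i l)) =
        (π fun a => z a i j) * (π fun a => z a j l) / (π fun a => z a i l)) ∧
    (∀ α : C, α ^ p = algebraMap k C T → ∀ i, ∀ σ : S ≃+* S, Fx k h p σ →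
      (∀ i q, σ (π fun a => G a i q) = π fun a => G a i q) →
      (∀ q, σ (π fun a => W a q) = π fun a => W a q) →
      σ (UP.cst π α / ∏ j ∈ Finset.univ.erase i, (π fun a => z a j i)) =
        UP.cst π α / ∏ j ∈ Finset.univ.erase i, (π fun a => z a j i)) ∧
    (∀ T' : S ≃+* S, UP.Internal π (algebraMap k C).fieldRange T' →
      ∀ i j i' j', i ≠ j → i' ≠ j' →
      (∀ q, T' (π fun a => G a i q) = π fun a => G a i' q) →
      (∀ q, T' (π fun a => G a j q) = π fun a => G a j' q) →
      ∀ σ : S ≃+* S, Fx k h p σ →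
      (∀ q, σ (π fun a => G a i' q) = π fun a => G a i' q) →
      (∀ q, σ (π fun a => G a j' q) = π fun a => G a j' q) →
      σ (T' (π fun a => z a i j) / (π fun a => z a i' j')) =
        T' (π fun a => z a i j) / (π fun a => z a i' j')) := by
  classical
  refine ⟨?_, ?_, ?_, ?_, ?_⟩
  · intro i j hij
    rw [h.ne0]
    filter_upwards [hz] with a ha
    exact ha.ne i j hij
  · intro i j hij σ hσ hσi hσj
    rw [← map_pow]
    refine fix_of_ev h hp hC (I := Mon n ⊕ Mon n) (v := fun a => Sum.elim (G a i) (G a j))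
      (y := (fun a => z a i j) ^ p) ?_ ?_ hσ ?_
    · rintro (q | q)
      · exact hG i q
      · exact hG j q
    · filter_upwards [hz] with a ha
      rw [Set.Sum.elim_range]
      exact ha.pow i j hij
    · rintro (q | q)
      · exact hσi q
      · exact hσj q
  · intro i j l hij hjl hil σ hσ hσi hσj hσl
    rw [← map_mul, ← h.map_div]
    refine fix_of_ev h hp hC (I := (Mon n ⊕ Mon n) ⊕ Mon n)
      (v := fun a => Sum.elim (Sum.elim (G a i) (G a j)) (G a l)) ?_ ?_ hσ ?_
    · rintro ((q | q) | q)
      · exact hG i q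
      · exact hG j q
      · exact hG l q
    · filter_upwards [hz] with a ha
      rw [Set.Sum.elim_range, Set.Sum.elim_range]
      exact ha.coc i j l hij hjl hil
    · rintro ((q | q) | q)
      · exact hσi q
      · exact hσj q
      · exact hσl q
  · intro α hα i σ hσ hσG hσW
    have h1 : UP.cst π α / ∏ j ∈ Finset.univ.erase i, (π fun a => z a j i) =
        π ((fun _ => α) / ∏ j ∈ Finset.univ.erase i, fun a => z a j i) := by
      rw [h.map_div, map_prod]
      rfl
    rw [h1]
    refine fix_of_ev h hp hC (I := (Fin d × Mon n) ⊕ Mon nW)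
      (v := fun a => Sum.elim (fun q => G a q.1 q.2) (W a)) ?_ ?_ hσ ?_
    · rintro (q | q)
      · exact hG q.1 q.2
      · exact hW q
    · filter_upwards [hz] with a ha
      have h2 : Set.range (Sum.elim (fun q : Fin d × Mon n => G a q.1 q.2) (W a)) =
          (⋃ j, Set.range (G a j)) ∪ Set.range (W a) := by
        rw [Set.Sum.elim_range]
        congr 1
        ext x
        constructor
        · rintro ⟨q, rfl⟩
          exact Set.mem_iUnion.2 ⟨q.1, q.2, rfl⟩
        · intro hx
          obtain ⟨j, q, rfl⟩ := Set.mem_iUnion.1 hx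
          exact ⟨(j, q), rfl⟩
      rw [h2]
      have h3 : ((fun _ : J => α) / ∏ j ∈ Finset.univ.erase i, fun a => z a j i) a =
          α / ∏ j ∈ Finset.univ.erase i, z a j i := by
        rw [Pi.div_apply, Finset.prod_apply]
      rw [h3]
      exact ha.prod α hα i
    · rintro (q | q)
      · exact hσG q.1 q.2
      · exact hσW q
  · intro T' hT' i j i' j' hij hij' hi hj σ hσ hσi hσj
    obtain ⟨τ, hτ, hTτ⟩ := hT'
    rw [hTτ, ← h.map_div]
    have hi' : ∀ᶠ a in (U : Filter J), ∀ q, τ a (G a i q) = G a i' q := by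
      rw [Filter.eventually_all]
      intro q
      have h1 := hi q
      rw [hTτ] at h1
      exact (h.eq_iff _ _).1 h1
    have hj' : ∀ᶠ a in (U : Filter J), ∀ q, τ a (G a j q) = G a j' q := by
      rw [Filter.eventually_all]
      intro q
      have h1 := hj q
      rw [hTτ] at h1
      exact (h.eq_iff _ _).1 h1
    refine fix_of_ev h hp hC (I := Mon n ⊕ Mon n) (v := fun a => Sum.elim (G a i') (G a j'))
      ?_ ?_ hσ ?_
    · rintro (q | q)
      · exact hG i' q
      · exact hG j' q
    · filter_upwards [hz, hi', hj'] with a ha h1 h2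
      rw [Set.Sum.elim_range]
      let σ' : C ≃ₐ[k] C := AlgEquiv.ofRingEquiv (f := τ a) (fun c => hτ a _ ⟨c, rfl⟩)
      exact ha.equi σ' i j i' j' hij hij' h1 h2
    · rintro (q | q)
      · exact hσi q
      · exact hσj q

end Pool.Agent.PL
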