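import Pool.Agent.Helper13.PL.NF6

/-!
# Project PLANE: the theorem on linear systems of plane curves
-/

universe u

namespace Pool.Agent.PL

open Pool.Agent.PC Pool.Agent.Helper37.UL UL

/-- the key statement, for a property of plane curves which implies the existence of constants -/
theorem key_of_hasLev {k : Type u} [Field k] {p d r : ℕ} (hp : p.Prime) (hd : d = p * r)
    (hd3 : 3 ≤ d) {P : (Mon d → k) → Prop}
    (hP : ∀ {F : Type u} [Field F] [CharZero F] [Algebra F k]
      (_ : ∃ S : Finset F, Subfield.closure (S : Set F) = ⊤) (t : k)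
      (_ : FiniteDimensional (IntermediateField.adjoin F {t}) k) (f : Mon d → k), P f →
      HasLev F (AlgebraicClosure k) p r f) : Key k P := by
  intro F _ _ _ hF T q hT hq htop hfd κ hκ hs m w hw0 hw1
  by_contra hcon
  let J : Type u := {a : Mon d × Fin (m + 2) → F // P (sysW w a)}
  refine no_family (J := J) (F := F) (k := k) (C := AlgebraicClosure k) hT hq htop hκ hs hp hd hd3
    hw0 hw1 (vv := Subtype.val) ?_ fun a => hP hF T hfd _ a.2
  rw [Subtype.range_coe_subtype]
  exact hcon

/-- scaling -/
theorem hasSec_smul {k : Type u} [Field k] {d : ℕ} (c : k) (f : Mon d → k) (h : HasSec f) :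
    HasSec fun q => c * f q := by
  obtain ⟨K, i1, i2, x, y, hx, hxy, hs⟩ := h
  refine ⟨K, i1, i2, x, y, hx, ?_, hs⟩
  have h1 : PC.pol (fun q => c * f q) = MvPolynomial.C c * PC.pol f := by
    unfold PC.pol
    rw [Finset.mul_sum]
    refine Finset.sum_congr rfl fun q _ => ?_
    rw [map_mul, mul_assoc]
  rw [h1, map_mul, hxy, mul_zero]

/-- **Linear systems of plane curves: the curves with a Galois section form a thin set.** -/
theorem thin_plane {F k : Type u} [Field F] [CharZero F] [Field k] [Algebra F k]
    (hF : ∃ S : Finset F, Subfield.closure (S : Set F) = ⊤)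
    (hk : ∃ S : Finset k, Subfield.closure (S : Set k) = ⊤) {d : ℕ} (hd : 3 ≤ d) {m : ℕ}
    {w : Fin (m + 1) → k} {i j : Fin (m + 1)} (hT : Transcendental F (w i / w j)) :
    IsThin {a : Mon d × Fin (m + 1) → F | HasSec (sysW w a)} := by
  have hp : (d.minFac).Prime := Nat.minFac_prime (by omega)
  obtain ⟨r, hr⟩ := Nat.minFac_dvd d
  refine thin_of_key (P := HasSec) (fun c f _ h => hasSec_smul c f h)
    (key_of_hasLev hp hr hd ?_) hF hk hT
  intro F' _ _ _ hF' t hfd f hf
  exact hasLev_of_hasSec hF' t hfd hp.ne_zero hr hf _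

end Pool.Agent.PL
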