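import Pool.Agent.Helper13.PL.NF7
import Pool.Agent.Helper10.PL.Final

/-!
# Project PLANE: the final theorem
-/

universe u

namespace Pool.Agent.PL

open Pool.Agent.PC

/-- **Linear systems of plane curves.**  Outside a thin set the curve is smooth and no curve which maps onto it
has a Galois section, not even over the extensions of degree prime to a prime divisor of `d`. -/
theorem plane_final {F k : Type u} [Field F] [CharZero F] [Field k] [Algebra F k]
    (hF : ∃ S : Finset F, Subfield.closure (S : Set F) = ⊤)
    (hk : ∃ S : Finset k, Subfield.closure (S : Set k) = ⊤)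
    {m : ℕ} {w : Fin (m + 1) → k} {i j : Fin (m + 1)} (hw : Transcendental F (w i / w j))
    {d : ℕ} (hd : 3 ≤ d) :
    UL.IsThin {a : Mon d × Fin (m + 1) → F |
      ¬ (SmoothForm (form (sysW w a)) ∧ ∀ p : ℕ, p.Prime → p ∣ d → ¬ HasSecE p (sysW w a))} := by
  refine plane_of_key hF hk hw hd fun p hp hpd => ?_
  obtain ⟨r, hr⟩ := hpd
  refine key_of_hasLev (P := HasSecE p) hp hr hd ?_
  intro F' _ _ _ hF' t hfd f hf
  exact hasLev_of_hasSecE hF' t hfd hp hr hf _

end Pool.Agent.PL
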